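import Pool.Agent.Lib.MP_dabcc9_gtW.WDefs

/-!
LEAF WA (linear relations). From `steiner_limit'` (file LimB): `FT t K = 4π/3 (y + 3 t x + 3 t² m + t³)` for `t ≥ 0`, `m = av (supp K)`;
`vol K = 4π/3 y`, `surf K = 4π x` as in the proof of `body_values` (LimB). Then `FT 0`, `FT 1`, `FT 2` give the formulas;
`FT 0 K = vol K` (`cthickening_zero`, `K` closed); `body_values` for `bX`, `bY`; `av_supp_pos`.
-/

open MeasureTheory Metric Set Pool.Agent.Lib.MP_dabcc9_gt

namespace Pool.Agent.Lib.MP_dabcc9_gtW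

theorem lin_rel {K : Set E3} (hK : IsBody K) :
    vN K = 3 * FT 0 K / (4 * Real.pi) ∧
    mN K = (FT 2 K - 2 * FT 1 K + FT 0 K) / (8 * Real.pi) - 1 ∧
    sN K = (FT 1 K - FT 0 K) / (4 * Real.pi) - mN K - 1 / 3 ∧
    0 < mN K ∧ bX K = sN K / mN K ^ 2 ∧ bY K = vN K / mN K ^ 3 := by
  obtain ⟨hKc, hKv, hKn⟩ := hK
  obtain ⟨x, y, h1, -⟩ := steiner_limit' hKc hKv hKn.nonempty
  have hm := av_supp_pos hKc hKn
  have hb := (body_values ⟨hKc, hKv, hKn⟩).2.2
  obtain ⟨m, hmd⟩ : ∃ m, m = av (supp K) := ⟨_, rfl⟩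
  rw [← hmd] at h1 hm hb
  have hpi := Real.pi_pos
  have hd : HasDerivWithinAt (fun t => vol (cthickening t K)) (4 * Real.pi * x) (Ici 0) 0 := by
    have h3 : HasDerivAt (fun t : ℝ => 4 * Real.pi / 3 *
        (y + 3 * t * x + 3 * t ^ 2 * m + t ^ 3)) (4 * Real.pi * x) 0 := by
      have e1 : HasDerivAt (fun t : ℝ => 3 * t * x) (3 * 1 * x) 0 :=
        ((hasDerivAt_id (0 : ℝ)).const_mul 3).mul_const x
      have e2 := ((hasDerivAt_pow 2 (0 : ℝ)).const_mul 3).mul_const m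
      have e3 := hasDerivAt_pow 3 (0 : ℝ)
      have e4 := (((e1.const_add y).add e2).add e3).const_mul (4 * Real.pi / 3)
      refine e4.congr_deriv ?_
      norm_num
      ring
    exact h3.hasDerivWithinAt.congr (fun t ht => h1 t ht) (h1 0 le_rfl)
  have hsurf : surf K = 4 * Real.pi * x := hd.derivWithin (uniqueDiffWithinAt_Ici 0)
  have hvol : vol K = 4 * Real.pi / 3 * y := by
    have h3 := h1 0 le_rfl
    rw [cthickening_zero, hKc.isClosed.closure_eq] at h3
    rw [h3]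
    ring
  have hmN : mN K = m := hmd.symm
  have hsN : sN K = x := by
    unfold sN
    rw [hsurf]
    field_simp
  have hvN : vN K = y := by
    unfold vN
    rw [hvol]
    field_simp
  have f0 : FT 0 K = 4 * Real.pi / 3 * (y + 3 * 0 * x + 3 * 0 ^ 2 * m + 0 ^ 3) := h1 0 le_rfl
  have f1 : FT 1 K = 4 * Real.pi / 3 * (y + 3 * 1 * x + 3 * 1 ^ 2 * m + 1 ^ 3) := h1 1 zero_le_one
  have f2 : FT 2 K = 4 * Real.pi / 3 * (y + 3 * 2 * x + 3 * 2 ^ 2 * m + 2 ^ 3) := h1 2 zero_le_two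
  rw [hvN, hmN, hsN, f0, f1, f2]
  refine ⟨?_, ?_, ?_, hm, ?_, ?_⟩
  · field_simp
    ring
  · field_simp
    ring
  · field_simp
    ring
  · rw [hb.1, hsurf]
    field_simp
  · rw [hb.2, hvol]
    field_simp

/-- The unit ball has normalised values `1, 1, 1` (`vol_unit_ball`, `supp = 1` on the unit sphere, `FT t = 4π/3 (1+t)³`;
`cthickening t (closedBall 0 1) = closedBall 0 (1 + t)`: `cthickening_closedBall`). -/
theorem ball_vals : IsBody (closedBall (0 : E3) 1) ∧ vN (closedBall (0 : E3) 1) = 1 ∧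
    sN (closedBall (0 : E3) 1) = 1 ∧ mN (closedBall (0 : E3) 1) = 1 ∧
    ∀ t : ℝ, 0 ≤ t → FT t (closedBall (0 : E3) 1) = 4 * Real.pi / 3 * (1 + t) ^ 3 := by
  have hpi := Real.pi_pos
  have hFT : ∀ t : ℝ, 0 ≤ t → FT t (closedBall (0 : E3) 1) = 4 * Real.pi / 3 * (1 + t) ^ 3 := by
    intro t ht
    unfold FT vol
    rw [cthickening_closedBall ht zero_le_one, EuclideanSpace.volume_closedBall_fin_three,
      ENNReal.toReal_mul, ENNReal.toReal_pow, ENNReal.toReal_ofReal (by linarith),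
      ENNReal.toReal_ofReal (by positivity)]
    ring
  have hbody : IsBody (closedBall (0 : E3) 1) := by
    refine ⟨isCompact_closedBall _ _, convex_closedBall _ _, ?_⟩
    refine ⟨0, mem_closedBall_self zero_le_one, EuclideanSpace.single 0 1, ?_, ?_⟩
    · rw [mem_closedBall_zero_iff]
      simp
    · intro h
      have h1 := congrArg (fun x : E3 => x 0) h
      simp at h1
  obtain ⟨h1, h2, h3, -⟩ := lin_rel hbody
  rw [hFT 0 le_rfl] at h1 h2 h3
  rw [hFT 1 zero_le_one] at h2 h3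
  rw [hFT 2 zero_le_two] at h2
  have h4 : mN (closedBall (0 : E3) 1) = 1 := by
    rw [h2]
    field_simp
    ring
  have h5 : vN (closedBall (0 : E3) 1) = 1 := by
    rw [h1]
    field_simp
    ring
  have h6 : sN (closedBall (0 : E3) 1) = 1 := by
    rw [h3, h4]
    field_simp
    ring
  exact ⟨hbody, h5, h6, h4, hFT⟩

end Pool.Agent.Lib.MP_dabcc9_gtW
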