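import Pool.Agent.Lib.MP_dabcc9_gtW.WDefs

/-!
LEAF WB (valuation property; nearly Mathlib only).
`thick_inter`: `⊆` by monotonicity. `⊇`: `x` in both thickenings: `a ∈ A`, `b ∈ P` with `dist x a ≤ t`, `dist x b ≤ t`
(`IsCompact.cthickening_eq_biUnion_closedBall`). The segment `[a, b]` is contained in `A ∪ P` (convex), it is connected and covered by the
closed sets `A` and `P`, both of which meet it, so it contains a point `z` of `A ∩ P`
(`isPreconnected_closed_iff` for `(convex_segment a b).isPreconnected`); `dist x z ≤ max (dist x a) (dist x b) ≤ t` as the ball around `x` is convex.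
`valuation`: `cthickening t (A ∪ P) = cthickening t A ∪ cthickening t P` (`cthickening_union`), `measureReal_union_add_inter` or
`measure_union_add_inter`, finite measures (bounded sets).
-/

open MeasureTheory Metric Set Pool.Agent.Lib.MP_dabcc9_gt

namespace Pool.Agent.Lib.MP_dabcc9_gtW

theorem thick_inter {A P : Set E3} (hA : IsCompact A) (hP : IsCompact P) (hc : Convex ℝ (A ∪ P))
    {t : ℝ} (ht : 0 ≤ t) : cthickening t (A ∩ P) = cthickening t A ∩ cthickening t P := by
  refine Subset.antisymm (subset_inter (cthickening_subset_of_subset t inter_subset_left)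
    (cthickening_subset_of_subset t inter_subset_right)) ?_
  rintro x ⟨hxA, hxP⟩
  rw [hA.cthickening_eq_biUnion_closedBall ht] at hxA
  rw [hP.cthickening_eq_biUnion_closedBall ht] at hxP
  obtain ⟨a, ha, hxa⟩ := mem_iUnion₂.1 hxA
  obtain ⟨b, hb, hxb⟩ := mem_iUnion₂.1 hxP
  have hseg : segment ℝ a b ⊆ A ∪ P := hc.segment_subset (Or.inl ha) (Or.inr hb)
  have hconn := (convex_segment (𝕜 := ℝ) a b).isPreconnected
  obtain ⟨z, hz1, hz2⟩ := isPreconnected_closed_iff.1 hconn A P hA.isClosed hP.isClosed hseg
    ⟨a, left_mem_segment ℝ a b, ha⟩ ⟨b, right_mem_segment ℝ a b, hb⟩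
  have h1 : z ∈ closedBall x t :=
    (convex_closedBall x t).segment_subset (mem_closedBall_comm.1 hxa) (mem_closedBall_comm.1 hxb) hz1
  exact mem_cthickening_of_dist_le x z t _ hz2 (mem_closedBall.1 (mem_closedBall_comm.1 h1))

theorem valuation {A P : Set E3} (hA : IsCompact A) (hP : IsCompact P) (hc : Convex ℝ (A ∪ P))
    {t : ℝ} (ht : 0 ≤ t) : FT t (A ∪ P) + FT t (A ∩ P) = FT t A + FT t P := by
  have h1 : (volume (cthickening t A)) ≠ ⊤ := hA.isBounded.cthickening.measure_lt_top.ne
  have h2 : (volume (cthickening t P)) ≠ ⊤ := hP.isBounded.cthickening.measure_lt_top.ne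
  have h3 := measureReal_union_add_inter (μ := volume) (s := cthickening t A) (t := cthickening t P)
    isClosed_cthickening.measurableSet h1 h2
  rw [← thick_inter hA hP hc ht, ← cthickening_union] at h3
  exact h3

end Pool.Agent.Lib.MP_dabcc9_gtW
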