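import Pool.Agent.Lib.MP_dabcc9_gtW.WB

/-!
LEAF WC (replacing a piece). `A = K ∩ hm`, `P = B ∩ hp = K ∩ hp`, `P' = B' ∩ hp`, `Q = B ∩ hm = B' ∩ hm`. The four sets `A ∩ P`, `A ∩ P'`,
`Q ∩ P`, `Q ∩ P'` are all equal to `D = B ∩ {<x, v> = c}` (`h1`, `h2` at points with `<x, v> = c`).
Convexity of `K' = A ∪ P'`: for `x ∈ A`, `y ∈ P'`: on the segment there is a point `z` with `<z, v> = c` (`<x,v> ≤ c ≤ <y,v>`). If `x ∈ B`... in general
`z` need not be in `K` for arbitrary `K`: use `hKB : K ⊆ B'`: then `x, y ∈ B'`, `z ∈ B'`, `<z, v> = c`, so `z ∈ D ⊆ K`; the part `[x, z]` is in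
`K ∩ hm = A`, the part `[z, y]` is in `B' ∩ hp = P'`.
The formula: `valuation` for `K = A ∪ P`, `K' = A ∪ P'`, `B = Q ∪ P`, `B' = Q ∪ P'`.
-/

open MeasureTheory Metric Set Pool.Agent.Lib.MP_dabcc9_gt

namespace Pool.Agent.Lib.MP_dabcc9_gtW

private theorem WC_closed_hm (v : E3) (c : ℝ) : IsClosed (hm v c) :=
  isClosed_le (continuous_id.inner continuous_const) continuous_const

private theorem WC_closed_hp (v : E3) (c : ℝ) : IsClosed (hp v c) :=
  isClosed_le continuous_const (continuous_id.inner continuous_const)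

private theorem WC_inner (x y v : E3) (a b : ℝ) :
    inner ℝ (a • x + b • y) v = a * inner ℝ x v + b * inner ℝ y v := by
  rw [inner_add_left, real_inner_smul_left, real_inner_smul_left]

private theorem WC_convex_hm (v : E3) (c : ℝ) : Convex ℝ (hm v c) := by
  intro x hx y hy a b ha hb hab
  have h1 : inner ℝ x v ≤ c := hx
  have h2 : inner ℝ y v ≤ c := hy
  show inner ℝ (a • x + b • y) v ≤ c
  rw [WC_inner]
  calc a * inner ℝ x v + b * inner ℝ y v ≤ a * c + b * c :=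
        add_le_add (mul_le_mul_of_nonneg_left h1 ha) (mul_le_mul_of_nonneg_left h2 hb)
    _ = c := by rw [← add_mul, hab, one_mul]

private theorem WC_convex_hp (v : E3) (c : ℝ) : Convex ℝ (hp v c) := by
  intro x hx y hy a b ha hb hab
  have h1 : c ≤ inner ℝ x v := hx
  have h2 : c ≤ inner ℝ y v := hy
  show c ≤ inner ℝ (a • x + b • y) v
  rw [WC_inner]
  calc c = a * c + b * c := by rw [← add_mul, hab, one_mul]
    _ ≤ a * inner ℝ x v + b * inner ℝ y v :=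
        add_le_add (mul_le_mul_of_nonneg_left h1 ha) (mul_le_mul_of_nonneg_left h2 hb)

private theorem WC_cross {K B B' : Set E3} (hKc : Convex ℝ K) (hBc' : Convex ℝ B') (v : E3) (c : ℝ)
    (h1 : K ∩ hp v c = B ∩ hp v c) (h2 : B' ∩ hm v c = B ∩ hm v c) (h3 : K ∩ hm v c ⊆ B')
    {x y : E3} (hx : x ∈ K ∩ hm v c) (hy : y ∈ B' ∩ hp v c) {a b : ℝ} (ha : 0 ≤ a) (hb : 0 ≤ b)
    (hab : a + b = 1) : a • x + b • y ∈ (K ∩ hm v c) ∪ (B' ∩ hp v c) := by
  have hxB : x ∈ B' := h3 hx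
  have hp1 : inner ℝ x v ≤ c := hx.2
  have hq1 : c ≤ inner ℝ y v := hy.2
  obtain ⟨p, hpx⟩ : ∃ p : ℝ, p = inner ℝ x v := ⟨_, rfl⟩
  obtain ⟨q, hqy⟩ : ∃ q : ℝ, q = inner ℝ y v := ⟨_, rfl⟩
  rw [← hpx] at hp1
  rw [← hqy] at hq1
  by_cases hc : c ≤ inner ℝ (a • x + b • y) v
  · exact Or.inr ⟨hBc' hxB hy.1 ha hb hab, hc⟩
  · refine Or.inl ⟨?_, (not_le.1 hc).le⟩
    have hc' := not_le.1 hc
    rw [WC_inner, ← hpx, ← hqy] at hc'
    have ha1 : a = 1 - b := by linarith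
    subst ha1
    have hpq : p < q := by
      by_contra hcon
      have h5 : q ≤ p := not_lt.1 hcon
      have h6 : p = c := le_antisymm hp1 (hq1.trans h5)
      have h7 : q = c := le_antisymm (h5.trans hp1) hq1
      rw [h6, h7] at hc'
      linarith
    have hd : 0 < q - p := sub_pos.2 hpq
    obtain ⟨r, hr⟩ : ∃ r : ℝ, r = (c - p) / (q - p) := ⟨_, rfl⟩
    have hrd : r * (q - p) = c - p := by
      rw [hr]
      exact div_mul_cancel₀ _ hd.ne'
    have hbr : b < r := by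
      rw [hr, lt_div_iff₀ hd]
      linarith
    have hr0 : 0 < r := lt_of_le_of_lt hb hbr
    have hr1 : r ≤ 1 := by
      rw [hr, div_le_one hd]
      linarith
    have hzB : (1 - r) • x + r • y ∈ B' := hBc' hxB hy.1 (by linarith) hr0.le (by ring)
    have hzv : inner ℝ ((1 - r) • x + r • y) v = c := by
      rw [WC_inner, ← hpx, ← hqy]
      linarith
    have hzB2 : (1 - r) • x + r • y ∈ B ∩ hm v c := by
      rw [← h2]
      exact ⟨hzB, hzv.le⟩
    have hzK : (1 - r) • x + r • y ∈ K ∩ hp v c := by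
      rw [h1]
      exact ⟨hzB2.1, hzv.ge⟩
    have hbr1 : b / r ≤ 1 := by
      rw [div_le_one hr0]
      exact hbr.le
    have hw := hKc hx.1 hzK.1 (a := 1 - b / r) (b := b / r) (by linarith) (div_nonneg hb hr0.le) (by ring)
    have he : (1 - b / r) • x + (b / r) • ((1 - r) • x + r • y) = (1 - b) • x + b • y := by
      rw [smul_add, smul_smul, smul_smul, ← add_assoc, ← add_smul]
      congr 2
      · field_simp
        ring
      · field_simp
    rw [he] at hw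
    exact hw

theorem replace {K B B' : Set E3} (hK : IsCompact K) (hKc : Convex ℝ K) (hB : IsCompact B) (hBc : Convex ℝ B)
    (hB' : IsCompact B') (hBc' : Convex ℝ B') (v : E3) (c : ℝ)
    (h1 : K ∩ hp v c = B ∩ hp v c) (h2 : B' ∩ hm v c = B ∩ hm v c) (h3 : K ∩ hm v c ⊆ B') :
    IsCompact ((K ∩ hm v c) ∪ (B' ∩ hp v c)) ∧ Convex ℝ ((K ∩ hm v c) ∪ (B' ∩ hp v c)) ∧
      ∀ t : ℝ, 0 ≤ t → FT t ((K ∩ hm v c) ∪ (B' ∩ hp v c)) = FT t K + FT t B' - FT t B := by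
  have hcov : ∀ x : E3, x ∈ hm v c ∨ x ∈ hp v c := fun x => le_total (inner ℝ x v) c
  have hA : IsCompact (K ∩ hm v c) := hK.inter_right (WC_closed_hm v c)
  have hP : IsCompact (B ∩ hp v c) := hB.inter_right (WC_closed_hp v c)
  have hP' : IsCompact (B' ∩ hp v c) := hB'.inter_right (WC_closed_hp v c)
  have hQ : IsCompact (B ∩ hm v c) := hB.inter_right (WC_closed_hm v c)
  have hconv : Convex ℝ ((K ∩ hm v c) ∪ (B' ∩ hp v c)) := by
    intro x hx y hy a b ha hb hab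
    rcases hx with hx | hx
    · rcases hy with hy | hy
      · exact Or.inl ((hKc.inter (WC_convex_hm v c)) hx hy ha hb hab)
      · exact WC_cross hKc hBc' v c h1 h2 h3 hx hy ha hb hab
    · rcases hy with hy | hy
      · have h5 := WC_cross hKc hBc' v c h1 h2 h3 hy hx hb ha (by rw [add_comm]; exact hab)
        rw [add_comm] at h5
        exact h5
      · exact Or.inr ((hBc'.inter (WC_convex_hp v c)) hx hy ha hb hab)
  refine ⟨hA.union hP', hconv, fun t ht => ?_⟩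
  have eK : (K ∩ hm v c) ∪ (B ∩ hp v c) = K := by
    rw [← h1, ← inter_union_distrib_left, inter_eq_left]
    exact fun x _ => hcov x
  have eB : (B ∩ hm v c) ∪ (B ∩ hp v c) = B := by
    rw [← inter_union_distrib_left, inter_eq_left]
    exact fun x _ => hcov x
  have eB' : (B ∩ hm v c) ∪ (B' ∩ hp v c) = B' := by
    rw [← h2, ← inter_union_distrib_left, inter_eq_left]
    exact fun x _ => hcov x
  have kB : ∀ x, x ∈ hp v c → (x ∈ K ↔ x ∈ B) := fun x hx =>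
    ⟨fun h => (h1 ▸ (⟨h, hx⟩ : x ∈ K ∩ hp v c) : x ∈ B ∩ hp v c).1,
      fun h => (h1.symm ▸ (⟨h, hx⟩ : x ∈ B ∩ hp v c) : x ∈ K ∩ hp v c).1⟩
  have kB' : ∀ x, x ∈ hm v c → (x ∈ B' ↔ x ∈ B) := fun x hx =>
    ⟨fun h => (h2 ▸ (⟨h, hx⟩ : x ∈ B' ∩ hm v c) : x ∈ B ∩ hm v c).1,
      fun h => (h2.symm ▸ (⟨h, hx⟩ : x ∈ B ∩ hm v c) : x ∈ B' ∩ hm v c).1⟩
  have i1 : (K ∩ hm v c) ∩ (B ∩ hp v c) = (B ∩ hm v c) ∩ (B ∩ hp v c) := by
    ext x
    constructor
    · rintro ⟨⟨h5, h6⟩, h7, h8⟩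
      exact ⟨⟨h7, h6⟩, h7, h8⟩
    · rintro ⟨⟨h5, h6⟩, h7, h8⟩
      exact ⟨⟨(kB x h8).2 h7, h6⟩, h7, h8⟩
  have i2 : (K ∩ hm v c) ∩ (B' ∩ hp v c) = (B ∩ hm v c) ∩ (B ∩ hp v c) := by
    ext x
    constructor
    · rintro ⟨⟨h5, h6⟩, h7, h8⟩
      exact ⟨⟨(kB x h8).1 h5, h6⟩, (kB x h8).1 h5, h8⟩
    · rintro ⟨⟨h5, h6⟩, h7, h8⟩
      exact ⟨⟨(kB x h8).2 h7, h6⟩, (kB' x h6).2 h7, h8⟩
  have i3 : (B ∩ hm v c) ∩ (B' ∩ hp v c) = (B ∩ hm v c) ∩ (B ∩ hp v c) := by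
    ext x
    constructor
    · rintro ⟨⟨h5, h6⟩, h7, h8⟩
      exact ⟨⟨h5, h6⟩, h5, h8⟩
    · rintro ⟨⟨h5, h6⟩, h7, h8⟩
      exact ⟨⟨h5, h6⟩, (kB' x h6).2 h5, h8⟩
  have v1 := valuation hA hP (by rw [eK]; exact hKc) ht
  have v2 := valuation hA hP' hconv ht
  have v3 := valuation hQ hP (by rw [eB]; exact hBc) ht
  have v4 := valuation hQ hP' (by rw [eB']; exact hBc') ht
  rw [eK, i1] at v1
  rw [i2] at v2
  rw [eB] at v3
  rw [eB', i3] at v4
  linarith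

end Pool.Agent.Lib.MP_dabcc9_gtW
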