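import Pool.Agent.Lib.MP_dabcc9_gt.Ibp
import Pool.Agent.Lib.MP_dabcc9_gt.AlgB

/-!
The identity behind the inequality `V + 3 R² M ≥ 4 R S` (algebra of polynomials on the sphere), and its second form.
-/

open MvPolynomial Pool.Agent.Lib.MP_dabcc9_gt

namespace Pool.Agent.Lib.MP_dabcc9_gtW

private theorem WD1_sq (p : P) (R : ℝ) : EE ((C R - p) * (C R - p) * (Lap p + 2 * p)) =
    2 * R ^ 2 * EE p + 2 * R * EE (Gam p p) - 4 * R * EE (p * p) - 2 * EE (p * Gam p p) + 2 * EE (p * p * p) := by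
  have h1 : (C R - p) * (C R - p) * (Lap p + 2 * p) = C (R ^ 2) * Lap p + C (R ^ 2) * (2 * p) - C R * (2 * (p * Lap p)) -
      C R * (2 * (2 * (p * p))) + p * p * Lap p + 2 * (p * p * p) := by
    rw [C_pow]
    ring
  rw [h1]
  simp only [EE_add, EE_sub, EE_C_mul, EE_two_mul]
  rw [EE_Lap, EE_ibp, EE_ibp3]
  ring

private theorem WD1_HQ (p : P) : EE (HQ p p) = - (1 / 2 * EE (Lap p * Gam p p)) := by
  have h1 : EE (Gam p p * Lap p) = - EE (Gam p (Gam p p)) := by rw [EE_ibp, Gam_comm (Gam p p) p]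
  have h2 : Gam p p * Lap p = Lap p * Gam p p := mul_comm _ _
  rw [h2] at h1
  rw [HQ_eq, EE_sub, EE_C_mul, h1]
  ring

theorem ident (p : P) (R : ℝ) :
    EE (p * detA p) + 3 * R ^ 2 * EE p - 4 * R * EE (detA p) =
      EE (((C R - p) * (C R - p) + C (1 / 2) * (C (R ^ 2) - p * p - Gam p p)) * (Lap p + 2 * p)
        + C (1 / 2) * (HQ p p + p * Gam p p)) := by
  have h1 : ((C R - p) * (C R - p) + C (1 / 2) * (C (R ^ 2) - p * p - Gam p p)) * (Lap p + 2 * p)
        + C (1 / 2) * (HQ p p + p * Gam p p) = (C R - p) * (C R - p) * (Lap p + 2 * p) +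
      C (1 / 2) * (C (R ^ 2) * Lap p + C (R ^ 2) * (2 * p) - p * p * Lap p - 2 * (p * p * p) - Lap p * Gam p p -
        2 * (p * Gam p p) + HQ p p + p * Gam p p) := by
    ring
  rw [h1, EE_add, WD1_sq, EE_C_mul]
  simp only [EE_add, EE_sub, EE_C_mul, EE_two_mul]
  rw [EE_Lap, EE_ibp3, WD1_HQ, EE_p_detA, EE_detA]
  ring

theorem ident2 (p : P) (R : ℝ) :
    EE ((C R - p) * (C R - p) * (Lap p + 2 * p)) =
      EE (2 * ((C R - p) * Gam p p)) + 2 * EE ((C R - p) * (C R - p) * p) := by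
  have h1 : (C R - p) * Gam p p = C R * Gam p p - p * Gam p p := by ring
  have h2 : (C R - p) * (C R - p) * p = C (R ^ 2) * p - C R * (2 * (p * p)) + p * p * p := by
    rw [C_pow]
    ring
  rw [WD1_sq, h1, h2]
  simp only [EE_add, EE_sub, EE_C_mul, EE_two_mul]
  ring

end Pool.Agent.Lib.MP_dabcc9_gtW
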