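import Pool.Agent.Lib.MP_dabcc9_gtW.WD1
import Pool.Agent.Lib.MP_dabcc9_gt.LocB
import Pool.Agent.Lib.MP_dabcc9_gt.GeoB

/-!
LEAF WD2. `trace_nonneg`: `ConvS p` (file Defs) for two orthonormal vectors `w₁, w₂` orthogonal to `x` (`exists_w`, `cr x w`) and
`∑ i, w i w j ...` over the orthonormal basis `x, w₁, w₂` gives `Lap p + 2 p ≥ 0` (`∑ i, ev (L i (L i p)) x` is the trace; in the direction `x`:
`∑ i, ∑ j, x i x j ev (L i (L j p)) x = 0` because `∑ j X j L j a = 0` (`sum_X_L`)... Or simpler: `ev_detA_frame`, `Aw` (file GeoD) or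
`sup`-type lemmas may contain it; the trace of the symmetrised matrix in the frame is `Aw w₁ w₁ + Aw w₂ w₂`.)
`hess_nonneg`: `ConvS p` with `w i = ev (L i p) x` (orthogonal to `x` by `sum_X_L`; `ev (HQ p p) x = ∑ i, ∑ j, w i w j ev (L i (L j p)) x`,
`ev (Gam p p) x = ‖w‖²`); compare `A_nonneg` in file PtB: exactly this.
`grad_le`: `‖Gp p x‖² = (ev p x)² + ev (Gam p p) x` (file GeoA: `Gp p x = ev p x • x + cr (Lv p x) x`, orthogonal), `Gp_mem_body`, and a point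
`y` of `body p` has `‖y‖ ≤ R` if `ev p ≤ R` on the sphere (`y = 0` or take the unit vector `y/‖y‖`; `R ≥ 0` then).
-/

open MvPolynomial Pool.Agent.Lib.MP_dabcc9_gt

namespace Pool.Agent.Lib.MP_dabcc9_gtW

private theorem WD2_orth (z : P) (x : E3) :
    x 0 * ev (L 0 z) x + x 1 * ev (L 1 z) x + x 2 * ev (L 2 z) x = 0 := by
  have h := congrArg (fun p => ev p x) (sum_X_L z)
  simp only [Fin.sum_univ_three, ev_add, ev_mul, ev_X, ev_zero] at h
  exact h

private theorem WD2_cr0 (a b : E3) : cr a b 0 = a 1 * b 2 - a 2 * b 1 := by simp [cr]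
private theorem WD2_cr1 (a b : E3) : cr a b 1 = a 2 * b 0 - a 0 * b 2 := by simp [cr]
private theorem WD2_cr2 (a b : E3) : cr a b 2 = a 0 * b 1 - a 1 * b 0 := by simp [cr]
private theorem WD2_Lv0 (p : P) (x : E3) : Lv p x 0 = ev (L 0 p) x := by simp [Lv]
private theorem WD2_Lv1 (p : P) (x : E3) : Lv p x 1 = ev (L 1 p) x := by simp [Lv]
private theorem WD2_Lv2 (p : P) (x : E3) : Lv p x 2 = ev (L 2 p) x := by simp [Lv]

private theorem WD2_ev_Gam (z : P) (x : E3) :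
    ev (Gam z z) x = ev (L 0 z) x ^ 2 + ev (L 1 z) x ^ 2 + ev (L 2 z) x ^ 2 := by
  unfold Gam
  simp only [Fin.sum_univ_three, ev_add, ev_mul]
  ring

private theorem WD2_unit {x : E3} (hx : ‖x‖ = 1) : x 0 ^ 2 + x 1 ^ 2 + x 2 ^ 2 = 1 := by
  rw [← norm_sq_eq3, hx, one_pow]

private theorem WD2_norm_Gp (p : P) (x : E3) (hx : ‖x‖ = 1) :
    ‖Gp p x‖ ^ 2 = ev p x ^ 2 + ev (Gam p p) x := by
  have hu := WD2_unit hx
  have ho := WD2_orth p x
  have e : ∀ i, Gp p x i = ev p x * x i + cr (Lv p x) x i := by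
    intro i
    simp [Gp]
  rw [norm_sq_eq3, e, e, e, WD2_cr0, WD2_cr1, WD2_cr2, WD2_Lv0, WD2_Lv1, WD2_Lv2, WD2_ev_Gam]
  generalize ev (L 0 p) x = g0 at ho ⊢
  generalize ev (L 1 p) x = g1 at ho ⊢
  generalize ev (L 2 p) x = g2 at ho ⊢
  generalize ev p x = q
  linear_combination (q ^ 2 + g0 ^ 2 + g1 ^ 2 + g2 ^ 2) * hu - (x 0 * g0 + x 1 * g1 + x 2 * g2) * ho

theorem trace_nonneg {p : P} (hp : ConvS p) (x : E3) (hx : ‖x‖ = 1) : 0 ≤ ev (Lap p + 2 * p) x := by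
  have hu := WD2_unit hx
  have hw : ∀ k : Fin 3, ∀ i, (EuclideanSpace.single k (1 : ℝ) - x k • x : E3) i =
      (if i = k then 1 else 0) - x k * x i := by
    intro k i
    simp
  have hk : ∀ k : Fin 3, 0 ≤ (∑ i, ∑ j, ((if i = k then 1 else 0) - x k * x i) *
      ((if j = k then 1 else 0) - x k * x j) * ev (L i (L j p)) x) +
      ev p x * (((if (0 : Fin 3) = k then 1 else 0) - x k * x 0) ^ 2 +
        ((if (1 : Fin 3) = k then 1 else 0) - x k * x 1) ^ 2 +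
        ((if (2 : Fin 3) = k then 1 else 0) - x k * x 2) ^ 2) := by
    intro k
    have h := hp x hx (EuclideanSpace.single k (1 : ℝ) - x k • x) (by
      rw [inner_eq3, hw, hw, hw]
      fin_cases k
      · simp
        linear_combination (-x 0) * hu
      · simp
        linear_combination (-x 1) * hu
      · simp
        linear_combination (-x 2) * hu)
    rw [norm_sq_eq3] at h
    simp only [hw] at h
    exact h
  have o0 := WD2_orth (L 0 p) x
  have o1 := WD2_orth (L 1 p) x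
  have o2 := WD2_orth (L 2 p) x
  have h0 := hk 0
  have h1 := hk 1
  have h2 := hk 2
  have h2' : ev (2 : P) x = 2 := ev_ofNat 2 x
  unfold Lap
  simp only [Fin.sum_univ_three, ev_add, ev_mul, h2'] at h0 h1 h2 ⊢
  simp at h0 h1 h2
  generalize ev (L 0 (L 0 p)) x = m00 at *
  generalize ev (L 0 (L 1 p)) x = m01 at *
  generalize ev (L 0 (L 2 p)) x = m02 at *
  generalize ev (L 1 (L 0 p)) x = m10 at *
  generalize ev (L 1 (L 1 p)) x = m11 at *
  generalize ev (L 1 (L 2 p)) x = m12 at *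
  generalize ev (L 2 (L 0 p)) x = m20 at *
  generalize ev (L 2 (L 1 p)) x = m21 at *
  generalize ev (L 2 (L 2 p)) x = m22 at *
  generalize ev p x = q at *
  linear_combination h0 + h1 + h2 - (2 - (x 0 ^ 2 + x 1 ^ 2 + x 2 ^ 2)) * (x 0 * o0 + x 1 * o1 + x 2 * o2) +
    q * (x 0 ^ 2 + x 1 ^ 2 + x 2 ^ 2 - 1) * hu

theorem hess_nonneg {p : P} (hp : ConvS p) (x : E3) (hx : ‖x‖ = 1) :
    0 ≤ ev (HQ p p + p * Gam p p) x :=
  A_nonneg hp p x hx

theorem grad_le {p : P} (hp : ConvSS p) {R : ℝ} (hR : ∀ x : E3, ‖x‖ = 1 → ev p x ≤ R) (x : E3)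
    (hx : ‖x‖ = 1) : ev p x ^ 2 + ev (Gam p p) x ≤ R ^ 2 := by
  rw [← WD2_norm_Gp p x hx]
  by_cases h0 : Gp p x = 0
  · rw [h0, norm_zero, zero_pow two_ne_zero]
    exact sq_nonneg R
  · have hn : ‖Gp p x‖ ≠ 0 := norm_ne_zero_iff.2 h0
    have hu : ‖(‖Gp p x‖⁻¹ • Gp p x : E3)‖ = 1 := by
      rw [norm_smul, norm_inv, norm_norm, inv_mul_cancel₀ hn]
    have h1 := Gp_mem_body hp x hx _ hu
    rw [real_inner_smul_right, real_inner_self_eq_norm_sq, sq, ← mul_assoc, inv_mul_cancel₀ hn,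
      one_mul] at h1
    exact pow_le_pow_left₀ (norm_nonneg _) (h1.trans (hR _ hu)) 2

end Pool.Agent.Lib.MP_dabcc9_gtW
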