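import Pool.Agent.Lib.MP_dabcc9_gtW.WD2

/-!
LEAF WD3 (assembly: the inequality for polynomial support functions).
`ident` and `EE_nonneg`-type monotonicity (`EE_mono`): pointwise on the sphere the integrand of `ident` is at least
`(R - p)² (Lap p + 2 p)` by `grad_le`, `trace_nonneg`, `hess_nonneg`; this is `≥ 0`, and by `ident2` its average is
`EE (2 (R-p) Gam p p) + 2 EE ((R-p)² p) ≥ 2 EE ((R-p)² p)` (`p ≤ R`, `Gam_nonneg`). Third: `(R - p) detA p ≥ 0` (`detA_nonneg`, file LocB).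
-/

open MvPolynomial Pool.Agent.Lib.MP_dabcc9_gt

namespace Pool.Agent.Lib.MP_dabcc9_gtW

theorem poly_ineq {p : P} (hp : ConvSS p) {R : ℝ} (hR : ∀ x : E3, ‖x‖ = 1 → ev p x ≤ R) :
    0 ≤ EE (p * detA p) + 3 * R ^ 2 * EE p - 4 * R * EE (detA p) ∧
    2 * EE ((C R - p) * (C R - p) * p) ≤
      EE (p * detA p) + 3 * R ^ 2 * EE p - 4 * R * EE (detA p) ∧
    EE (p * detA p) ≤ R * EE (detA p) := by
  have hpt : ∀ x : E3, ‖x‖ = 1 → ev ((C R - p) * (C R - p) * (Lap p + 2 * p)) x ≤
      ev (((C R - p) * (C R - p) + C (1 / 2) * (C (R ^ 2) - p * p - Gam p p)) * (Lap p + 2 * p)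
        + C (1 / 2) * (HQ p p + p * Gam p p)) x := by
    intro x hx
    have h1 := trace_nonneg hp.convS x hx
    have h2 := hess_nonneg hp.convS x hx
    have h3 := grad_le hp hR x hx
    revert h1 h2 h3
    generalize HQ p p + p * Gam p p = H
    generalize Lap p + 2 * p = T
    generalize Gam p p = g
    intro h1 h2 h3
    simp only [ev_add, ev_mul, ev_sub, ev_C]
    nlinarith [mul_nonneg (sub_nonneg.2 h3) h1]
  have hpt0 : ∀ x : E3, ‖x‖ = 1 → 0 ≤ ev ((C R - p) * (C R - p) * (Lap p + 2 * p)) x := by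
    intro x hx
    have h1 := trace_nonneg hp.convS x hx
    rw [ev_mul, ev_mul]
    exact mul_nonneg (mul_self_nonneg _) h1
  have hid := ident p R
  have hid2 := ident2 p R
  refine ⟨?_, ?_, ?_⟩
  · rw [hid]
    exact EE_nonneg fun x hx => (hpt0 x hx).trans (hpt x hx)
  · rw [hid]
    refine le_trans ?_ (EE_mono hpt)
    rw [hid2]
    have h4 : 0 ≤ EE (2 * ((C R - p) * Gam p p)) := by
      refine EE_nonneg fun x hx => ?_
      have h5 : 0 ≤ ev (Gam p p) x := by
        unfold Gam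
        rw [ev_sum]
        exact Finset.sum_nonneg fun i _ => by
          rw [ev_mul]
          exact mul_self_nonneg _
      have h6 := hR x hx
      have h7 : ev (2 : P) x = 2 := by simp [ev]
      rw [ev_mul, ev_mul, ev_sub, ev_C, h7]
      exact mul_nonneg zero_le_two (mul_nonneg (sub_nonneg.2 h6) h5)
    linarith
  · rw [← EE_C_mul]
    refine EE_mono fun x hx => ?_
    rw [ev_mul, ev_mul, ev_C]
    exact mul_le_mul_of_nonneg_right (hR x hx) (detA_nonneg hp.convS x hx)

end Pool.Agent.Lib.MP_dabcc9_gtW
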