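import Pool.Agent.Lib.MP_dabcc9_gt.LimB

/-! No extremal body has a spherical part: definitions. Normalised volume, surface area, mean width (unit ball = 1, 1, 1). -/

open MeasureTheory Metric Set Pool.Agent.Lib.MP_dabcc9_gt

namespace Pool.Agent.Lib.MP_dabcc9_gtW

noncomputable section

/-- Normalised volume. -/
def vN (K : Set E3) : ℝ := 3 * vol K / (4 * Real.pi)

/-- Normalised surface area. -/
def sN (K : Set E3) : ℝ := surf K / (4 * Real.pi)

/-- Normalised mean width. -/
def mN (K : Set E3) : ℝ := av (supp K)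

/-- Volume of the outer parallel body at distance `t`. -/
def FT (t : ℝ) (K : Set E3) : ℝ := vol (cthickening t K)

/-- The half spaces `{<x, v> ≤ c}` and `{<x, v> ≥ c}`. -/
def hm (v : E3) (c : ℝ) : Set E3 := {x | inner ℝ x v ≤ c}

@[inherit_doc hm]
def hp (v : E3) (c : ℝ) : Set E3 := {x | c ≤ inner ℝ x v}

/-- The points `x` with `<x, u> ≤ 1` for all unit vectors `u` outside of the cap with centre `v` and angular radius `θ`. -/
def Lset (v : E3) (θ : ℝ) : Set E3 :=
  {x | ∀ u : E3, ‖u‖ = 1 → inner ℝ u v ≤ Real.cos θ → inner ℝ x u ≤ 1}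

/-- The unit ball with the cap with centre `v` and angular radius `θ` pushed outwards by `ε`. -/
def bump (v : E3) (θ ε : ℝ) : Set E3 := closedBall 0 (1 + ε) ∩ Lset v θ

/-- `K` contains the points of the unit sphere at angle at most `τ` from `v`. -/
def SphCap (K : Set E3) (v : E3) (τ : ℝ) : Prop := ∀ y : E3, ‖y‖ = 1 → Real.cos τ ≤ inner ℝ y v → y ∈ K

end

end Pool.Agent.Lib.MP_dabcc9_gtW
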