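import Pool.Agent.Lib.MP_dabcc9_gtW.WDefs
import Pool.Agent.Lib.MP_dabcc9_gt.Ibp

/-!
LEAF WE1 (approximation by polynomial support functions, with closeness; copy of the proof of `steiner_limit` in file LimA, and of the
translation in LimB `steiner_limit'`). Take `b ∈ K`, `K₀ = K + {-b} ∋ 0`, `p n` from `approx` for `K₀` with `η = 1/(n+1)` (`ConvSS`, positive on the
sphere, between `supp K₀` and `supp K₀ + η`), `Y n`, `Xs n`, `M n` converge as in `steiner_limit`; put `q n = p n + ∑ i, C (b i) * X i`: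
`ev (q n) u = ev (p n) u + <b, u>`, `supp K = supp K₀ + <b, ·>`; `ConvSS (q n)`, `EE (q n) = EE (p n)`, `EE (detA (q n)) = EE (detA (p n))`,
`EE (q n detA (q n)) = EE (p n detA (p n))`: see `detA_add_lin` (AlgB) and `EE_X_detA` (Ibp), `ev (X i)` has average zero;
`Hess + id` of a linear function vanishes (`ConvSS` is unchanged: `L i (L j (X k))`, lemma `AlgB_LL`, or `EE`-free computation with `w ⊥ x`).
`surf K = 4π x`, `vol K = 4π/3 y` as in `body_values`.
-/

open MeasureTheory Metric Set MvPolynomial Filter Topology Pool.Agent.Lib.MP_dabcc9_gt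

namespace Pool.Agent.Lib.MP_dabcc9_gtW

private theorem WE1_00 : L 0 (X 0 : P) = 0 := L_X_self 0
private theorem WE1_11 : L 1 (X 1 : P) = 0 := L_X_self 1
private theorem WE1_22 : L 2 (X 2 : P) = 0 := L_X_self 2
private theorem WE1_01 : L 0 (X 1 : P) = - X 2 := L_X_one 0
private theorem WE1_12 : L 1 (X 2 : P) = - X 0 := L_X_one 1
private theorem WE1_20 : L 2 (X 0 : P) = - X 1 := L_X_one 2
private theorem WE1_02 : L 0 (X 2 : P) = X 1 := L_X_two 0
private theorem WE1_10 : L 1 (X 0 : P) = X 2 := L_X_two 1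
private theorem WE1_21 : L 2 (X 1 : P) = X 0 := L_X_two 2

/-- `L i L j x_k = δ_ik x_j - x_k δ_ij`. -/
private theorem WE1_LL (i j k : Fin 3) : L i (L j (X k : P)) =
    (if i = k then X j else 0) - (if i = j then X k else 0) := by
  have h : ∀ i j k : Fin 3, L i (L j (X k : P)) =
    (if i = k then X j else 0) - (if i = j then X k else 0) := by
    intro i j k
    fin_cases i <;> fin_cases j <;> fin_cases k <;>
      simp [WE1_00, WE1_11, WE1_22, WE1_01, WE1_12, WE1_20, WE1_02, WE1_10, WE1_21]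
  exact h i j k

private theorem WE1_lin (b : E3) (i j : Fin 3) (x : E3) :
    ev (L i (L j (∑ k, C (b k) * X k : P))) x = b i * x j - (if i = j then inner ℝ b x else 0) := by
  have h1 : L i (L j (∑ k, C (b k) * X k : P)) = ∑ k, C (b k) * L i (L j (X k : P)) := by
    rw [map_sum, map_sum]
    refine Finset.sum_congr rfl fun k _ => ?_
    rw [L_C_mul, L_C_mul]
  rw [h1, ev_sum, inner_eq3]
  simp only [WE1_LL, ev_mul, ev_C, ev_sub, Fin.sum_univ_three]
  fin_cases i <;> fin_cases j <;> simp [ev_X, ev_zero] <;> ring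

/-- Adding a linear function (translation). -/
theorem shift (p : P) (hp : ConvSS p) (b : E3) : ∃ q : P, ConvSS q ∧
    (∀ u : E3, ‖u‖ = 1 → ev q u = ev p u + inner ℝ b u) ∧
    EE q = EE p ∧ EE (detA q) = EE (detA p) ∧ EE (q * detA q) = EE (p * detA p) := by
  have hev : ∀ u : E3, ev (p + ∑ k, C (b k) * X k) u = ev p u + inner ℝ b u := by
    intro u
    rw [ev_add, inner_eq3, Fin.sum_univ_three, ev_add, ev_add]
    simp only [ev_mul, ev_C, ev_X]
  have hdet := detA_add_lin p fun k => b k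
  have hlin : ∀ r : P, (∀ k, EE (X k * r) = 0) → EE ((∑ k, C (b k) * X k) * r) = 0 := by
    intro r hr
    have h1 : (∑ k, C (b k) * X k) * r = ∑ k, C (b k) * (X k * r) := by
      rw [Finset.sum_mul]
      exact Finset.sum_congr rfl fun k _ => by ring
    rw [h1, EE_sum]
    exact Finset.sum_eq_zero fun k _ => by rw [EE_C_mul, hr, mul_zero]
  refine ⟨p + ∑ k, C (b k) * X k, ?_, fun u _ => hev u, ?_, EE_congr hdet, ?_⟩
  · intro x hx w hw0 hwx
    have h1 := hp x hx w hw0 hwx
    have h2 : (∑ i, ∑ j, w i * w j * ev (L i (L j (p + ∑ k, C (b k) * X k))) x) =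
        (∑ i, ∑ j, w i * w j * ev (L i (L j p)) x) + inner ℝ w b * inner ℝ w x - ‖w‖ ^ 2 * inner ℝ b x := by
      have h3 : ∀ i j, ev (L i (L j (p + ∑ k, C (b k) * X k))) x =
          ev (L i (L j p)) x + (b i * x j - (if i = j then inner ℝ b x else 0)) := by
        intro i j
        rw [map_add, map_add, ev_add, WE1_lin]
      simp only [h3]
      rw [← real_inner_self_eq_norm_sq, inner_eq3 w b, inner_eq3 w x, inner_eq3 w w]
      simp only [Fin.sum_univ_three]
      generalize inner ℝ b x = c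
      simp
      ring
    rw [h2, hwx, hev]
    have h3 : (∑ i, ∑ j, w i * w j * ev (L i (L j p)) x) + inner ℝ w b * 0 - ‖w‖ ^ 2 * inner ℝ b x +
        (ev p x + inner ℝ b x) * ‖w‖ ^ 2 = (∑ i, ∑ j, w i * w j * ev (L i (L j p)) x) + ev p x * ‖w‖ ^ 2 := by
      ring
    rw [h3]
    exact h1
  · rw [EE_add]
    have h1 := hlin 1 fun k => by rw [mul_one, EE_X]
    rw [mul_one] at h1
    rw [h1, add_zero]
  · have h1 : EqS ((p + ∑ k, C (b k) * X k) * detA (p + ∑ k, C (b k) * X k))
        (p * detA p + (∑ k, C (b k) * X k) * detA p) := by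
      intro x hx
      rw [ev_mul, hdet x hx, ← ev_mul, add_mul]
    rw [EE_congr h1, EE_add, hlin _ fun k => EE_X_detA k p, add_zero]

private theorem WE1_fin {K : Set E3} (hK : IsCompact K) (t : ℝ) : volume (cthickening t K) ≠ ⊤ :=
  (hK.cthickening).measure_lt_top.ne

private theorem WE1_vol_mono {A B : Set E3} (h : A ⊆ B) (hB : volume B ≠ ⊤) : vol A ≤ vol B :=
  ENNReal.toReal_mono hB (measure_mono h)

private theorem WE1_tendsto {K : Set E3} (hK : IsCompact K) (t : ℝ) (ht : 0 ≤ t) :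
    Tendsto (fun n : ℕ => vol (cthickening (t + 1 / ((n : ℝ) + 1)) K)) atTop
      (𝓝 (vol (cthickening t K))) := by
  have h1 : Tendsto (fun r => volume (cthickening r (cthickening t K))) (𝓝 (0 : ℝ))
      (𝓝 (volume (closure (cthickening t K)))) := by
    apply tendsto_measure_cthickening
    exact ⟨1, one_pos, WE1_fin hK.cthickening 1⟩
  rw [isClosed_cthickening.closure_eq] at h1
  have h2 : Tendsto (fun n : ℕ => 1 / ((n : ℝ) + 1)) atTop (𝓝 0) :=
    tendsto_one_div_add_atTop_nhds_zero_nat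
  have h3 := (ENNReal.tendsto_toReal (WE1_fin hK t)).comp (h1.comp h2)
  refine h3.congr fun n => ?_
  have hn : (0 : ℝ) ≤ 1 / ((n : ℝ) + 1) := by positivity
  simp only [Function.comp]
  unfold vol
  rw [cthickening_cthickening hn ht, add_comm]

private theorem WE1_seq {K : Set E3} (hK : IsCompact K) (hc : Convex ℝ K) (h0 : (0 : E3) ∈ K) :
    ∃ p : ℕ → P, (∀ n, ConvSS (p n)) ∧
      (∀ (n : ℕ) (u : E3), ‖u‖ = 1 → supp K u ≤ ev (p n) u ∧ ev (p n) u ≤ supp K u + 1 / ((n : ℝ) + 1)) ∧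
      ∃ x y : ℝ, Tendsto (fun n => EE (p n)) atTop (𝓝 (av (supp K))) ∧
        Tendsto (fun n => EE (detA (p n))) atTop (𝓝 x) ∧
        Tendsto (fun n => EE (p n * detA (p n))) atTop (𝓝 y) ∧
        ∀ t : ℝ, 0 ≤ t → vol (cthickening t K) = 4 * Real.pi / 3 *
          (y + 3 * t * x + 3 * t ^ 2 * av (supp K) + t ^ 3) := by
  have hne : K.Nonempty := ⟨0, h0⟩
  have hpi : (0 : ℝ) < 4 * Real.pi / 3 := by positivity
  have happ : ∀ n : ℕ, ∃ p : P, ConvSS p ∧
      ∀ x : E3, ‖x‖ = 1 → 0 < ev p x ∧ supp K x ≤ ev p x ∧ ev p x ≤ supp K x + 1 / ((n : ℝ) + 1) :=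
    fun n => approx hK hc h0 _ (by positivity)
  choose p hp hb using happ
  have hη : ∀ n : ℕ, (0 : ℝ) ≤ 1 / ((n : ℝ) + 1) := fun n => by positivity
  have hbet : ∀ n, K ⊆ body (p n) ∧ body (p n) ⊆ cthickening (1 / ((n : ℝ) + 1)) K := fun n =>
    body_between hK hc hne (p n) _ (hη n) fun x hx => ⟨(hb n x hx).2.1, (hb n x hx).2.2⟩
  set Y : ℕ → ℝ := fun n => EE (p n * detA (p n)) with hY
  set Xs : ℕ → ℝ := fun n => EE (detA (p n)) with hXs
  set M : ℕ → ℝ := fun n => EE (p n) with hM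
  have hQ : ∀ t : ℝ, 0 ≤ t → Tendsto (fun n => 4 * Real.pi / 3 *
      (Y n + 3 * t * Xs n + 3 * t ^ 2 * M n + t ^ 3)) atTop (𝓝 (vol (cthickening t K))) := by
    intro t ht
    have h1 : ∀ n, vol (cthickening t (body (p n))) = 4 * Real.pi / 3 *
        (Y n + 3 * t * Xs n + 3 * t ^ 2 * M n + t ^ 3) := fun n =>
      steiner_body (hp n) (fun x hx => (hb n x hx).1) t ht
    have h2 : ∀ n, vol (cthickening t K) ≤ vol (cthickening t (body (p n))) := fun n =>
      WE1_vol_mono (cthickening_subset_of_subset t (hbet n).1) (WE1_fin (body_compact _) t)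
    have h3 : ∀ n : ℕ, vol (cthickening t (body (p n))) ≤
        vol (cthickening (t + 1 / ((n : ℝ) + 1)) K) := fun n => by
      apply WE1_vol_mono _ (WE1_fin hK _)
      refine (cthickening_subset_of_subset t (hbet n).2).trans ?_
      exact cthickening_cthickening_subset ht (hη n) K
    have h4 := WE1_tendsto hK t ht
    have h5 : Tendsto (fun n => vol (cthickening t (body (p n)))) atTop
        (𝓝 (vol (cthickening t K))) :=
      tendsto_of_tendsto_of_tendsto_of_le_of_le tendsto_const_nhds h4 h2 h3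
    exact h5.congr h1
  have hsc : Continuous (supp K) := (supp_props hK hne).2.2.2.2
  have hMt : Tendsto M atTop (𝓝 (av (supp K))) := by
    have h1 : ∀ n, av (supp K) ≤ M n := fun n =>
      av_mono hsc.continuousOn (continuous_ev _).continuousOn fun x hx => (hb n x hx).2.1
    have h2 : ∀ n : ℕ, M n ≤ av (supp K) + 1 / ((n : ℝ) + 1) := fun n => by
      have h3 : M n ≤ av (fun x => supp K x + 1 / ((n : ℝ) + 1)) :=
        av_mono (continuous_ev _).continuousOn (hsc.add continuous_const).continuousOn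
          fun x hx => (hb n x hx).2.2
      rw [av_add hsc.continuousOn continuousOn_const, av_const] at h3
      exact h3
    have h4 : Tendsto (fun n : ℕ => av (supp K) + 1 / ((n : ℝ) + 1)) atTop
        (𝓝 (av (supp K) + 0)) :=
      tendsto_const_nhds.add tendsto_one_div_add_atTop_nhds_zero_nat
    rw [add_zero] at h4
    exact tendsto_of_tendsto_of_tendsto_of_le_of_le tendsto_const_nhds h4 h1 h2
  obtain ⟨y, hy⟩ : ∃ y : ℝ, y = (4 * Real.pi / 3)⁻¹ * vol (cthickening 0 K) := ⟨_, rfl⟩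
  obtain ⟨x, hx⟩ : ∃ x : ℝ, x =
    ((4 * Real.pi / 3)⁻¹ * vol (cthickening 1 K) - y - 3 * av (supp K) - 1) / 3 := ⟨_, rfl⟩
  have hYt : Tendsto Y atTop (𝓝 y) := by
    rw [hy]
    have h1 := (hQ 0 le_rfl).const_mul (4 * Real.pi / 3)⁻¹
    refine h1.congr fun n => ?_
    rw [← mul_assoc, inv_mul_cancel₀ hpi.ne', one_mul]
    ring
  have hXt : Tendsto Xs atTop (𝓝 x) := by
    rw [hx]
    have h1 := (hQ 1 zero_le_one).const_mul (4 * Real.pi / 3)⁻¹
    have h2 := (((h1.sub hYt).sub (hMt.const_mul 3)).sub_const 1).div_const 3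
    refine h2.congr fun n => ?_
    rw [← mul_assoc, inv_mul_cancel₀ hpi.ne', one_mul]
    ring
  refine ⟨p, hp, fun n u hu => (hb n u hu).2, x, y, hMt, hXt, hYt, fun t ht => ?_⟩
  have h1 := hQ t ht
  have h2 : Tendsto (fun n => 4 * Real.pi / 3 *
      (Y n + 3 * t * Xs n + 3 * t ^ 2 * M n + t ^ 3)) atTop
      (𝓝 (4 * Real.pi / 3 * (y + 3 * t * x + 3 * t ^ 2 * av (supp K) + t ^ 3))) :=
    (((hYt.add (hXt.const_mul (3 * t))).add (hMt.const_mul (3 * t ^ 2))).add_const
      (t ^ 3)).const_mul _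
  exact tendsto_nhds_unique h1 h2

open scoped Pointwise in
private theorem WE1_thick {K : Set E3} (hK : IsCompact K) (a : E3) {t : ℝ} (ht : 0 ≤ t) :
    vol (cthickening t (K + ({a} : Set E3))) = vol (cthickening t K) := by
  have h1 : cthickening t (K + ({a} : Set E3)) = cthickening t K + ({a} : Set E3) := by
    rw [← (hK.add isCompact_singleton).add_closedBall_zero ht, add_right_comm,
      hK.add_closedBall_zero ht]
  unfold vol
  rw [h1, Set.add_singleton, Set.image_add_right, measure_preimage_add_right]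

open scoped Pointwise in
private theorem WE1_supp {K : Set E3} (hK : IsCompact K) (hne : K.Nonempty) (a x : E3) :
    supp (K + ({a} : Set E3)) x = supp K x + inner ℝ a x := by
  obtain ⟨s1, s2, -⟩ := supp_props hK hne
  obtain ⟨t1, t2, -⟩ := supp_props (hK.add (isCompact_singleton (x := a)))
    (hne.add (Set.singleton_nonempty a))
  apply le_antisymm
  · obtain ⟨z, hz, h⟩ := t2 x
    rw [h]
    obtain ⟨y, hy, b, hb, rfl⟩ := Set.mem_add.1 hz
    rw [Set.mem_singleton_iff.1 hb, inner_add_left]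
    have := s1 y hy x
    linarith
  · obtain ⟨y, hy, h⟩ := s2 x
    rw [h, ← inner_add_left]
    exact t1 _ (Set.add_mem_add hy (Set.mem_singleton a)) x

private theorem WE1_av_lin (a : E3) : av (fun x => inner ℝ a x) = 0 := by
  have h1 : av (fun x : E3 => inner ℝ a (-x)) = av (fun x => inner ℝ a x) :=
    av_comp_isometry (LinearIsometryEquiv.neg ℝ) fun x => inner ℝ a x
  have h2 : (fun x : E3 => inner ℝ a (-x)) = fun x => (-1 : ℝ) * inner ℝ a x := by
    funext x
    rw [inner_neg_right]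
    ring
  rw [h2, av_const_mul] at h1
  linarith

open scoped Pointwise in
theorem seq_full {K : Set E3} (hK : IsBody K) : ∃ q : ℕ → P,
    (∀ n, ConvSS (q n)) ∧
    (∀ (n : ℕ) (u : E3), ‖u‖ = 1 → supp K u ≤ ev (q n) u ∧ ev (q n) u ≤ supp K u + 1 / ((n : ℝ) + 1)) ∧
    Tendsto (fun n => EE (q n)) atTop (𝓝 (mN K)) ∧
    Tendsto (fun n => EE (detA (q n))) atTop (𝓝 (sN K)) ∧
    Tendsto (fun n => EE (q n * detA (q n))) atTop (𝓝 (vN K)) := by
  obtain ⟨hKc, hKv, hKn⟩ := hK
  obtain ⟨a, ha⟩ := hKn.nonempty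
  have hne : K.Nonempty := ⟨a, ha⟩
  have hsup : ∀ x, supp (K + ({-a} : Set E3)) x = supp K x + inner ℝ (-a) x := WE1_supp hKc hne (-a)
  have hav : av (supp (K + ({-a} : Set E3))) = av (supp K) := by
    have h1 : supp (K + ({-a} : Set E3)) = fun x => supp K x + inner ℝ (-a) x := funext hsup
    rw [h1, av_add, WE1_av_lin, add_zero]
    · exact (supp_props hKc hne).2.2.2.2.continuousOn
    · exact (continuous_const.inner continuous_id).continuousOn
  have h0 : (0 : E3) ∈ K + ({-a} : Set E3) :=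
    Set.mem_add.2 ⟨a, ha, -a, Set.mem_singleton _, add_neg_cancel a⟩
  obtain ⟨p, hp, hb, x, y, hM, hX, hY, hvol⟩ := WE1_seq (hKc.add isCompact_singleton)
    (hKv.add (convex_singleton _)) h0
  rw [hav] at hM hvol
  have hvol' : ∀ t : ℝ, 0 ≤ t → vol (cthickening t K) = 4 * Real.pi / 3 *
      (y + 3 * t * x + 3 * t ^ 2 * av (supp K) + t ^ 3) := by
    intro t ht
    rw [← WE1_thick hKc (-a) ht]
    exact hvol t ht
  have hpi := Real.pi_pos
  have hd : HasDerivWithinAt (fun t => vol (cthickening t K)) (4 * Real.pi * x) (Ici 0) 0 := by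
    have h3 : HasDerivAt (fun t : ℝ => 4 * Real.pi / 3 *
        (y + 3 * t * x + 3 * t ^ 2 * av (supp K) + t ^ 3)) (4 * Real.pi * x) 0 := by
      have e1 : HasDerivAt (fun t : ℝ => 3 * t * x) (3 * 1 * x) 0 :=
        ((hasDerivAt_id (0 : ℝ)).const_mul 3).mul_const x
      have e2 := ((hasDerivAt_pow 2 (0 : ℝ)).const_mul 3).mul_const (av (supp K))
      have e3 := hasDerivAt_pow 3 (0 : ℝ)
      have e4 := (((e1.const_add y).add e2).add e3).const_mul (4 * Real.pi / 3)
      refine e4.congr_deriv ?_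
      norm_num
      ring
    exact h3.hasDerivWithinAt.congr (fun t ht => hvol' t ht) (hvol' 0 le_rfl)
  have hsurf : surf K = 4 * Real.pi * x := hd.derivWithin (uniqueDiffWithinAt_Ici 0)
  have hvolK : vol K = 4 * Real.pi / 3 * y := by
    have h3 := hvol' 0 le_rfl
    rw [cthickening_zero, hKc.isClosed.closure_eq] at h3
    rw [h3]
    ring
  have hsN : sN K = x := by
    unfold sN
    rw [hsurf]
    field_simp
  have hvN : vN K = y := by
    unfold vN
    rw [hvolK]
    field_simp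
  choose q hq1 hq2 hq3 hq4 hq5 using fun n => shift (p n) (hp n) a
  refine ⟨q, hq1, fun n u hu => ?_, ?_, ?_, ?_⟩
  · have h1 := hb n u hu
    rw [hsup, inner_neg_left] at h1
    rw [hq2 n u hu]
    constructor <;> linarith [h1.1, h1.2]
  · refine hM.congr fun n => (hq3 n).symm
  · rw [hsN]
    exact hX.congr fun n => (hq4 n).symm
  · rw [hvN]
    exact hY.congr fun n => (hq5 n).symm

end Pool.Agent.Lib.MP_dabcc9_gtW
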