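import Pool.Agent.Lib.MP_dabcc9_gtW.WD3
import Pool.Agent.Lib.MP_dabcc9_gtW.WE1

/-!
LEAF WE2 (the inequality for all convex bodies in a ball around `0`). `seq_full`, `poly_ineq` with `R n = R + 1/(n+1)`
(`supp K u ≤ R` for unit `u` as `K ⊆ closedBall 0 R`), limits. `EE ((R n - q n)² q n) = av (fun u => (R n - ev (q n) u)² ev (q n) u)` tends to
`av (fun u => (R - supp K u)² supp K u)` by uniform convergence on the sphere (`|supp K| ≤ R`; e.g. both differ by at most a constant times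
`1/(n+1)`; `av_mono`, `supp_props` for continuity; `R ≥ 0` as `K` is not empty).
-/

open MeasureTheory Metric Set MvPolynomial Filter Topology Pool.Agent.Lib.MP_dabcc9_gt

namespace Pool.Agent.Lib.MP_dabcc9_gtW

private theorem WE2_real {R h a d : ℝ} (hd : 0 ≤ d) (hd1 : d ≤ 1) (h1 : h ≤ a) (h2 : a ≤ h + d)
    (h3 : h ≤ R) (h4 : -R ≤ h) :
    (R - h) ^ 2 * h - (4 * R + 1) * R * d ≤ (R + d - a) * (R + d - a) * a := by
  have hR : 0 ≤ R := by linarith
  have hX : R - h ≤ R + d - a := by linarith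
  have hX2 : R + d - a ≤ R - h + d := by linarith
  have hY : 0 ≤ R - h := by linarith
  have e : (R + d - a) * (R + d - a) * a - (R - h) ^ 2 * h =
      (R + d - a) * (R + d - a) * (a - h) + ((R + d - a) - (R - h)) * ((R + d - a) + (R - h)) * h := by
    ring
  have k1 : 0 ≤ (R + d - a) * (R + d - a) * (a - h) :=
    mul_nonneg (mul_self_nonneg _) (by linarith)
  have k2 : 0 ≤ (R + d - a) - (R - h) := by linarith
  have k3 : (R + d - a) - (R - h) ≤ d := by linarith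
  have k4 : 0 ≤ (R + d - a) + (R - h) := by linarith
  have k5 : (R + d - a) + (R - h) ≤ 4 * R + 1 := by linarith
  have k6 : ((R + d - a) - (R - h)) * ((R + d - a) + (R - h)) ≤ d * (4 * R + 1) :=
    mul_le_mul k3 k5 k4 hd
  have k7 : 0 ≤ ((R + d - a) - (R - h)) * ((R + d - a) + (R - h)) := mul_nonneg k2 k4
  have k8 : -(d * (4 * R + 1) * R) ≤
      ((R + d - a) - (R - h)) * ((R + d - a) + (R - h)) * h := by
    have k9 : ((R + d - a) - (R - h)) * ((R + d - a) + (R - h)) * (-h) ≤ d * (4 * R + 1) * R := by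
      calc ((R + d - a) - (R - h)) * ((R + d - a) + (R - h)) * (-h)
          ≤ ((R + d - a) - (R - h)) * ((R + d - a) + (R - h)) * R :=
            mul_le_mul_of_nonneg_left (by linarith) k7
        _ ≤ d * (4 * R + 1) * R := mul_le_mul_of_nonneg_right k6 hR
    linarith
  nlinarith only [e, k1, k8]

theorem body_ineq {K : Set E3} (hK : IsBody K) {R : ℝ} (h : K ⊆ closedBall 0 R) :
    0 ≤ vN K + 3 * R ^ 2 * mN K - 4 * R * sN K ∧
    2 * av (fun u => (R - supp K u) ^ 2 * supp K u) ≤ vN K + 3 * R ^ 2 * mN K - 4 * R * sN K ∧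
    vN K ≤ R * sN K := by
  have hne : K.Nonempty := hK.2.2.nonempty
  obtain ⟨s1, s2, -, -, s5⟩ := supp_props hK.1 hne
  have hb : ∀ u : E3, ‖u‖ = 1 → supp K u ≤ R ∧ -R ≤ supp K u := by
    intro u hu
    obtain ⟨y, hy, e⟩ := s2 u
    have h1 : ‖y‖ ≤ R := by
      have := h hy
      rwa [mem_closedBall, dist_zero_right] at this
    have h2 : |inner ℝ y u| ≤ ‖y‖ * ‖u‖ := abs_real_inner_le_norm y u
    rw [hu, mul_one] at h2
    have h3 := abs_le.1 (h2.trans h1)
    rw [e]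
    exact ⟨h3.2, h3.1⟩
  obtain ⟨q, q1, q2, q3, q4, q5⟩ := seq_full hK
  have hd : Tendsto (fun n : ℕ => 1 / ((n : ℝ) + 1)) atTop (𝓝 0) :=
    tendsto_one_div_add_atTop_nhds_zero_nat
  have hd0 : ∀ n : ℕ, 0 ≤ 1 / ((n : ℝ) + 1) := fun n => by positivity
  have hd1 : ∀ n : ℕ, 1 / ((n : ℝ) + 1) ≤ 1 := fun n => by
    rw [div_le_one (by positivity)]
    have : (0 : ℝ) ≤ n := Nat.cast_nonneg n
    linarith
  have hR : Tendsto (fun n : ℕ => R + 1 / ((n : ℝ) + 1)) atTop (𝓝 R) := by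
    have := hd.const_add R
    rwa [add_zero] at this
  have hp : ∀ n : ℕ, ∀ x : E3, ‖x‖ = 1 → ev (q n) x ≤ R + 1 / ((n : ℝ) + 1) := fun n x hx =>
    ((q2 n x hx).2).trans (add_le_add_left (hb x hx).1 _)
  have hT : Tendsto (fun n => EE (q n * detA (q n)) + 3 * (R + 1 / ((n : ℝ) + 1)) ^ 2 * EE (q n) -
      4 * (R + 1 / ((n : ℝ) + 1)) * EE (detA (q n))) atTop
      (𝓝 (vN K + 3 * R ^ 2 * mN K - 4 * R * sN K)) :=
    (q5.add (((hR.pow 2).const_mul 3).mul q3)).sub ((hR.const_mul 4).mul q4)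
  refine ⟨ge_of_tendsto' hT fun n => (poly_ineq (q1 n) (hp n)).1, ?_,
    le_of_tendsto_of_tendsto' q5 (hR.mul q4) fun n => (poly_ineq (q1 n) (hp n)).2.2⟩
  have hc : ContinuousOn (fun u => (R - supp K u) ^ 2 * supp K u) (sphere 0 1) :=
    (((continuous_const.sub s5).pow 2).mul s5).continuousOn
  have key : ∀ n : ℕ, 2 * av (fun u => (R - supp K u) ^ 2 * supp K u) ≤
      (EE (q n * detA (q n)) + 3 * (R + 1 / ((n : ℝ) + 1)) ^ 2 * EE (q n) -
      4 * (R + 1 / ((n : ℝ) + 1)) * EE (detA (q n))) +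
        2 * ((4 * R + 1) * R * (1 / ((n : ℝ) + 1))) := by
    intro n
    have h1 := (poly_ineq (q1 n) (hp n)).2.1
    have h2 : av (fun u => (R - supp K u) ^ 2 * supp K u -
        (4 * R + 1) * R * (1 / ((n : ℝ) + 1))) ≤
        av (ev ((C (R + 1 / ((n : ℝ) + 1)) - q n) * (C (R + 1 / ((n : ℝ) + 1)) - q n) * q n)) := by
      refine av_mono (hc.sub continuousOn_const) (Basic_ev_on _) fun u hu => ?_
      rw [ev_mul, ev_mul, ev_sub, ev_C]
      exact WE2_real (hd0 n) (hd1 n) (q2 n u hu).1 (q2 n u hu).2 (hb u hu).1 (hb u hu).2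
    rw [av_sub hc continuousOn_const, av_const] at h2
    have h3 : av (ev ((C (R + 1 / ((n : ℝ) + 1)) - q n) * (C (R + 1 / ((n : ℝ) + 1)) - q n) *
        q n)) = EE ((C (R + 1 / ((n : ℝ) + 1)) - q n) * (C (R + 1 / ((n : ℝ) + 1)) - q n) *
        q n) := rfl
    rw [h3] at h2
    linarith
  have hT2 : Tendsto (fun n : ℕ => (EE (q n * detA (q n)) +
      3 * (R + 1 / ((n : ℝ) + 1)) ^ 2 * EE (q n) -
      4 * (R + 1 / ((n : ℝ) + 1)) * EE (detA (q n))) +
        2 * ((4 * R + 1) * R * (1 / ((n : ℝ) + 1)))) atTop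
      (𝓝 (vN K + 3 * R ^ 2 * mN K - 4 * R * sN K)) := by
    have h1 := hT.add ((hd.const_mul ((4 * R + 1) * R)).const_mul 2)
    rw [mul_zero, mul_zero, add_zero] at h1
    exact h1
  exact ge_of_tendsto' hT2 key

end Pool.Agent.Lib.MP_dabcc9_gtW
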