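import Pool.Agent.Lib.MP_dabcc9_gtW.WE2

/-!
LEAF WF1 (strict inequality if `0 ∈ K`). By `body_ineq` with `R = 1` it is enough that
`av (fun u => (1 - supp K u)² supp K u) > 0`. The function is nonnegative and continuous on the sphere. If its average
is `0` it vanishes on the sphere (`av_eq_zero`), so `supp K u ∈ {0, 1}` for all unit `u`. The unit sphere of `E3` is
connected, so `supp K` is constant `0` or constant `1` on it. Constant `0`: `K = {0}`. Constant `1`:
`K = closedBall 0 1`.
-/

open MeasureTheory Metric Set Filter Topology Pool.Agent.Lib.MP_dabcc9_gt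

namespace Pool.Agent.Lib.MP_dabcc9_gtW

private lemma WF1_near {K : Set E3} (hK : IsCompact K) (hc : Convex ℝ K) (hne : K.Nonempty)
    (y : E3) : y ∈ K ∨ ∃ x : E3, ‖x‖ = 1 ∧ supp K x < inner ℝ y x := by
  obtain ⟨z, hz, hmin⟩ := exists_norm_eq_iInf_of_complete_convex hne hK.isComplete hc y
  rw [norm_eq_iInf_iff_real_inner_le_zero hc hz] at hmin
  by_cases h0 : y = z
  · left
    rw [h0]
    exact hz
  · right
    have hn : ‖y - z‖ ≠ 0 := norm_ne_zero_iff.2 (sub_ne_zero.2 h0)
    have hp : 0 < ‖y - z‖ := norm_pos_iff.2 (sub_ne_zero.2 h0)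
    obtain ⟨-, s2, -, -, -⟩ := supp_props hK hne
    refine ⟨‖y - z‖⁻¹ • (y - z), ?_, ?_⟩
    · rw [norm_smul, norm_inv, norm_norm, inv_mul_cancel₀ hn]
    · obtain ⟨w, hw, hs⟩ := s2 (‖y - z‖⁻¹ • (y - z))
      rw [hs]
      have h1 := hmin w hw
      have h2 : inner ℝ w (‖y - z‖⁻¹ • (y - z)) - inner ℝ z (‖y - z‖⁻¹ • (y - z)) =
          ‖y - z‖⁻¹ * inner ℝ (y - z) (w - z) := by
        rw [← inner_sub_left, real_inner_smul_right, real_inner_comm]
      have h3 : ‖y - z‖⁻¹ * inner ℝ (y - z) (w - z) ≤ 0 :=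
        mul_nonpos_of_nonneg_of_nonpos (inv_nonneg.2 (norm_nonneg _)) h1
      have h4 : inner ℝ y (‖y - z‖⁻¹ • (y - z)) - inner ℝ z (‖y - z‖⁻¹ • (y - z)) =
          ‖y - z‖ := by
        rw [← inner_sub_left, real_inner_smul_right, real_inner_self_eq_norm_sq, sq, ← mul_assoc,
          inv_mul_cancel₀ hn, one_mul]
      linarith

theorem strict0 {K : Set E3} (hK : IsBody K) (h : K ⊆ closedBall 0 1) (hne : K ≠ closedBall 0 1)
    (h0 : (0 : E3) ∈ K) : 4 * sN K < vN K + 3 * mN K := by
  obtain ⟨-, hb, -⟩ := body_ineq hK h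
  obtain ⟨hKc, hKv, hKn⟩ := hK
  have hne0 := hKn.nonempty
  obtain ⟨s1, s2, -, -, hcont⟩ := supp_props hKc hne0
  have hge : ∀ u : E3, 0 ≤ supp K u := fun u => by
    have h1 := s1 0 h0 u
    rw [inner_zero_left] at h1
    exact h1
  have hcf : ContinuousOn (fun u => (1 - supp K u) ^ 2 * supp K u) (sphere 0 1) :=
    (((continuous_const.sub hcont).pow 2).mul hcont).continuousOn
  have hnn : ∀ x : E3, ‖x‖ = 1 → 0 ≤ (1 - supp K x) ^ 2 * supp K x := fun x _ =>
    mul_nonneg (sq_nonneg _) (hge x)
  have hpos : 0 < av (fun u => (1 - supp K u) ^ 2 * supp K u) := by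
    rcases (av_nonneg hnn).lt_or_eq with hlt | heq
    · exact hlt
    · exfalso
      have hz := av_eq_zero hcf hnn heq.symm
      have h01 : ∀ x : E3, ‖x‖ = 1 → supp K x = 0 ∨ supp K x = 1 := by
        intro x hx
        have h2 : (1 - supp K x) ^ 2 * supp K x = 0 := hz x hx
        rcases mul_eq_zero.1 h2 with h1 | h1
        · right
          have h3 := pow_eq_zero_iff two_ne_zero |>.1 h1
          linarith
        · left
          exact h1
      have hconn : IsPreconnected (sphere (0 : E3) 1) :=
        isPreconnected_sphere (by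
          rw [← Module.finrank_eq_rank]
          simp) 0 1
      have hconst : (∀ x : E3, ‖x‖ = 1 → supp K x = 0) ∨
          (∀ x : E3, ‖x‖ = 1 → supp K x = 1) := by
        by_contra hcon
        rw [not_or] at hcon
        obtain ⟨hc1, hc2⟩ := hcon
        rw [not_forall] at hc1 hc2
        obtain ⟨a, ha⟩ := hc1
        obtain ⟨b, hb'⟩ := hc2
        rw [Classical.not_imp] at ha hb'
        have ha1 : supp K a = 1 := (h01 a ha.1).resolve_left ha.2
        have hb1 : supp K b = 0 := (h01 b hb'.1).resolve_right hb'.2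
        have hiv := hconn.intermediate_value (mem_sphere_zero_iff_norm.2 hb'.1)
          (mem_sphere_zero_iff_norm.2 ha.1) hcont.continuousOn
        obtain ⟨c, hc, hc'⟩ := hiv (show (1 / 2 : ℝ) ∈ Icc (supp K b) (supp K a) by
          rw [ha1, hb1]
          constructor <;> norm_num)
        rcases h01 c (mem_sphere_zero_iff_norm.1 hc) with h2 | h2 <;> rw [h2] at hc' <;>
          norm_num at hc'
      rcases hconst with hc0 | hc1
      · have key : ∀ y ∈ K, y = 0 := by
          intro y hy
          by_contra hy0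
          have hn : ‖y‖ ≠ 0 := norm_ne_zero_iff.2 hy0
          have h1 := s1 y hy (‖y‖⁻¹ • y)
          rw [hc0 _ (by rw [norm_smul, norm_inv, norm_norm, inv_mul_cancel₀ hn]),
            real_inner_smul_right, real_inner_self_eq_norm_sq, sq, ← mul_assoc,
            inv_mul_cancel₀ hn, one_mul] at h1
          exact hn (le_antisymm h1 (norm_nonneg _))
        obtain ⟨a, ha, b, hb', hab⟩ := hKn
        exact hab ((key a ha).trans (key b hb').symm)
      · apply hne
        apply Subset.antisymm h
        intro y hy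
        rcases WF1_near hKc hKv hne0 y with h1 | ⟨x, hx, h2⟩
        · exact h1
        · exfalso
          rw [hc1 x hx] at h2
          have h3 := real_inner_le_norm y x
          rw [hx, mul_one] at h3
          have h4 : ‖y‖ ≤ 1 := mem_closedBall_zero_iff.1 hy
          linarith
  norm_num at hb
  linarith

end Pool.Agent.Lib.MP_dabcc9_gtW
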