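import Pool.Agent.Lib.MP_dabcc9_gtW.WE2

/-!
LEAF WF2 (balls with any centre; the case `0 ∉ K`). `transl`: `vN, sN, mN` of `K + {a}` (private lemmas `LimB_thick`, `LimB_supp`, `LimB_av_lin` in file LimB: copy).
`body_ineq_center`: `body_ineq` for `K + {-a}`.
`small_ball`: `K` compact convex, `0 ∉ K`: nearest point `x₀ ≠ 0` of `K` to `0`, `<x, x₀> ≥ ‖x₀‖²` for all `x ∈ K` (`norm_eq_iInf_iff_real_inner_le_zero` or a direct
quadratic argument); `e = x₀/‖x₀‖`, `δ = ‖x₀‖ ≤ 1`, `‖x - δ e‖² = ‖x‖² - 2 δ <x, e> + δ² ≤ 1 - δ²`. If `δ = 1` then `K = {x₀}`, against `IsBody`; `R = sqrt (1 - δ²) < 1`.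
`strict1`: `vN + 3 mN - 4 sN = (vN + 3 R² mN - 4 R sN) + (1 - R) (3 (1 + R) mN - 4 sN)`, `sN ≤ R mN` (from the first and third inequality, `R > 0`), so the last
factor is at least `(3 - R) mN > 0`.
-/

open MeasureTheory Metric Set Filter Topology Pool.Agent.Lib.MP_dabcc9_gt
open scoped Pointwise

namespace Pool.Agent.Lib.MP_dabcc9_gtW

private lemma WF2_thick {K : Set E3} (hK : IsCompact K) (a : E3) {t : ℝ} (ht : 0 ≤ t) :
    vol (cthickening t (K + ({a} : Set E3))) = vol (cthickening t K) := by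
  have h1 : cthickening t (K + ({a} : Set E3)) = cthickening t K + ({a} : Set E3) := by
    rw [← (hK.add isCompact_singleton).add_closedBall_zero ht, add_right_comm,
      hK.add_closedBall_zero ht]
  unfold vol
  rw [h1, Set.add_singleton, Set.image_add_right, measure_preimage_add_right]

private lemma WF2_supp {K : Set E3} (hK : IsCompact K) (hne : K.Nonempty) (a x : E3) :
    supp (K + ({a} : Set E3)) x = supp K x + inner ℝ a x := by
  obtain ⟨s1, s2, -⟩ := supp_props hK hne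
  obtain ⟨t1, t2, -⟩ := supp_props (hK.add (isCompact_singleton (x := a)))
    (hne.add (Set.singleton_nonempty a))
  apply le_antisymm
  · obtain ⟨z, hz, h⟩ := t2 x
    rw [h]
    obtain ⟨y, hy, b, hb, rfl⟩ := Set.mem_add.1 hz
    rw [Set.mem_singleton_iff.1 hb, inner_add_left]
    have := s1 y hy x
    linarith
  · obtain ⟨y, hy, h⟩ := s2 x
    rw [h, ← inner_add_left]
    exact t1 _ (Set.add_mem_add hy (Set.mem_singleton a)) x

private lemma WF2_av_lin (a : E3) : av (fun x => inner ℝ a x) = 0 := by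
  have h1 : av (fun x => inner ℝ a (-x)) = av (fun x => inner ℝ a x) :=
    av_comp_isometry (LinearIsometryEquiv.neg ℝ) (fun x => inner ℝ a x)
  have h2 : (fun x : E3 => inner ℝ a (-x)) = fun x => (-1 : ℝ) * inner ℝ a x := by
    funext x
    rw [inner_neg_right]
    ring
  rw [h2, av_const_mul] at h1
  linarith

theorem transl {K : Set E3} (hK : IsBody K) (a : E3) : IsBody (K + ({a} : Set E3)) ∧
    vN (K + ({a} : Set E3)) = vN K ∧ sN (K + ({a} : Set E3)) = sN K ∧ mN (K + ({a} : Set E3)) = mN K := by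
  have hne := hK.2.2.nonempty
  refine ⟨⟨hK.1.add isCompact_singleton, hK.2.1.add (convex_singleton _), ?_⟩, ?_, ?_, ?_⟩
  · obtain ⟨x, hx, y, hy, hxy⟩ := hK.2.2
    exact ⟨x + a, Set.add_mem_add hx (Set.mem_singleton a), y + a,
      Set.add_mem_add hy (Set.mem_singleton a), fun h => hxy (add_right_cancel h)⟩
  · unfold vN vol
    rw [Set.add_singleton, Set.image_add_right, measure_preimage_add_right]
  · have h1 : derivWithin (fun t : ℝ => vol (cthickening t (K + ({a} : Set E3)))) (Ici 0) 0 =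
        derivWithin (fun t : ℝ => vol (cthickening t K)) (Ici 0) 0 :=
      derivWithin_congr (fun t ht => WF2_thick hK.1 a (mem_Ici.mp ht)) (WF2_thick hK.1 a le_rfl)
    unfold sN surf
    rw [h1]
  · unfold mN
    have h1 : supp (K + ({a} : Set E3)) = fun x => supp K x + inner ℝ a x := by
      funext x
      exact WF2_supp hK.1 hne a x
    rw [h1, av_add, WF2_av_lin, add_zero]
    · exact (supp_props hK.1 hne).2.2.2.2.continuousOn
    · exact (continuous_const.inner continuous_id).continuousOn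

theorem body_ineq_center {K : Set E3} (hK : IsBody K) {a : E3} {R : ℝ} (h : K ⊆ closedBall a R) :
    0 ≤ vN K + 3 * R ^ 2 * mN K - 4 * R * sN K ∧ vN K ≤ R * sN K := by
  obtain ⟨h1, h2, h3, h4⟩ := transl hK (-a)
  have h5 : K + ({-a} : Set E3) ⊆ closedBall 0 R := by
    intro z hz
    obtain ⟨y, hy, b, hb, rfl⟩ := Set.mem_add.1 hz
    have h6 := h hy
    rw [mem_closedBall, dist_eq_norm] at h6
    rw [Set.mem_singleton_iff.1 hb, mem_closedBall, dist_zero_right, ← sub_eq_add_neg]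
    exact h6
  obtain ⟨h6, _, h7⟩ := body_ineq h1 h5
  rw [h2, h3, h4] at h6
  rw [h2, h3] at h7
  exact ⟨h6, h7⟩

theorem small_ball {K : Set E3} (hK : IsBody K) (h : K ⊆ closedBall 0 1) (h0 : (0 : E3) ∉ K) :
    ∃ (a : E3) (R : ℝ), 0 < R ∧ R < 1 ∧ K ⊆ closedBall a R := by
  obtain ⟨v, hv, h1⟩ := exists_norm_eq_iInf_of_complete_convex hK.2.2.nonempty
    hK.1.isClosed.isComplete hK.2.1 (0 : E3)
  have h2 := (norm_eq_iInf_iff_real_inner_le_zero hK.2.1 hv).mp h1
  have h3 : ∀ x ∈ K, ‖x - v‖ ^ 2 ≤ 1 - ‖v‖ ^ 2 := by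
    intro x hx
    have h4 := h2 x hx
    rw [zero_sub, inner_neg_left, inner_sub_right, real_inner_self_eq_norm_sq,
      real_inner_comm] at h4
    have h5 := h hx
    rw [mem_closedBall, dist_zero_right] at h5
    have h6 : ‖x‖ ^ 2 ≤ 1 := by nlinarith [norm_nonneg x]
    rw [norm_sub_sq_real]
    linarith
  have hv0 : 0 < ‖v‖ := norm_pos_iff.mpr fun h4 => h0 (h4 ▸ hv)
  have h4 : 0 < 1 - ‖v‖ ^ 2 := by
    by_contra h5
    have h6 : ∀ x ∈ K, x = v := by
      intro x hx
      have h7 := h3 x hx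
      have h8 : ‖x - v‖ = 0 := by
        have h9 := norm_nonneg (x - v)
        nlinarith
      exact sub_eq_zero.mp (norm_eq_zero.mp h8)
    obtain ⟨x, hx, y, hy, hxy⟩ := hK.2.2
    exact hxy ((h6 x hx).trans (h6 y hy).symm)
  refine ⟨v, Real.sqrt (1 - ‖v‖ ^ 2), Real.sqrt_pos.mpr h4, ?_, ?_⟩
  · rw [Real.sqrt_lt' one_pos, one_pow]
    have h5 : 0 < ‖v‖ ^ 2 := by positivity
    linarith
  · intro x hx
    rw [mem_closedBall, dist_eq_norm]
    exact Real.le_sqrt_of_sq_le (h3 x hx)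

theorem strict1 {K : Set E3} (hK : IsBody K) (h : K ⊆ closedBall 0 1) (h0 : (0 : E3) ∉ K) :
    4 * sN K < vN K + 3 * mN K := by
  obtain ⟨a, R, hR, hR1, h1⟩ := small_ball hK h h0
  obtain ⟨h2, h3⟩ := body_ineq_center hK h1
  have h4 : 0 < mN K := av_supp_pos hK.1 hK.2.2
  have h5 : R * sN K ≤ R * (R * mN K) := by nlinarith
  have h6 : sN K ≤ R * mN K := le_of_mul_le_mul_left h5 hR
  have h7 : 0 < (1 - R) * ((3 - R) * mN K) :=
    mul_pos (by linarith) (mul_pos (by linarith) h4)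
  have h8 : (1 - R) * (3 * (1 + R) * mN K - 4 * (R * mN K)) ≤
      (1 - R) * (3 * (1 + R) * mN K - 4 * sN K) :=
    mul_le_mul_of_nonneg_left (by linarith) (by linarith)
  nlinarith

end Pool.Agent.Lib.MP_dabcc9_gtW
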