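import Pool.Agent.Lib.MP_dabcc9_gtW.WF1
import Pool.Agent.Lib.MP_dabcc9_gtW.WF2

/-! `4 S < V + 3 M` and `S < M` for every convex body in the unit ball, other than the unit ball. -/

open MeasureTheory Metric Set Pool.Agent.Lib.MP_dabcc9_gt

namespace Pool.Agent.Lib.MP_dabcc9_gtW

theorem strict {K : Set E3} (hK : IsBody K) (h : K ⊆ closedBall 0 1) (hne : K ≠ closedBall 0 1) :
    4 * sN K < vN K + 3 * mN K ∧ sN K < mN K := by
  have h1 : 4 * sN K < vN K + 3 * mN K := by
    by_cases h0 : (0 : E3) ∈ K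
    · exact strict0 hK h hne h0
    · exact strict1 hK h h0
  have h2 := (body_ineq hK h).2.2
  exact ⟨h1, by linarith⟩

end Pool.Agent.Lib.MP_dabcc9_gtW
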