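import Pool.Agent.Lib.MP_dabcc9_gtW.WDefs

/-!
LEAF WG1 (elementary properties of the pushed ball). `Lset v θ` is an intersection of closed half spaces, contains the unit ball and `0`.
`bump_hm`: if `x ∈ bump`, `<x, v> ≤ cos θ` and `‖x‖ > 1`: `u = x/‖x‖` has `<u, v> ≤ cos θ` (if `<x, v> ≥ 0` then `<u, v> ≤ <x, v>`, else `<u,v> < 0 ≤ cos θ`), so
`‖x‖ = <x, u> ≤ 1`, contradiction.
`bump_far`: the same for the direction: `x ∈ bump`, `‖x‖ > 1` implies `<x, v> > cos θ ‖x‖`.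
`bump_scale`: `0 ≤ ε ≤ ε'`, `x ∈ bump ε'`: `r⁻¹ • x ∈ bump ε` with `r = (1+ε')/(1+ε) ≥ 1` (`Lset` is star shaped with respect to `0`).
-/

open MeasureTheory Metric Set Pool.Agent.Lib.MP_dabcc9_gt

namespace Pool.Agent.Lib.MP_dabcc9_gtW

private theorem WG1_ball {v : E3} {θ : ℝ} {x : E3} (hx : ‖x‖ ≤ 1) : x ∈ Lset v θ := by
  intro u hu _
  calc inner ℝ x u ≤ ‖x‖ * ‖u‖ := real_inner_le_norm x u
    _ ≤ 1 := by rw [hu, mul_one]; exact hx

private theorem WG1_ball' {v : E3} {θ ε : ℝ} (hε : 0 ≤ ε) : closedBall (0 : E3) 1 ⊆ bump v θ ε := by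
  intro x hx
  rw [mem_closedBall_zero_iff] at hx
  refine ⟨?_, WG1_ball hx⟩
  rw [mem_closedBall_zero_iff]
  linarith

theorem bump_body {v : E3} (hv : ‖v‖ = 1) {θ ε : ℝ} (hε : 0 ≤ ε) : IsBody (bump v θ ε) := by
  refine ⟨?_, ?_, ?_⟩
  · refine IsCompact.inter_right (isCompact_closedBall _ _) ?_
    have h1 : Lset v θ = ⋂ (u : E3) (_ : ‖u‖ = 1) (_ : inner ℝ u v ≤ Real.cos θ),
        {x : E3 | inner ℝ x u ≤ 1} := by
      ext x
      simp only [Set.mem_iInter]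
      rfl
    rw [h1]
    refine isClosed_iInter fun u => isClosed_iInter fun _ => isClosed_iInter fun _ => ?_
    exact isClosed_le (by fun_prop) continuous_const
  · refine (convex_closedBall _ _).inter ?_
    intro x hx y hy a b ha hb hab u hu huv
    rw [inner_add_left, real_inner_smul_left, real_inner_smul_left]
    have h1 := mul_le_mul_of_nonneg_left (hx u hu huv) ha
    have h2 := mul_le_mul_of_nonneg_left (hy u hu huv) hb
    linarith
  · refine ⟨0, WG1_ball' hε (mem_closedBall_self zero_le_one), v, WG1_ball' hε ?_, ?_⟩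
    · rw [mem_closedBall_zero_iff, hv]
    · intro h
      rw [← h, norm_zero] at hv
      exact zero_ne_one hv

theorem ball_sub_bump {v : E3} {θ ε : ℝ} (hε : 0 ≤ ε) : closedBall (0 : E3) 1 ⊆ bump v θ ε := by
  exact WG1_ball' hε

theorem bump_mono {v : E3} {θ ε ε' : ℝ} (h : ε ≤ ε') : bump v θ ε ⊆ bump v θ ε' := by
  intro x hx
  refine ⟨?_, hx.2⟩
  have h1 := hx.1
  rw [mem_closedBall_zero_iff] at h1 ⊢
  linarith

theorem bump_zero {v : E3} {θ : ℝ} : bump v θ 0 = closedBall (0 : E3) 1 := by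
  refine Set.Subset.antisymm ?_ (WG1_ball' le_rfl)
  intro x hx
  have h1 := hx.1
  rwa [add_zero] at h1

theorem bump_hm {v : E3} (hv : ‖v‖ = 1) {θ ε : ℝ} (h0 : 0 < θ) (h1 : θ < Real.pi / 2) (hε : 0 ≤ ε) :
    bump v θ ε ∩ hm v (Real.cos θ) = closedBall (0 : E3) 1 ∩ hm v (Real.cos θ) := by
  have hcos : 0 < Real.cos θ := Real.cos_pos_of_mem_Ioo ⟨by linarith [Real.pi_pos], h1⟩
  refine Set.Subset.antisymm ?_ (Set.inter_subset_inter_left _ (WG1_ball' hε))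
  rintro x ⟨hx, hxv⟩
  refine ⟨?_, hxv⟩
  rw [mem_closedBall_zero_iff]
  by_contra hcon
  push Not at hcon
  have hpos : 0 < ‖x‖ := by linarith
  have hu : ‖(‖x‖⁻¹ • x)‖ = 1 := by
    rw [norm_smul, norm_inv, norm_norm, inv_mul_cancel₀ hpos.ne']
  have huv : inner ℝ (‖x‖⁻¹ • x) v ≤ Real.cos θ := by
    rw [real_inner_smul_left]
    have hxv' : inner ℝ x v ≤ Real.cos θ := hxv
    rcases le_or_gt 0 (inner ℝ x v) with h | h
    · have h2 : ‖x‖⁻¹ ≤ 1 := inv_le_one_of_one_le₀ hcon.le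
      exact (mul_le_of_le_one_left h h2).trans hxv'
    · have h2 : ‖x‖⁻¹ * inner ℝ x v ≤ 0 :=
        mul_nonpos_of_nonneg_of_nonpos (inv_nonneg.2 hpos.le) h.le
      linarith
  have h3 := hx.2 _ hu huv
  rw [real_inner_smul_right, real_inner_self_eq_norm_sq, sq, ← mul_assoc,
    inv_mul_cancel₀ hpos.ne', one_mul] at h3
  linarith

theorem bump_scale {v : E3} {θ ε ε' : ℝ} (h0 : 0 ≤ ε) (h : ε ≤ ε') {x : E3} (hx : x ∈ bump v θ ε') :
    ((1 + ε') / (1 + ε))⁻¹ • x ∈ bump v θ ε := by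
  have e1 : 0 < 1 + ε := by linarith
  have e2 : 0 < 1 + ε' := by linarith
  have hr : ((1 + ε') / (1 + ε))⁻¹ = (1 + ε) / (1 + ε') := inv_div _ _
  have hr0 : 0 ≤ (1 + ε) / (1 + ε') := by positivity
  have hr1 : (1 + ε) / (1 + ε') ≤ 1 := (div_le_one e2).2 (by linarith)
  rw [hr]
  refine ⟨?_, ?_⟩
  · have h1 := hx.1
    rw [mem_closedBall_zero_iff] at h1 ⊢
    rw [norm_smul, Real.norm_eq_abs, abs_of_nonneg hr0]
    calc (1 + ε) / (1 + ε') * ‖x‖ ≤ (1 + ε) / (1 + ε') * (1 + ε') :=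
          mul_le_mul_of_nonneg_left h1 hr0
      _ = 1 + ε := div_mul_cancel₀ _ e2.ne'
  · intro u hu huv
    rw [real_inner_smul_left]
    calc (1 + ε) / (1 + ε') * inner ℝ x u ≤ (1 + ε) / (1 + ε') * 1 :=
          mul_le_mul_of_nonneg_left (hx.2 u hu huv) hr0
      _ ≤ 1 := by rw [mul_one]; exact hr1

end Pool.Agent.Lib.MP_dabcc9_gtW
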