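import Pool.Agent.Lib.MP_dabcc9_gtW.WG1

/-!
LEAF WG2 (the parallel bodies of the pushed ball). Both for `0 ≤ t`, `0 ≤ ε`.
`thick_sub`: `x ∈ cthickening t (bump)`: `y ∈ bump` with `dist x y ≤ t` (compact), so `‖x‖ ≤ 1 + ε + t`. If `‖x‖ > 1 + t` and `<x, v> ≤ cos θ ‖x‖`: `u = x/‖x‖` is a unit vector
with `<u, v> ≤ cos θ`, so `<y, u> ≤ 1`, `‖x‖ = <x, u> ≤ <y, u> + t ≤ 1 + t`: contradiction.
`sub_thick`: `x` with `‖x‖ ≤ 1 + t` is in `cthickening t (closedBall 0 1)`. If `cos (θ - δ) ‖x‖ ≤ <x, v>`, `1 + t < ‖x‖ ≤ 1 + t + ε`: put `r = min ‖x‖ (1 + ε)`, hence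
`‖x‖ - r ≤ t`, and `y = r • (x/‖x‖)`: `‖y‖ ≤ 1 + ε`, and for a unit vector `u` with `<u, v> ≤ cos θ`: the angle of `u` and `x` is at least `δ`
(`angle u v ≥ θ`, `angle x v ≤ θ - δ`, `InnerProductGeometry.angle_le_angle_add_angle`), so `<y, u> ≤ (1 + ε) cos δ = 1`; `dist x y = ‖x‖ - r ≤ t`.
-/

open MeasureTheory Metric Set Pool.Agent.Lib.MP_dabcc9_gt

namespace Pool.Agent.Lib.MP_dabcc9_gtW

theorem thick_sub {v : E3} (hv : ‖v‖ = 1) {θ ε t : ℝ} (h0 : 0 < θ) (h1 : θ < Real.pi / 2) (hε : 0 ≤ ε)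
    (ht : 0 ≤ t) : cthickening t (bump v θ ε) ⊆
      closedBall 0 (1 + t) ∪ {x : E3 | ‖x‖ ≤ 1 + t + ε ∧ Real.cos θ * ‖x‖ < inner ℝ x v} := by
  intro x hx
  have hb : IsCompact (bump v θ ε) := (bump_body hv hε).1
  rw [hb.cthickening_eq_biUnion_closedBall ht] at hx
  obtain ⟨y, hy, hxy⟩ := mem_iUnion₂.1 hx
  rw [mem_closedBall, dist_eq_norm] at hxy
  have hy1 : ‖y‖ ≤ 1 + ε := by
    have := hy.1
    rwa [mem_closedBall, dist_zero_right] at this
  have hx1 : ‖x‖ ≤ 1 + t + ε := by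
    have h2 : ‖x‖ ≤ ‖x - y‖ + ‖y‖ := by
      calc ‖x‖ = ‖(x - y) + y‖ := by rw [sub_add_cancel]
        _ ≤ _ := norm_add_le _ _
    linarith
  by_cases hxt : ‖x‖ ≤ 1 + t
  · left
    rw [mem_closedBall, dist_zero_right]
    exact hxt
  · right
    refine ⟨hx1, ?_⟩
    by_contra hc
    rw [not_lt] at hc
    rw [not_le] at hxt
    have hpos : 0 < ‖x‖ := by linarith
    have hne : ‖x‖ ≠ 0 := hpos.ne'
    set u : E3 := ‖x‖⁻¹ • x with hu
    have hu1 : ‖u‖ = 1 := by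
      rw [hu, norm_smul, norm_inv, norm_norm, inv_mul_cancel₀ hne]
    have hu2 : inner ℝ u v ≤ Real.cos θ := by
      rw [hu, real_inner_smul_left, inv_mul_le_iff₀ hpos]
      linarith
    have h3 : inner ℝ y u ≤ 1 := hy.2 u hu1 hu2
    have h4 : inner ℝ x u = ‖x‖ := by
      rw [hu, real_inner_smul_right, real_inner_self_eq_norm_sq]
      field_simp
    have h5 : inner ℝ (x - y) u ≤ ‖x - y‖ := by
      have := real_inner_le_norm (x - y) u
      rwa [hu1, mul_one] at this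
    rw [inner_sub_left, h4] at h5
    linarith

private theorem WG2_angle {v x u : E3} (hv : ‖v‖ = 1) (hu : ‖u‖ = 1) (hx : 0 < ‖x‖) {θ δ : ℝ}
    (h1 : θ < Real.pi / 2) (hδ0 : 0 ≤ δ) (hδ : δ < θ)
    (h : Real.cos (θ - δ) * ‖x‖ < inner ℝ x v) (huv : inner ℝ u v ≤ Real.cos θ) :
    inner ℝ x u ≤ ‖x‖ * Real.cos δ := by
  have hpi := Real.pi_pos
  have ha : θ ≤ InnerProductGeometry.angle u v := by
    by_contra hc
    rw [not_le] at hc
    have h2 := Real.cos_lt_cos_of_nonneg_of_le_pi (InnerProductGeometry.angle_nonneg u v)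
      (by linarith) hc
    rw [InnerProductGeometry.cos_angle, hu, hv, mul_one, div_one] at h2
    linarith
  have hb : InnerProductGeometry.angle x v ≤ θ - δ := by
    by_contra hc
    rw [not_le] at hc
    have h2 := Real.cos_lt_cos_of_nonneg_of_le_pi (by linarith)
      (InnerProductGeometry.angle_le_pi x v) hc
    rw [InnerProductGeometry.cos_angle, hv, mul_one, div_lt_iff₀ hx] at h2
    linarith
  have hc : δ ≤ InnerProductGeometry.angle x u := by
    have h3 := InnerProductGeometry.angle_le_angle_add_angle u x v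
    rw [InnerProductGeometry.angle_comm u x] at h3
    linarith
  have hd : Real.cos (InnerProductGeometry.angle x u) ≤ Real.cos δ :=
    Real.cos_le_cos_of_nonneg_of_le_pi hδ0 (InnerProductGeometry.angle_le_pi x u) hc
  rw [InnerProductGeometry.cos_angle, hu, mul_one, div_le_iff₀ hx] at hd
  linarith

theorem sub_thick {v : E3} (hv : ‖v‖ = 1) {θ ε t δ : ℝ} (h1 : θ < Real.pi / 2) (hε : 0 ≤ ε)
    (ht : 0 ≤ t) (hδ0 : 0 ≤ δ) (hδ : δ < θ) (hδε : (1 + ε) * Real.cos δ ≤ 1) :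
    closedBall 0 (1 + t) ∪ {x : E3 | ‖x‖ ≤ 1 + t + ε ∧ Real.cos (θ - δ) * ‖x‖ < inner ℝ x v} ⊆
      cthickening t (bump v θ ε) := by
  have hball : closedBall (0 : E3) (1 + t) ⊆ cthickening t (bump v θ ε) := by
    have h2 := cthickening_closedBall (E := E3) ht zero_le_one 0
    rw [add_comm 1 t, ← h2]
    exact cthickening_subset_of_subset t (ball_sub_bump hε)
  refine union_subset hball ?_
  rintro x ⟨hx1, hx2⟩
  by_cases hxt : ‖x‖ ≤ 1 + t
  · exact hball (by rwa [mem_closedBall, dist_zero_right])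
  rw [not_le] at hxt
  have hpos : 0 < ‖x‖ := by linarith
  have hne : ‖x‖ ≠ 0 := hpos.ne'
  set r : ℝ := min ‖x‖ (1 + ε) with hr
  have hr0 : 0 ≤ r := le_min hpos.le (by linarith)
  have hr1 : r ≤ 1 + ε := min_le_right _ _
  have hr2 : r ≤ ‖x‖ := min_le_left _ _
  have hr3 : ‖x‖ - r ≤ t := by
    rcases min_choice ‖x‖ (1 + ε) with h | h
    · rw [hr, h]
      linarith
    · rw [hr, h]
      linarith
  set y : E3 := (r * ‖x‖⁻¹) • x with hy
  have hcδ : 0 ≤ Real.cos δ := by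
    have hpi := Real.pi_pos
    exact Real.cos_nonneg_of_mem_Icc ⟨by linarith, by linarith⟩
  refine mem_cthickening_of_dist_le x y t _ ⟨?_, ?_⟩ ?_
  · rw [mem_closedBall, dist_zero_right, hy, norm_smul, Real.norm_eq_abs, abs_of_nonneg (by positivity),
      mul_assoc, inv_mul_cancel₀ hne, mul_one]
    exact hr1
  · intro u hu huv
    have h3 := WG2_angle hv hu hpos h1 hδ0 hδ hx2 huv
    rw [hy, real_inner_smul_left]
    have h4 : r * ‖x‖⁻¹ * inner ℝ x u ≤ r * ‖x‖⁻¹ * (‖x‖ * Real.cos δ) :=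
      mul_le_mul_of_nonneg_left h3 (by positivity)
    have h5 : r * ‖x‖⁻¹ * (‖x‖ * Real.cos δ) = r * Real.cos δ := by
      field_simp
    have h6 : r * Real.cos δ ≤ (1 + ε) * Real.cos δ := mul_le_mul_of_nonneg_right hr1 hcδ
    linarith
  · have h7 : x - y = (1 - r * ‖x‖⁻¹) • x := by
      rw [hy, sub_smul, one_smul]
    have h8 : 0 ≤ 1 - r * ‖x‖⁻¹ := by
      rw [sub_nonneg, ← div_eq_mul_inv, div_le_one hpos]
      exact hr2
    rw [dist_eq_norm, h7, norm_smul, Real.norm_eq_abs, abs_of_nonneg h8]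
    have h9 : (1 - r * ‖x‖⁻¹) * ‖x‖ = ‖x‖ - r := by
      field_simp
    rw [h9]
    exact hr3

end Pool.Agent.Lib.MP_dabcc9_gtW
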