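import Pool.Agent.Lib.MP_dabcc9_gtW.WDefs
import Pool.Agent.Lib.MP_dabcc9_gt.McD

/-!
LEAF WG3 (volume of a ball with a sector of larger radius). The set is the disjoint union of `closedBall 0 r` and
`{r < ‖x‖ ≤ R', c ‖x‖ < <x, v>}`; the latter is `E R' \ E r` with `E R = {‖x‖ ≤ R, c ‖x‖ < <x, v>}`, and
`vol (E R) = (2π/3) R³ (1 - c)`: `E R = closedBall 0 R \ {‖x‖ ≤ R, <x, v> ≤ c ‖x‖}`, after a rotation (`exists_iso`, `vol_iso`) and scaling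
(`CapB_scale`) from `vol_sector` (file CapB, see its use in McD: `vol {‖x‖ ≤ 1, x 2 ≤ c ‖x‖} = 2π/3 (1 + c)`, `0 ≤ c ≤ 1`).
-/

open MeasureTheory Metric Set Pool.Agent.Lib.MP_dabcc9_gt

namespace Pool.Agent.Lib.MP_dabcc9_gtW

private theorem WG3_ball (r : ℝ) (hr : 0 ≤ r) :
    volume.real (closedBall (0 : E3) r) = 4 * Real.pi / 3 * r ^ 3 := by
  have h1 : volume (closedBall (0 : E3) r) = ENNReal.ofReal (r ^ 3) * volume (closedBall (0 : E3) 1) := by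
    have := Measure.addHaar_closedBall_mul (volume : Measure E3) 0 hr (zero_le_one : (0 : ℝ) ≤ 1)
    rw [mul_one] at this
    rw [this, finrank_euclideanSpace_fin]
  have h2 : volume.real (closedBall (0 : E3) 1) = 4 * Real.pi / 3 := vol_unit_ball
  rw [measureReal_def] at h2 ⊢
  rw [h1, ENNReal.toReal_mul, h2, ENNReal.toReal_ofReal (by positivity)]
  ring

private theorem WG3_eb (y : E3) : inner ℝ y (eb 2) = y 2 := by
  rw [inner_eq3]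
  simp [eb]

theorem vol_ball_sector {v : E3} (hv : ‖v‖ = 1) {c r R' : ℝ} (hc0 : 0 ≤ c) (hc1 : c ≤ 1) (hr : 0 < r) (hR : r ≤ R') :
    vol (closedBall 0 r ∪ {x : E3 | ‖x‖ ≤ R' ∧ c * ‖x‖ < inner ℝ x v}) =
      4 * Real.pi / 3 * r ^ 3 + 2 * Real.pi / 3 * (1 - c) * (R' ^ 3 - r ^ 3) := by
  obtain ⟨R, hRv⟩ := exists_iso v hv
  have hset : closedBall 0 r ∪ {x : E3 | ‖x‖ ≤ R' ∧ c * ‖x‖ < inner ℝ x v} =
      R '' (closedBall (0 : E3) R' \ ({x : E3 | ‖x‖ ≤ R' ∧ x 2 ≤ c * ‖x‖} \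
        {x : E3 | ‖x‖ ≤ r ∧ x 2 ≤ c * ‖x‖})) := by
    ext x
    obtain ⟨y, rfl⟩ := R.surjective x
    have h1 : inner ℝ (R y) v = y 2 := by
      rw [← hRv, LinearIsometryEquiv.inner_map_map, WG3_eb]
    have h2 : ‖R y‖ = ‖y‖ := R.norm_map y
    rw [R.injective.mem_set_image, Set.mem_union, mem_closedBall, dist_zero_right, Set.mem_sdiff,
      Set.mem_sdiff, mem_closedBall, dist_zero_right, Set.mem_ofPred_eq, Set.mem_ofPred_eq,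
      Set.mem_ofPred_eq, h1, h2]
    constructor
    · rintro (h3 | ⟨h3, h4⟩)
      · exact ⟨h3.trans hR, fun h5 => h5.2 ⟨h3, h5.1.2⟩⟩
      · exact ⟨h3, fun h5 => absurd h5.1.2 (not_le.2 h4)⟩
    · rintro ⟨h3, h4⟩
      by_cases h5 : ‖y‖ ≤ r
      · exact Or.inl h5
      · refine Or.inr ⟨h3, ?_⟩
        by_contra h6
        exact h4 ⟨⟨h3, not_lt.1 h6⟩, fun h7 => h5 h7.1⟩
  rw [hset, vol_iso]
  have hR0 : 0 < R' := hr.trans_le hR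
  have hT : ∀ ρ : ℝ, 0 < ρ → volume.real {x : E3 | ‖x‖ ≤ ρ ∧ x 2 ≤ c * ‖x‖} =
      ρ ^ 3 * (2 * Real.pi / 3 * (1 + c)) := fun ρ hρ => by
    rw [CapB_scale c ρ hρ, vol_sector c hc0 hc1]
  have hsub : {x : E3 | ‖x‖ ≤ r ∧ x 2 ≤ c * ‖x‖} ⊆ {x : E3 | ‖x‖ ≤ R' ∧ x 2 ≤ c * ‖x‖} :=
    fun x hx => ⟨hx.1.trans hR, hx.2⟩
  have hsub2 : ({x : E3 | ‖x‖ ≤ R' ∧ x 2 ≤ c * ‖x‖} \ {x : E3 | ‖x‖ ≤ r ∧ x 2 ≤ c * ‖x‖}) ⊆
      closedBall (0 : E3) R' := by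
    intro x hx
    rw [mem_closedBall, dist_zero_right]
    exact hx.1.1
  have hfn : volume {x : E3 | ‖x‖ ≤ R' ∧ x 2 ≤ c * ‖x‖} ≠ ⊤ := CapB_bdd (R := R') fun x hx => hx.1
  have hfb : volume (closedBall (0 : E3) R') ≠ ⊤ := (Metric.isBounded_closedBall.measure_lt_top).ne
  have hm1 := (CapB_closed c r).measurableSet
  have hm2 := ((CapB_closed c R').measurableSet).diff hm1
  have h3 : volume.real (closedBall (0 : E3) R' \ ({x : E3 | ‖x‖ ≤ R' ∧ x 2 ≤ c * ‖x‖} \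
        {x : E3 | ‖x‖ ≤ r ∧ x 2 ≤ c * ‖x‖})) =
      4 * Real.pi / 3 * R' ^ 3 - (R' ^ 3 * (2 * Real.pi / 3 * (1 + c)) - r ^ 3 * (2 * Real.pi / 3 * (1 + c))) := by
    rw [measureReal_sdiff hsub2 hm2 hfb, measureReal_sdiff hsub hm1 hfn, hT R' hR0, hT r hr,
      WG3_ball R' hR0.le]
  show volume.real _ = _
  rw [h3]
  ring

end Pool.Agent.Lib.MP_dabcc9_gtW
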