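import Pool.Agent.Lib.MP_dabcc9_gtW.WA
import Pool.Agent.Lib.MP_dabcc9_gtW.WG2
import Pool.Agent.Lib.MP_dabcc9_gtW.WG3

/-!
LEAF WG4 (derivative of the parallel volumes at `ε = 0`). Upper bound (`thick_sub`, `vol_ball_sector`, `c = cos θ`, `r = 1 + t`, `R' = 1 + t + ε`):
`FT t (bump) ≤ 4π/3 (1+t)³ + 2π/3 (1 - cos θ)((1+t+ε)³ - (1+t)³)`; lower bound with `cos (θ - δ)` where `δ = δ(ε) = arccos (1/(1+ε)) → 0` (`δ < θ` for small `ε`).
Both bounds agree with `FT t (bump v θ 0) = 4π/3 (1+t)³` at `ε = 0`; squeeze of the slopes as in the proof of `surf_mcap` (file McE): slope of the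
lower bound `= 2π/3 (1 - cos (θ - δ(ε))) ((1+t+ε)³ - (1+t)³)/ε → 2π (1 - cos θ)(1+t)²`.
-/

open MeasureTheory Metric Set Filter Topology Pool.Agent.Lib.MP_dabcc9_gt

namespace Pool.Agent.Lib.MP_dabcc9_gtW

private theorem WG4_bdd {v : E3} {c t ε : ℝ} (hε : 0 ≤ ε) (x : E3)
    (hx : x ∈ closedBall (0 : E3) (1 + t) ∪ {x : E3 | ‖x‖ ≤ 1 + t + ε ∧ c * ‖x‖ < inner ℝ x v}) :
    ‖x‖ ≤ 1 + t + ε := by
  rcases hx with hx | hx
  · rw [mem_closedBall_zero_iff] at hx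
    linarith
  · exact hx.1

theorem deriv_FT {v : E3} (hv : ‖v‖ = 1) {θ t : ℝ} (h0 : 0 < θ) (h1 : θ < Real.pi / 2) (ht : 0 ≤ t) :
    HasDerivWithinAt (fun ε => FT t (bump v θ ε)) (2 * Real.pi * (1 - Real.cos θ) * (1 + t) ^ 2) (Ici 0) 0 := by
  set F : ℝ → ℝ := fun ε => FT t (bump v θ ε) with hF
  set C : ℝ := 4 * Real.pi / 3 * (1 + t) ^ 3 with hC
  set b : ℝ → ℝ := fun ε => (1 + t + ε) ^ 3 - (1 + t) ^ 3 with hb
  set H : ℝ → ℝ := fun ε => C + 2 * Real.pi / 3 * (1 - Real.cos θ) * b ε with hH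
  set δ : ℝ → ℝ := fun ε => Real.arccos (1 + ε)⁻¹ with hδ
  set G : ℝ → ℝ := fun ε => C + 2 * Real.pi / 3 * (1 - Real.cos (θ - δ ε)) * b ε with hG
  have hpi := Real.pi_pos
  have hb0 : b 0 = 0 := by
    simp only [hb]
    ring
  have hG0 : G 0 = C := by
    simp only [hG, hb0]
    ring
  have hH0 : H 0 = C := by
    simp only [hH, hb0]
    ring
  have hF0 : F 0 = C := by
    simp only [hF]
    rw [bump_zero]
    exact ball_vals.2.2.2.2 t ht
  have hbd : HasDerivAt b (3 * (1 + t) ^ 2) 0 :=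
    ((((hasDerivAt_id (0 : ℝ)).const_add (1 + t)).pow 3).sub_const ((1 + t) ^ 3)).congr_deriv (by simp)
  have hHd : HasDerivAt H (2 * Real.pi * (1 - Real.cos θ) * (1 + t) ^ 2) 0 := by
    refine ((hbd.const_mul (2 * Real.pi / 3 * (1 - Real.cos θ))).const_add C).congr_deriv ?_
    ring
  have hδ0 : Tendsto δ (𝓝[>] (0 : ℝ)) (𝓝 0) := by
    have e1 : ContinuousAt δ 0 := by
      refine Real.continuous_arccos.continuousAt.comp ?_
      exact ContinuousAt.inv₀ (by fun_prop) (by norm_num)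
    have e2 : δ 0 = 0 := by
      simp [hδ]
    have e3 : Tendsto δ (𝓝 (0 : ℝ)) (𝓝 (δ 0)) := e1
    rw [e2] at e3
    exact e3.mono_left nhdsWithin_le_nhds
  have hFH : ∀ ε, 0 ≤ ε → F ε ≤ H ε := by
    intro ε hε
    have hc0 : 0 ≤ Real.cos θ := (Real.cos_pos_of_mem_Ioo ⟨by linarith, h1⟩).le
    have e1 := vol_ball_sector hv hc0 (Real.cos_le_one θ) (by linarith : (0 : ℝ) < 1 + t)
      (by linarith : 1 + t ≤ 1 + t + ε)
    have e2 : F ε ≤ vol (closedBall 0 (1 + t) ∪ {x : E3 | ‖x‖ ≤ 1 + t + ε ∧ Real.cos θ * ‖x‖ < inner ℝ x v}) :=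
      ENNReal.toReal_mono (CapB_bdd (R := 1 + t + ε) (WG4_bdd hε)) (measure_mono (thick_sub hv h0 h1 hε ht))
    exact e2.trans (le_of_eq e1)
  have hGF : ∀ᶠ ε in 𝓝[>] (0 : ℝ), G ε ≤ F ε := by
    filter_upwards [self_mem_nhdsWithin, hδ0.eventually_lt_const h0] with ε hε hεθ
    have hε0 : (0 : ℝ) < ε := hε
    have g1 : 0 ≤ δ ε := Real.arccos_nonneg _
    have g2 : (1 + ε) * Real.cos (δ ε) ≤ 1 := by
      have g3 : (0 : ℝ) < (1 + ε)⁻¹ := by positivity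
      have g4 : (1 + ε)⁻¹ ≤ 1 := inv_le_one_of_one_le₀ (by linarith)
      simp only [hδ]
      rw [Real.cos_arccos (by linarith) g4, mul_inv_cancel₀ (by linarith)]
    have hc0 : 0 ≤ Real.cos (θ - δ ε) :=
      (Real.cos_pos_of_mem_Ioo ⟨by linarith, by linarith⟩).le
    have e1 := vol_ball_sector hv hc0 (Real.cos_le_one _) (by linarith : (0 : ℝ) < 1 + t)
      (by linarith : 1 + t ≤ 1 + t + ε)
    have e3 : volume (cthickening t (bump v θ ε)) ≠ ⊤ :=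
      CapB_bdd (R := 1 + t + ε) fun x hx => WG4_bdd hε0.le x (thick_sub hv h0 h1 hε0.le ht hx)
    have e2 : vol (closedBall 0 (1 + t) ∪
        {x : E3 | ‖x‖ ≤ 1 + t + ε ∧ Real.cos (θ - δ ε) * ‖x‖ < inner ℝ x v}) ≤ F ε :=
      ENNReal.toReal_mono e3 (measure_mono (sub_thick hv h1 hε0.le ht g1 hεθ g2))
    exact (le_of_eq e1.symm).trans e2
  have hset : (Ici (0 : ℝ)) \ {0} = Ioi 0 := by
    ext x
    simp only [Set.mem_sdiff, Set.mem_Ici, Set.mem_singleton_iff, Set.mem_Ioi]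
    constructor
    · rintro ⟨ha, hb⟩
      exact lt_of_le_of_ne ha (Ne.symm hb)
    · intro hx
      exact ⟨hx.le, hx.ne'⟩
  have hHw := hHd.hasDerivWithinAt (s := Ici 0)
  rw [hasDerivWithinAt_iff_tendsto_slope, hset] at hHw
  have hbw := hbd.hasDerivWithinAt (s := Ici 0)
  rw [hasDerivWithinAt_iff_tendsto_slope, hset] at hbw
  have hGw : Tendsto (slope G 0) (𝓝[>] (0 : ℝ)) (𝓝 (2 * Real.pi * (1 - Real.cos θ) * (1 + t) ^ 2)) := by
    have e1 : slope G 0 = fun ε => 2 * Real.pi / 3 * (1 - Real.cos (θ - δ ε)) * slope b 0 ε := by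
      funext ε
      rw [slope_def_field, slope_def_field, hG0, hb0]
      simp only [hG]
      ring
    have e2 : Tendsto (fun ε => 2 * Real.pi / 3 * (1 - Real.cos (θ - δ ε))) (𝓝[>] (0 : ℝ))
        (𝓝 (2 * Real.pi / 3 * (1 - Real.cos (θ - 0)))) := by
      refine Tendsto.const_mul _ (Tendsto.const_sub _ ?_)
      exact (Real.continuous_cos.tendsto _).comp (Tendsto.const_sub _ hδ0)
    rw [e1]
    have e3 := e2.mul hbw
    have e4 : 2 * Real.pi / 3 * (1 - Real.cos (θ - 0)) * (3 * (1 + t) ^ 2) =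
        2 * Real.pi * (1 - Real.cos θ) * (1 + t) ^ 2 := by
      rw [sub_zero]
      ring
    rw [e4] at e3
    exact e3
  rw [hasDerivWithinAt_iff_tendsto_slope, hset]
  refine tendsto_of_tendsto_of_tendsto_of_le_of_le' hGw hHw ?_ ?_
  · filter_upwards [self_mem_nhdsWithin, hGF] with ε hε hle
    have hε' : (0 : ℝ) < ε := hε
    rw [slope_def_field, slope_def_field, hG0, hF0]
    gcongr
  · filter_upwards [self_mem_nhdsWithin] with ε hε
    have hε' : (0 : ℝ) < ε := hε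
    rw [slope_def_field, slope_def_field, hH0, hF0]
    have := hFH ε hε'.le
    gcongr

end Pool.Agent.Lib.MP_dabcc9_gtW
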