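import Pool.Agent.Lib.MP_dabcc9_gtW.WG1

/-!
LEAF WG5 (continuity of the parallel volumes in `ε`). For `0 ≤ ε ≤ ε'`: `FT t (bump ε) ≤ FT t (bump ε') ≤ r³ FT t (bump ε)`, `r = (1+ε')/(1+ε)`:
`bump_mono`; for `x ∈ cthickening t (bump ε')`: `r⁻¹ • x ∈ cthickening t (bump ε)` (`bump_scale`, distances are multiplied by `r⁻¹ ≤ 1`), so
`cthickening t (bump ε') ⊆ r • cthickening t (bump ε)` and `Measure.addHaar_smul`. Hence
`|FT t (bump ε') - FT t (bump ε)| ≤ (r³ - 1) FT t (bump 1) → 0`.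
-/

open MeasureTheory Metric Set Filter Topology Pool.Agent.Lib.MP_dabcc9_gt

namespace Pool.Agent.Lib.MP_dabcc9_gtW

private theorem wg5_bdd (v : E3) (θ t ε : ℝ) : Bornology.IsBounded (cthickening t (bump v θ ε)) :=
  (isBounded_closedBall.subset (inter_subset_left : bump v θ ε ⊆ closedBall 0 (1 + ε))).cthickening

private theorem wg5_fin (v : E3) (θ t ε : ℝ) : volume (cthickening t (bump v θ ε)) ≠ ⊤ :=
  (wg5_bdd v θ t ε).measure_lt_top.ne

theorem FT_mono {v : E3} {θ t ε ε' : ℝ} (h0 : 0 ≤ ε) (h : ε ≤ ε') :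
    FT t (bump v θ ε) ≤ FT t (bump v θ ε') :=
  ENNReal.toReal_mono (wg5_fin v θ t ε') (measure_mono (cthickening_subset_of_subset t (bump_mono h)))

open scoped Pointwise in
private theorem wg5_scale {v : E3} (hv : ‖v‖ = 1) {θ t : ℝ} (ht : 0 ≤ t) {ε ε' : ℝ} (h0 : 0 ≤ ε) (h : ε ≤ ε') :
    FT t (bump v θ ε') * (1 + ε) ^ 3 ≤ FT t (bump v θ ε) * (1 + ε') ^ 3 := by
  set r : ℝ := (1 + ε') / (1 + ε) with hr
  have hp : 0 < 1 + ε := by linarith
  have hp' : 0 < 1 + ε' := by linarith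
  have hr1 : 1 ≤ r := by rw [hr, one_le_div hp]; linarith
  have hr0 : 0 < r := by linarith
  have hcomp : IsCompact (bump v θ ε') := (bump_body hv (h0.trans h)).1
  have hsub : cthickening t (bump v θ ε') ⊆ r • cthickening t (bump v θ ε) := by
    intro x hx
    rw [hcomp.cthickening_eq_biUnion_closedBall ht] at hx
    obtain ⟨y, hy, hxy⟩ := mem_iUnion₂.1 hx
    rw [mem_smul_set_iff_inv_smul_mem₀ hr0.ne']
    refine mem_cthickening_of_dist_le (r⁻¹ • x) (r⁻¹ • y) t _ (bump_scale h0 h hy) ?_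
    rw [dist_smul₀, Real.norm_of_nonneg (inv_nonneg.2 hr0.le)]
    rw [mem_closedBall] at hxy
    have h1 : r⁻¹ ≤ 1 := inv_le_one_of_one_le₀ hr1
    calc r⁻¹ * dist x y ≤ 1 * dist x y := mul_le_mul_of_nonneg_right h1 dist_nonneg
      _ ≤ t := by rw [one_mul]; exact hxy
  have h2 : FT t (bump v θ ε') ≤ r ^ 3 * FT t (bump v θ ε) := by
    have h3 := measure_mono (μ := volume) hsub
    rw [Measure.addHaar_smul] at h3
    have h4 : Module.finrank ℝ E3 = 3 := by simp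
    rw [h4, abs_of_pos (pow_pos hr0 3)] at h3
    have h5 := ENNReal.toReal_mono (ENNReal.mul_ne_top ENNReal.ofReal_ne_top (wg5_fin v θ t ε)) h3
    rw [ENNReal.toReal_mul, ENNReal.toReal_ofReal (pow_pos hr0 3).le] at h5
    exact h5
  calc FT t (bump v θ ε') * (1 + ε) ^ 3 ≤ r ^ 3 * FT t (bump v θ ε) * (1 + ε) ^ 3 :=
        mul_le_mul_of_nonneg_right h2 (pow_pos hp 3).le
    _ = FT t (bump v θ ε) * (1 + ε') ^ 3 := by
        rw [hr, div_pow]
        field_simp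

private theorem wg5_le {v : E3} (hv : ‖v‖ = 1) {θ t : ℝ} (ht : 0 ≤ t) {ε ε' : ℝ} (h0 : 0 ≤ ε) (h : ε ≤ ε') (h1 : ε' ≤ 1) :
    |FT t (bump v θ ε') - FT t (bump v θ ε)| ≤ FT t (bump v θ 1) * |(1 + ε') ^ 3 - (1 + ε) ^ 3| := by
  have e1 := FT_mono (v := v) (θ := θ) (t := t) h0 h
  have e2 := wg5_scale hv (θ := θ) ht h0 h
  have e3 : FT t (bump v θ ε) ≤ FT t (bump v θ 1) := FT_mono h0 (h.trans h1)
  have e4 : 0 ≤ FT t (bump v θ ε) := ENNReal.toReal_nonneg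
  have e5 : (1 : ℝ) ≤ (1 + ε) ^ 3 := one_le_pow₀ (by linarith)
  have e6 : (1 + ε) ^ 3 ≤ (1 + ε') ^ 3 := pow_le_pow_left₀ (by linarith) (by linarith) 3
  rw [abs_of_nonneg (by linarith), abs_of_nonneg (by linarith)]
  have e7 : (FT t (bump v θ ε') - FT t (bump v θ ε)) * (1 + ε) ^ 3 ≤
      FT t (bump v θ ε) * ((1 + ε') ^ 3 - (1 + ε) ^ 3) := by
    calc (FT t (bump v θ ε') - FT t (bump v θ ε)) * (1 + ε) ^ 3 =
        FT t (bump v θ ε') * (1 + ε) ^ 3 - FT t (bump v θ ε) * (1 + ε) ^ 3 := by ring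
      _ ≤ FT t (bump v θ ε) * (1 + ε') ^ 3 - FT t (bump v θ ε) * (1 + ε) ^ 3 := by linarith
      _ = _ := by ring
  calc FT t (bump v θ ε') - FT t (bump v θ ε) = (FT t (bump v θ ε') - FT t (bump v θ ε)) * 1 := (mul_one _).symm
    _ ≤ (FT t (bump v θ ε') - FT t (bump v θ ε)) * (1 + ε) ^ 3 := mul_le_mul_of_nonneg_left e5 (by linarith)
    _ ≤ FT t (bump v θ ε) * ((1 + ε') ^ 3 - (1 + ε) ^ 3) := e7
    _ ≤ FT t (bump v θ 1) * ((1 + ε') ^ 3 - (1 + ε) ^ 3) := mul_le_mul_of_nonneg_right e3 (by linarith)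

theorem cont_FT {v : E3} (hv : ‖v‖ = 1) {θ t : ℝ} (ht : 0 ≤ t) :
    ContinuousOn (fun ε => FT t (bump v θ ε)) (Icc 0 1) := by
  intro a ha
  have hdom : ∀ b ∈ Icc (0 : ℝ) 1, |FT t (bump v θ b) - FT t (bump v θ a)| ≤
      FT t (bump v θ 1) * |(1 + b) ^ 3 - (1 + a) ^ 3| := by
    intro b hb
    rcases le_total a b with h | h
    · exact wg5_le hv ht ha.1 h hb.2
    · have h1 := wg5_le hv (θ := θ) ht hb.1 h ha.2
      rwa [abs_sub_comm, abs_sub_comm ((1 + a) ^ 3)] at h1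
  have hlim : Tendsto (fun b : ℝ => FT t (bump v θ 1) * |(1 + b) ^ 3 - (1 + a) ^ 3|) (𝓝[Icc 0 1] a) (𝓝 0) := by
    have hc : Continuous fun b : ℝ => FT t (bump v θ 1) * |(1 + b) ^ 3 - (1 + a) ^ 3| := by fun_prop
    have h1 := (hc.tendsto a).mono_left (nhdsWithin_le_nhds (s := Icc (0 : ℝ) 1))
    have h2 : FT t (bump v θ 1) * |(1 + a) ^ 3 - (1 + a) ^ 3| = 0 := by rw [sub_self, abs_zero, mul_zero]
    rwa [h2] at h1
  show Tendsto (fun ε => FT t (bump v θ ε)) (𝓝[Icc 0 1] a) (𝓝 (FT t (bump v θ a)))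
  rw [tendsto_iff_norm_sub_tendsto_zero]
  refine squeeze_zero' (Eventually.of_forall fun _ => norm_nonneg _) ?_ hlim
  filter_upwards [self_mem_nhdsWithin] with b hb
  rw [Real.norm_eq_abs]
  exact hdom b hb

end Pool.Agent.Lib.MP_dabcc9_gtW
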