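import Pool.Agent.Lib.MP_dabcc9_gtW.WA
import Pool.Agent.Lib.MP_dabcc9_gtW.WG4
import Pool.Agent.Lib.MP_dabcc9_gtW.WG5

/-!
LEAF WG6 (the three functions of `ε`). `lin_rel` for `bump v θ ε` (`bump_body`) writes `vN, mN, sN` of the pushed ball as affine functions of `FT 0, FT 1, FT 2`
for `ε ≥ 0` (use `HasDerivWithinAt.congr`, `ContinuousOn.congr`). Derivatives, `w = (1 - cos θ)/2`, from `4π w (1+t)²`:
`vN' = 3 * 4π w/(4π) = 3 w`; `mN' = 4π w (9 - 8 + 1)/(8π) = w`; `sN' = (4 - 1) w - w = 2 w`.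
Monotone: `vN` by `FT_mono` with `t = 0`; `mN`: `supp` is monotone in the body (`bump_mono`, `supp_props`), `av_mono`.
-/

open MeasureTheory Metric Set Filter Topology Pool.Agent.Lib.MP_dabcc9_gt

namespace Pool.Agent.Lib.MP_dabcc9_gtW

private theorem WG6_m {v : E3} (hv : ‖v‖ = 1) {θ ε : ℝ} (hε : 0 ≤ ε) :
    mN (bump v θ ε) = (FT 2 (bump v θ ε) - 2 * FT 1 (bump v θ ε) + FT 0 (bump v θ ε)) / (8 * Real.pi) - 1 :=
  (lin_rel (bump_body hv hε)).2.1

private theorem WG6_v {v : E3} (hv : ‖v‖ = 1) {θ ε : ℝ} (hε : 0 ≤ ε) :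
    vN (bump v θ ε) = 3 * FT 0 (bump v θ ε) / (4 * Real.pi) :=
  (lin_rel (bump_body hv hε)).1

private theorem WG6_s {v : E3} (hv : ‖v‖ = 1) {θ ε : ℝ} (hε : 0 ≤ ε) :
    sN (bump v θ ε) = (FT 1 (bump v θ ε) - FT 0 (bump v θ ε)) / (4 * Real.pi) -
      ((FT 2 (bump v θ ε) - 2 * FT 1 (bump v θ ε) + FT 0 (bump v θ ε)) / (8 * Real.pi) - 1) - 1 / 3 := by
  rw [(lin_rel (bump_body hv hε)).2.2.1, WG6_m hv hε]

theorem bump_deriv {v : E3} (hv : ‖v‖ = 1) {θ : ℝ} (h0 : 0 < θ) (h1 : θ < Real.pi / 2) :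
    HasDerivWithinAt (fun ε => sN (bump v θ ε)) (2 * ((1 - Real.cos θ) / 2)) (Ici 0) 0 ∧
    HasDerivWithinAt (fun ε => mN (bump v θ ε)) ((1 - Real.cos θ) / 2) (Ici 0) 0 ∧
    HasDerivWithinAt (fun ε => vN (bump v θ ε)) (3 * ((1 - Real.cos θ) / 2)) (Ici 0) 0 := by
  have hpi := Real.pi_pos
  have d0 := deriv_FT hv h0 h1 (le_refl (0 : ℝ))
  have d1 := deriv_FT hv h0 h1 (zero_le_one (α := ℝ))
  have d2 := deriv_FT hv h0 h1 (zero_le_two (α := ℝ))
  have em := (((d2.fun_sub (d1.const_mul 2)).fun_add d0).div_const (8 * Real.pi)).sub_const 1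
  have ev := (d0.const_mul 3).div_const (4 * Real.pi)
  have es := ((((d1.fun_sub d0).div_const (4 * Real.pi)).fun_sub em).sub_const (1 / 3))
  refine ⟨?_, ?_, ?_⟩
  · refine HasDerivWithinAt.congr_deriv (HasDerivWithinAt.congr es (fun ε hε => WG6_s hv hε)
      (WG6_s hv (le_refl _))) ?_
    field_simp
    ring
  · refine HasDerivWithinAt.congr_deriv (HasDerivWithinAt.congr em (fun ε hε => WG6_m hv hε)
      (WG6_m hv (le_refl _))) ?_
    field_simp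
    ring
  · refine HasDerivWithinAt.congr_deriv (HasDerivWithinAt.congr ev (fun ε hε => WG6_v hv hε)
      (WG6_v hv (le_refl _))) ?_
    field_simp
    ring

theorem bump_cont {v : E3} (hv : ‖v‖ = 1) {θ : ℝ} :
    ContinuousOn (fun ε => sN (bump v θ ε)) (Icc 0 1) ∧
    ContinuousOn (fun ε => mN (bump v θ ε)) (Icc 0 1) ∧
    MonotoneOn (fun ε => mN (bump v θ ε)) (Icc 0 1) ∧
    MonotoneOn (fun ε => vN (bump v θ ε)) (Icc 0 1) := by
  have hpi := Real.pi_pos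
  have c0 := cont_FT (θ := θ) hv (le_refl (0 : ℝ))
  have c1 := cont_FT (θ := θ) hv (zero_le_one (α := ℝ))
  have c2 := cont_FT (θ := θ) hv (zero_le_two (α := ℝ))
  have em := (((c2.fun_sub (c1.const_mul 2)).fun_add c0).div_const (8 * Real.pi)).fun_sub
    (continuousOn_const (c := (1 : ℝ)))
  have es := ((((c1.fun_sub c0).div_const (4 * Real.pi)).fun_sub em).fun_sub
    (continuousOn_const (c := (1 / 3 : ℝ))))
  refine ⟨es.congr fun ε hε => WG6_s hv hε.1, em.congr fun ε hε => WG6_m hv hε.1, ?_, ?_⟩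
  · intro ε hε ε' hε' h
    have b := bump_body (θ := θ) hv hε.1
    have b' := bump_body (θ := θ) hv hε'.1
    obtain ⟨-, s2, -, -, sc⟩ := supp_props b.1 b.2.2.nonempty
    obtain ⟨t1, -, -, -, tc⟩ := supp_props b'.1 b'.2.2.nonempty
    refine av_mono sc.continuousOn tc.continuousOn fun x _ => ?_
    obtain ⟨y, hy, hxy⟩ := s2 x
    rw [hxy]
    exact t1 y (bump_mono h hy) x
  · intro ε hε ε' hε' h
    show vN (bump v θ ε) ≤ vN (bump v θ ε')
    rw [WG6_v hv hε.1, WG6_v hv hε'.1]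
    have h1 := FT_mono (v := v) (θ := θ) (t := 0) hε.1 h
    gcongr

end Pool.Agent.Lib.MP_dabcc9_gtW
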