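import Pool.Agent.Lib.MP_dabcc9_gtW.WA
import Pool.Agent.Lib.MP_dabcc9_gtU.UDefs
import Pool.Agent.Lib.MP_dabcc9_gt.DcU

/-!
LEAF WH (the ball with one cap cut off). `cap1 v c = mcap (fun _ : Fin 1 => v) c` (files McA, McB, McC, McE), `Sep` is trivial for one vector; `mcap_body`,
`av_supp_mcap`, `vol_mcap`, `surf_mcap` with `N = 1`, `av_supp_capB'` (file DcU), `2 - 3 c + c³ = (1-c)² (2+c)`. See `McF` and `UF`.
-/

open MeasureTheory Metric Set Pool.Agent.Lib.MP_dabcc9_gt Pool.Agent.Lib.MP_dabcc9_gtU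

namespace Pool.Agent.Lib.MP_dabcc9_gtW

private theorem WH_mcap (v : E3) (c : ℝ) : cap1 v c = mcap (fun _ : Fin 1 => v) c := by
  ext x
  constructor
  · intro h
    exact ⟨h.1, fun _ => h.2⟩
  · intro h
    exact ⟨h.1, h.2 0⟩

theorem cap_vals {v : E3} (hv : ‖v‖ = 1) {T : ℝ} (h0 : 0 < T) (h1 : T < Real.pi / 2) :
    IsBody (cap1 v (Real.cos T)) ∧ sN (cap1 v (Real.cos T)) = 1 - sA T ∧
      mN (cap1 v (Real.cos T)) = 1 - mA T ∧ vN (cap1 v (Real.cos T)) = 1 - vA T := by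
  have hpi := Real.pi_pos
  have hc0 : 0 < Real.cos T := Real.cos_pos_of_mem_Ioo ⟨by linarith, h1⟩
  have hc1 : Real.cos T < 1 := by
    rw [← Real.cos_zero]
    exact Real.cos_lt_cos_of_nonneg_of_le_pi le_rfl (by linarith) h0
  have hS : Sep (fun _ : Fin 1 => v) (Real.cos T) := by
    refine ⟨fun _ => hv, fun i j hij => ?_⟩
    exact absurd (Subsingleton.elim i j) hij
  have hp : 4 * Real.pi ≠ 0 := by positivity
  rw [WH_mcap]
  refine ⟨mcap_body hS hc0 hc1.le, ?_, ?_, ?_⟩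
  · unfold sN sA
    rw [surf_mcap hS hc0 hc1, div_eq_iff hp]
    push_cast
    ring
  · unfold mN mA
    rw [av_supp_mcap hS hc0 hc1.le, av_supp_capB' T h0 h1]
    push_cast
    ring
  · unfold vN vA
    rw [vol_mcap hS hc0.le hc1.le, div_eq_iff hp]
    push_cast
    ring

end Pool.Agent.Lib.MP_dabcc9_gtW
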