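import Pool.Agent.Lib.MP_dabcc9_gtW.WDefs
import Mathlib.Geometry.Euclidean.Angle.Unoriented.TriangleInequality

/-!
LEAF WI (geometry of caps).
`solid`: `⊆` clear (`K ⊆ closedBall 0 1`). `⊇`: `‖x‖ ≤ 1`, `cos τ ≤ <x, v>`; take a unit vector `w` orthogonal to `v` (exists in `E3`), the chord `x + s w` meets the unit
sphere for some `s₁ ≤ 0 ≤ s₂` (intermediate value theorem or the quadratic formula), both endpoints have the same product with `v`, so they are in `K` by `SphCap`, and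
`x` is between them.
`two_caps`: `v₁ = cos (2τ/3) v + sin (2τ/3) w` with a unit vector `w ⊥ v`; `angle v v₁ = 2τ/3`. If `‖y‖ = 1`, `<y, v₁> ≥ cos T` then `angle y v₁ ≤ T ≤ τ/6`, so
`angle y v ≤ 2τ/3 + τ/6 ≤ τ` (`InnerProductGeometry.angle_le_angle_add_angle`). If `‖x‖ ≤ 1`, `<x, v> ≥ cos (τ/3) > 0` then `angle x v ≤ τ/3`, so
`angle x v₁ ≥ 2τ/3 - τ/3 = τ/3 > T`, so `<x, v₁> ≤ ‖x‖ cos T ≤ cos T`.
`exists_cap`: `y₀ ∈ U ∩ sphere`, `U` open: a ball `ball y₀ r ⊆ U`; `‖y - y₀‖² = 2 - 2 <y, y₀> < r²` for unit `y` with `<y, y₀> ≥ cos τ` if `2 - 2 cos τ < r²`.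
-/

open MeasureTheory Metric Set Pool.Agent.Lib.MP_dabcc9_gt

namespace Pool.Agent.Lib.MP_dabcc9_gtW

private lemma WI_orth (v : E3) (hv : ‖v‖ = 1) : ∃ w : E3, ‖w‖ = 1 ∧ inner ℝ w v = 0 := by
  have hv0 : v ≠ 0 := by
    intro h
    rw [h, norm_zero] at hv
    exact zero_ne_one hv
  have : Fact (Module.finrank ℝ E3 = 2 + 1) := ⟨by simp [E3]⟩
  have h2 : Module.finrank ℝ (Submodule.span ℝ {v})ᗮ = 2 := Submodule.finrank_orthogonal_span_singleton hv0
  have hne : (Submodule.span ℝ {v})ᗮ ≠ ⊥ := by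
    intro h
    rw [h, finrank_bot] at h2
    omega
  obtain ⟨u, hu, hu0⟩ := Submodule.exists_mem_ne_zero_of_ne_bot hne
  have h3 : inner ℝ v u = 0 := (Submodule.mem_orthogonal_singleton_iff_inner_right.1 hu)
  have h4 : ‖u‖ ≠ 0 := norm_ne_zero_iff.2 hu0
  refine ⟨(‖u‖⁻¹ : ℝ) • u, ?_, ?_⟩
  · rw [norm_smul, norm_inv, norm_norm, inv_mul_cancel₀ h4]
  · rw [real_inner_smul_left, real_inner_comm, h3, mul_zero]

theorem solid {K : Set E3} (hKc : Convex ℝ K) (h : K ⊆ closedBall 0 1) {v : E3} (hv : ‖v‖ = 1) {τ : ℝ}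
    (hs : SphCap K v τ) : K ∩ hp v (Real.cos τ) = closedBall 0 1 ∩ hp v (Real.cos τ) := by
  apply Subset.antisymm (inter_subset_inter_left _ h)
  rintro x ⟨hx1, hx2⟩
  refine ⟨?_, hx2⟩
  have hx : ‖x‖ ≤ 1 := by simpa using hx1
  have hxv : Real.cos τ ≤ inner ℝ x v := hx2
  obtain ⟨w, hw1, hw2⟩ := WI_orth v hv
  set a : ℝ := inner ℝ x w with ha
  have hnn : 0 ≤ a ^ 2 + 1 - ‖x‖ ^ 2 := by nlinarith [norm_nonneg x, sq_nonneg a]
  set D : ℝ := Real.sqrt (a ^ 2 + 1 - ‖x‖ ^ 2) with hD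
  have hD2 : D ^ 2 = a ^ 2 + 1 - ‖x‖ ^ 2 := Real.sq_sqrt hnn
  have hD0 : 0 ≤ D := Real.sqrt_nonneg _
  have haD : |a| ≤ D := by
    apply Real.le_sqrt_of_sq_le
    rw [sq_abs]
    nlinarith [norm_nonneg x]
  have haD' := abs_le.1 haD
  have hns : ∀ s : ℝ, ‖x + s • w‖ ^ 2 = ‖x‖ ^ 2 + 2 * s * a + s ^ 2 := by
    intro s
    rw [norm_add_sq_real, real_inner_smul_right, norm_smul, hw1, Real.norm_eq_abs, mul_one, sq_abs]
    ring
  have hin : ∀ s : ℝ, inner ℝ (x + s • w) v = inner ℝ x v := by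
    intro s
    rw [inner_add_left, real_inner_smul_left, hw2, mul_zero, add_zero]
  have hmem : ∀ s : ℝ, (s + a) ^ 2 = D ^ 2 → x + s • w ∈ K := by
    intro s hs2
    apply hs
    · have h5 : ‖x + s • w‖ ^ 2 = 1 := by
        rw [hns]
        nlinarith
      have h6 := norm_nonneg (x + s • w)
      nlinarith
    · rw [hin]
      exact hxv
  have h1 : x + (-a - D) • w ∈ K := hmem _ (by ring)
  have h2 : x + (-a + D) • w ∈ K := hmem _ (by ring)
  rcases eq_or_lt_of_le hD0 with h0 | h0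
  · have ha0 : a = 0 := by
      have := haD
      rw [← h0] at this
      exact abs_eq_zero.1 (le_antisymm this (abs_nonneg _))
    rw [← h0, ha0] at h1
    simpa using h1
  · have h2D : (0 : ℝ) < 2 * D := by linarith
    have key := hKc h1 h2 (a := (-a + D) / (2 * D)) (b := (a + D) / (2 * D))
      (div_nonneg (by linarith [haD'.2]) h2D.le) (div_nonneg (by linarith [haD'.1]) h2D.le)
      (by field_simp; ring)
    have hEq : ((-a + D) / (2 * D)) • (x + (-a - D) • w) + ((a + D) / (2 * D)) • (x + (-a + D) • w) = x := by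
      have e1 : ((-a + D) / (2 * D)) + ((a + D) / (2 * D)) = 1 := by field_simp; ring
      have e2 : ((-a + D) / (2 * D)) * (-a - D) + ((a + D) / (2 * D)) * (-a + D) = 0 := by
        field_simp; ring
      calc ((-a + D) / (2 * D)) • (x + (-a - D) • w) + ((a + D) / (2 * D)) • (x + (-a + D) • w)
          = (((-a + D) / (2 * D)) + ((a + D) / (2 * D))) • x +
            (((-a + D) / (2 * D)) * (-a - D) + ((a + D) / (2 * D)) * (-a + D)) • w := by module
        _ = x := by rw [e1, e2, one_smul, zero_smul, add_zero]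
    rw [hEq] at key
    exact key

theorem two_caps {K : Set E3} {v : E3} (hv : ‖v‖ = 1) {τ : ℝ} (h0 : 0 < τ) (h1 : τ < Real.pi / 2)
    (hs : SphCap K v τ) : ∃ v₁ : E3, ‖v₁‖ = 1 ∧ ∀ T : ℝ, 0 < T → T ≤ τ / 6 →
      SphCap K v₁ T ∧ ∀ x : E3, ‖x‖ ≤ 1 → Real.cos (τ / 3) ≤ inner ℝ x v → inner ℝ x v₁ ≤ Real.cos T := by
  obtain ⟨w, hw1, hw2⟩ := WI_orth v hv
  have hpi := Real.pi_pos
  set v₁ : E3 := Real.cos (2 * τ / 3) • v + Real.sin (2 * τ / 3) • w with hv₁
  have hvv : inner ℝ v v = (1 : ℝ) := by rw [real_inner_self_eq_norm_sq, hv]; norm_num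
  have hvw : inner ℝ v w = (0 : ℝ) := by rw [real_inner_comm]; exact hw2
  have hnv : ‖v₁‖ = 1 := by
    have h5 : ‖v₁‖ ^ 2 = 1 := by
      rw [hv₁, norm_add_sq_real, real_inner_smul_left, real_inner_smul_right, hvw, norm_smul, norm_smul,
        hv, hw1, Real.norm_eq_abs, Real.norm_eq_abs, mul_one, mul_one, sq_abs, sq_abs]
      have := Real.sin_sq_add_cos_sq (2 * τ / 3)
      linarith
    have h6 := norm_nonneg v₁
    nlinarith
  have hin : inner ℝ v v₁ = Real.cos (2 * τ / 3) := by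
    rw [hv₁, inner_add_right, real_inner_smul_right, real_inner_smul_right, hvv, hvw]
    ring
  have hang : InnerProductGeometry.angle v v₁ = 2 * τ / 3 := by
    unfold InnerProductGeometry.angle
    rw [hin, hv, hnv, mul_one, div_one, Real.arccos_cos (by linarith) (by linarith)]
  refine ⟨v₁, hnv, fun T hT0 hT => ⟨?_, ?_⟩⟩
  · intro y hy hyT
    apply hs y hy
    have h2 : InnerProductGeometry.angle y v₁ ≤ T := by
      unfold InnerProductGeometry.angle
      rw [hy, hnv, mul_one, div_one]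
      calc Real.arccos (inner ℝ y v₁) ≤ Real.arccos (Real.cos T) := Real.arccos_le_arccos hyT
        _ = T := Real.arccos_cos hT0.le (by linarith)
    have h3 : InnerProductGeometry.angle y v ≤ τ := by
      have := InnerProductGeometry.angle_le_angle_add_angle y v₁ v
      rw [InnerProductGeometry.angle_comm v₁ v, hang] at this
      linarith
    have h4 := InnerProductGeometry.cos_angle_mul_norm_mul_norm y v
    rw [hy, hv, mul_one, mul_one] at h4
    rw [← h4]
    exact Real.cos_le_cos_of_nonneg_of_le_pi (InnerProductGeometry.angle_nonneg _ _) (by linarith) h3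
  · intro x hx hxv
    have hc : 0 < Real.cos (τ / 3) := Real.cos_pos_of_mem_Ioo ⟨by linarith, by linarith⟩
    have hx0 : x ≠ 0 := by
      intro h
      rw [h, inner_zero_left] at hxv
      linarith
    have hxn : 0 < ‖x‖ := norm_pos_iff.2 hx0
    have h2 : InnerProductGeometry.angle x v ≤ τ / 3 := by
      unfold InnerProductGeometry.angle
      rw [hv, mul_one]
      have h7 : Real.cos (τ / 3) ≤ inner ℝ x v / ‖x‖ := by
        rw [le_div_iff₀ hxn]
        nlinarith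
      calc Real.arccos (inner ℝ x v / ‖x‖) ≤ Real.arccos (Real.cos (τ / 3)) := Real.arccos_le_arccos h7
        _ = τ / 3 := Real.arccos_cos (by linarith) (by linarith)
    have h3 : τ / 3 ≤ InnerProductGeometry.angle x v₁ := by
      have := InnerProductGeometry.angle_le_angle_add_angle v x v₁
      rw [InnerProductGeometry.angle_comm v x, hang] at this
      linarith
    have h4 := InnerProductGeometry.cos_angle_mul_norm_mul_norm x v₁
    rw [hnv, mul_one] at h4
    have h5 : Real.cos (InnerProductGeometry.angle x v₁) ≤ Real.cos T :=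
      Real.cos_le_cos_of_nonneg_of_le_pi hT0.le (InnerProductGeometry.angle_le_pi _ _) (by linarith)
    have h6 : 0 < Real.cos T := Real.cos_pos_of_mem_Ioo ⟨by linarith, by linarith⟩
    rw [← h4]
    calc Real.cos (InnerProductGeometry.angle x v₁) * ‖x‖ ≤ Real.cos T * ‖x‖ :=
          mul_le_mul_of_nonneg_right h5 hxn.le
      _ ≤ Real.cos T * 1 := mul_le_mul_of_nonneg_left hx h6.le
      _ = Real.cos T := mul_one _

theorem exists_cap {K U : Set E3} (hU : IsOpen U) (h1 : (U ∩ sphere 0 1).Nonempty) (h2 : U ∩ sphere 0 1 ⊆ K) :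
    ∃ (v : E3) (τ : ℝ), ‖v‖ = 1 ∧ 0 < τ ∧ τ < Real.pi / 2 ∧ SphCap K v τ := by
  obtain ⟨y₀, hy, hy1⟩ := h1
  have hy0 : ‖y₀‖ = 1 := by simpa using hy1
  obtain ⟨r, hr, hrU⟩ := Metric.isOpen_iff.1 hU y₀ hy
  have hpi := Real.pi_gt_three
  refine ⟨y₀, min (r / 2) 1, hy0, lt_min (by linarith) one_pos, lt_of_le_of_lt (min_le_right _ _) (by linarith),
    fun y hyn hyc => h2 ⟨hrU ?_, by simpa using hyn⟩⟩
  set τ : ℝ := min (r / 2) 1 with hτ
  have hτ0 : 0 < τ := lt_min (by linarith) one_pos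
  have hτr : τ ≤ r / 2 := min_le_left _ _
  have hcos := Real.one_sub_sq_div_two_le_cos (x := τ)
  rw [mem_ball, dist_eq_norm]
  have h5 : ‖y - y₀‖ ^ 2 = 2 - 2 * inner ℝ y y₀ := by
    rw [norm_sub_sq_real, hyn, hy0]
    ring
  have h6 : ‖y - y₀‖ ^ 2 < r ^ 2 := by
    rw [h5]
    nlinarith
  exact lt_of_pow_lt_pow_left₀ 2 hr.le h6

end Pool.Agent.Lib.MP_dabcc9_gtW
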