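import Pool.Agent.Lib.MP_dabcc9_gtU.UJ1

/-!
LEAF WJ (the abstract perturbation lemma, one sided increments; Mathlib and UJ1). Adapt `Pool/Agent/Lib/MP_dabcc9_gtU/UJ2.lean` (`perturb`, complete proof there):
`s θ - s (θ - A ρ)` is replaced by `gS (A ρ)`, right derivative of `ρ ↦ gS (A ρ)` at `0` is `A s'` (chain rule within `Ici 0`, `A > 0`), `gS`, `gM`, `gV` vanish at `0`;
`gM`, `gV` are monotone on `[0, 1]`, `gS`, `gM` continuous on `[0, 1]`; choose `ρ` with `A₂ ρ < min δ 1`.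
-/

open Set Filter Topology

namespace Pool.Agent.Lib.MP_dabcc9_gtW

open Pool.Agent.Lib.MP_dabcc9_gtU

private theorem WJ_choose {S M V s' m' v' : ℝ} (h1 : 0 < s' * M - 2 * S * m')
    (h2 : -3 * M + 2 * S < 0)
    (h3 : (-9 * M + 3 * V) * (s' * M - 2 * S * m') - (-3 * M + 2 * S) * (v' * M - 3 * V * m') < 0) :
    ∃ A₁ A₂ : ℝ, 0 < A₁ ∧ A₁ < A₂ ∧ (A₁ * s' - 3) * M - 2 * S * (A₁ * m' - 1) < 0 ∧
      0 < (A₂ * s' - 3) * M - 2 * S * (A₂ * m' - 1) ∧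
      (A₂ * v' - 9) * M - 3 * V * (A₁ * m' - 1) < 0 := by
  obtain ⟨e, he⟩ : ∃ e, e = s' * M - 2 * S * m' := ⟨_, rfl⟩
  obtain ⟨f, hf⟩ : ∃ f, f = 3 * M - 2 * S := ⟨_, rfl⟩
  rw [← he] at h1 h3
  have hf0 : 0 < f := by rw [hf]; linarith
  obtain ⟨A, hA⟩ : ∃ A, A = f / e := ⟨_, rfl⟩
  have hAe : A * e = f := by rw [hA]; exact div_mul_cancel₀ _ h1.ne'
  have hA0 : 0 < A := by rw [hA]; exact div_pos hf0 h1
  obtain ⟨K, hK⟩ : ∃ K, K = v' * M + 3 * V * m' := ⟨_, rfl⟩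
  obtain ⟨g, hg⟩ : ∃ g, g = (A * v' - 9) * M - 3 * V * (A * m' - 1) := ⟨_, rfl⟩
  have hg0 : g < 0 := by
    have h4 : g * e < 0 := by
      have h5 : g * e = (A * e) * (v' * M - 3 * V * m') + (-9 * M + 3 * V) * e := by
        rw [hg]; ring
      rw [h5, hAe, hf]
      linarith
    by_contra h
    push Not at h
    linarith [mul_nonneg h h1.le]
  have hK0 : 0 ≤ |K| := abs_nonneg K
  obtain ⟨t, ht⟩ : ∃ t, t = min (A / 2) (-g / (2 * (|K| + 1))) := ⟨_, rfl⟩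
  have ht0 : 0 < t := by
    rw [ht]
    exact lt_min (by linarith) (div_pos (by linarith) (by positivity))
  have ht1 : t ≤ A / 2 := by rw [ht]; exact min_le_left _ _
  have ht2 : t * (|K| + 1) ≤ -g / 2 := by
    have h6 : t ≤ -g / (2 * (|K| + 1)) := by rw [ht]; exact min_le_right _ _
    rw [le_div_iff₀ (by positivity)] at h6
    linarith
  have hte : 0 < t * e := mul_pos ht0 h1
  refine ⟨A - t, A + t, by linarith, by linarith, ?_, ?_, ?_⟩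
  · have h7 : ((A - t) * s' - 3) * M - 2 * S * ((A - t) * m' - 1) = A * e - t * e - f := by
      rw [he, hf]; ring
    rw [h7, hAe]
    linarith
  · have h7 : ((A + t) * s' - 3) * M - 2 * S * ((A + t) * m' - 1) = A * e + t * e - f := by
      rw [he, hf]; ring
    rw [h7, hAe]
    linarith
  · have h7 : ((A + t) * v' - 9) * M - 3 * V * ((A - t) * m' - 1) = g + t * K := by
      rw [hg, hK]; ring
    rw [h7]
    have h8 : t * K ≤ t * |K| := mul_le_mul_of_nonneg_left (le_abs_self K) ht0.le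
    linarith

private theorem WJ_deriv {S A s' p' : ℝ} {g p : ℝ → ℝ} (hA : 0 ≤ A)
    (hg : HasDerivWithinAt g s' (Ici 0) 0) (hp : HasDerivWithinAt p p' (Ici 0) 0) :
    HasDerivWithinAt (fun ρ => S + g (A * ρ) - p ρ) (A * s' - p') (Ici 0) 0 := by
  have h1 : HasDerivWithinAt (fun ρ : ℝ => A * ρ) A (Ici 0) 0 := by
    have h2 := ((hasDerivAt_id (0 : ℝ)).const_mul A).hasDerivWithinAt (s := Ici 0)
    simpa using h2
  have h3 : HasDerivWithinAt g s' (Ici 0) (A * 0) := by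
    rw [mul_zero]
    exact hg
  have hmap : MapsTo (fun ρ : ℝ => A * ρ) (Ici 0) (Ici 0) := fun ρ hρ => mul_nonneg hA hρ
  have h4 : HasDerivWithinAt (fun ρ : ℝ => g (A * ρ)) (s' * A) (Ici 0) 0 :=
    HasDerivWithinAt.comp (0 : ℝ) h3 h1 hmap
  have h5 : HasDerivWithinAt (fun ρ : ℝ => S + g (A * ρ) - p ρ) (s' * A - p') (Ici 0) 0 :=
    (h4.const_add S).sub hp
  rw [mul_comm A s']
  exact h5

theorem perturb2 {S M V s' m' v' : ℝ} {gS gM gV p q r : ℝ → ℝ} (hM : 0 < M) (hV : 0 < V)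
    (hs : HasDerivWithinAt gS s' (Ici 0) 0) (hm : HasDerivWithinAt gM m' (Ici 0) 0)
    (hv : HasDerivWithinAt gV v' (Ici 0) 0) (s0 : gS 0 = 0) (m0 : gM 0 = 0) (v0 : gV 0 = 0)
    (cs : ContinuousOn gS (Icc 0 1)) (cm : ContinuousOn gM (Icc 0 1))
    (mm : MonotoneOn gM (Icc 0 1)) (mv : MonotoneOn gV (Icc 0 1))
    (p0 : p 0 = 0) (q0 : q 0 = 0) (r0 : r 0 = 0)
    (hp : HasDerivWithinAt p 3 (Ici 0) 0) (hq : HasDerivWithinAt q 1 (Ici 0) 0)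
    (hr : HasDerivWithinAt r 9 (Ici 0) 0)
    (h1 : 0 < s' * M - 2 * S * m') (h2 : -3 * M + 2 * S < 0)
    (h3 : (-9 * M + 3 * V) * (s' * M - 2 * S * m') - (-3 * M + 2 * S) * (v' * M - 3 * V * m') < 0)
    {δ : ℝ} (hδ : 0 < δ) :
    ∃ α ρ : ℝ, 0 < α ∧ α < δ ∧ α ≤ 1 ∧ 0 < ρ ∧ ρ < δ ∧
      (S + gS α - p ρ) / (M + gM α - q ρ) ^ 2 = S / M ^ 2 ∧
      (V + gV α - r ρ) / (M + gM α - q ρ) ^ 3 < V / M ^ 3 := by
  obtain ⟨A₁, A₂, hA1, hA12, k1, k2, k3⟩ := WJ_choose h1 h2 h3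
  have hA2 : 0 < A₂ := hA1.trans hA12
  have dS : ∀ A : ℝ, 0 < A → HasDerivWithinAt (fun ρ => S + gS (A * ρ) - p ρ) (A * s' - 3)
      (Ici 0) 0 := fun A hA => WJ_deriv hA.le hs hp
  have dM : ∀ A : ℝ, 0 < A → HasDerivWithinAt (fun ρ => M + gM (A * ρ) - q ρ) (A * m' - 1)
      (Ici 0) 0 := fun A hA => WJ_deriv hA.le hm hq
  have dV : ∀ A : ℝ, 0 < A → HasDerivWithinAt (fun ρ => V + gV (A * ρ) - r ρ) (A * v' - 9)
      (Ici 0) 0 := fun A hA => WJ_deriv hA.le hv hr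
  have zS : ∀ A : ℝ, (fun ρ => S + gS (A * ρ) - p ρ) 0 = S := by
    intro A
    simp [p0, s0]
  have zM : ∀ A : ℝ, (fun ρ => M + gM (A * ρ) - q ρ) 0 = M := by
    intro A
    simp [q0, m0]
  have zV : ∀ A : ℝ, (fun ρ => V + gV (A * ρ) - r ρ) 0 = V := by
    intro A
    simp [r0, v0]
  obtain ⟨δ1, hδ1, e1⟩ := small_neg (quot2_deriv (dS A₁ hA1) (dM A₁ hA1) (zS A₁) (zM A₁) hM)
    (div_neg_of_neg_of_pos k1 (by positivity))
  obtain ⟨δ2, hδ2, e2⟩ := small_pos (quot2_deriv (dS A₂ hA2) (dM A₂ hA2) (zS A₂) (zM A₂) hM)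
    (div_pos k2 (by positivity))
  obtain ⟨δ3, hδ3, e3⟩ := small_neg (quot3_deriv (dV A₂ hA2) (dM A₁ hA1) (zV A₂) (zM A₁) hM)
    (div_neg_of_neg_of_pos k3 (by positivity))
  obtain ⟨δ4, hδ4, e4⟩ := stay_pos (dM A₁ hA1) (lt_of_lt_of_eq hM (zM A₁).symm)
  obtain ⟨δ5, hδ5, e5⟩ := stay_pos (dV A₂ hA2) (lt_of_lt_of_eq hV (zV A₂).symm)
  obtain ⟨θ, hθe⟩ : ∃ θ, θ = min δ 1 := ⟨_, rfl⟩
  have hθ : 0 < θ := by
    rw [hθe]
    exact lt_min hδ one_pos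
  obtain ⟨ρ, hρ0, r1, r2, r3, r4, r5, r6, r7⟩ : ∃ ρ : ℝ, 0 < ρ ∧ ρ < δ1 ∧ ρ < δ2 ∧ ρ < δ3 ∧ ρ < δ4 ∧
      ρ < δ5 ∧ ρ < δ ∧ A₂ * ρ < θ := by
    have hθ' : 0 < θ / A₂ := div_pos hθ hA2
    obtain ⟨μ, hμ⟩ : ∃ μ, μ = min (min (min δ1 δ2) (min δ3 δ4)) (min (min δ5 δ) (θ / A₂)) := ⟨_, rfl⟩
    have hμ0 : 0 < μ := by
      rw [hμ]
      exact lt_min (lt_min (lt_min hδ1 hδ2) (lt_min hδ3 hδ4)) (lt_min (lt_min hδ5 hδ) hθ')
    have m1 : μ ≤ min (min δ1 δ2) (min δ3 δ4) := by rw [hμ]; exact min_le_left _ _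
    have m2 : μ ≤ min (min δ5 δ) (θ / A₂) := by rw [hμ]; exact min_le_right _ _
    have n1 : μ ≤ δ1 := m1.trans ((min_le_left _ _).trans (min_le_left _ _))
    have n2 : μ ≤ δ2 := m1.trans ((min_le_left _ _).trans (min_le_right _ _))
    have n3 : μ ≤ δ3 := m1.trans ((min_le_right _ _).trans (min_le_left _ _))
    have n4 : μ ≤ δ4 := m1.trans ((min_le_right _ _).trans (min_le_right _ _))
    have n5 : μ ≤ δ5 := m2.trans ((min_le_left _ _).trans (min_le_left _ _))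
    have n6 : μ ≤ δ := m2.trans ((min_le_left _ _).trans (min_le_right _ _))
    have n7 : μ ≤ θ / A₂ := m2.trans (min_le_right _ _)
    refine ⟨μ / 2, by linarith, by linarith, by linarith, by linarith, by linarith, by linarith,
      by linarith, ?_⟩
    have n8 : μ / 2 < θ / A₂ := by linarith
    rw [lt_div_iff₀ hA2] at n8
    linarith
  have g1 := e1 ρ hρ0 r1
  have g2 := e2 ρ hρ0 r2
  have g3 := e3 ρ hρ0 r3
  have g4 := e4 ρ hρ0 r4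
  have g5 := e5 ρ hρ0 r5
  simp only [mul_zero, sub_zero, add_zero, p0, q0, r0, s0, m0, v0] at g1 g2 g3 g4 g5
  have hab : A₁ * ρ ≤ A₂ * ρ := mul_le_mul_of_nonneg_right hA12.le hρ0.le
  have ha0 : 0 < A₁ * ρ := mul_pos hA1 hρ0
  have hθ1 : θ ≤ 1 := by
    rw [hθe]
    exact min_le_right _ _
  have hθδ : θ ≤ δ := by
    rw [hθe]
    exact min_le_left _ _
  have hmem : ∀ α ∈ Icc (A₁ * ρ) (A₂ * ρ), α ∈ Icc (0 : ℝ) 1 := fun α hα =>
    ⟨by linarith [hα.1], by linarith [hα.2]⟩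
  have hMα : ∀ α ∈ Icc (A₁ * ρ) (A₂ * ρ), M + gM (A₁ * ρ) - q ρ ≤ M + gM α - q ρ := by
    intro α hα
    have : gM (A₁ * ρ) ≤ gM α :=
      mm (hmem _ ⟨le_rfl, hab⟩) (hmem α hα) hα.1
    linarith
  have hcont : ContinuousOn (fun α => (S + gS α - p ρ) / (M + gM α - q ρ) ^ 2)
      (Icc (A₁ * ρ) (A₂ * ρ)) := by
    have cs' : ContinuousOn gS (Icc (A₁ * ρ) (A₂ * ρ)) := cs.mono hmem
    have cm' : ContinuousOn gM (Icc (A₁ * ρ) (A₂ * ρ)) := cm.mono hmem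
    apply ContinuousOn.div
    · exact (continuousOn_const.add cs').sub continuousOn_const
    · exact ((continuousOn_const.add cm').sub continuousOn_const).pow 2
    · intro α hα
      have := hMα α hα
      exact (pow_pos (lt_of_lt_of_le g4 this) 2).ne'
  obtain ⟨α, hα, hαe⟩ := intermediate_value_Icc hab hcont ⟨g1.le, g2.le⟩
  refine ⟨α, ρ, lt_of_lt_of_le ha0 hα.1, by linarith [hα.2], (hmem α hα).2, hρ0, r6, hαe, ?_⟩
  have hM1 := hMα α hα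
  have hV1 : V + gV α - r ρ ≤ V + gV (A₂ * ρ) - r ρ := by
    have : gV α ≤ gV (A₂ * ρ) := mv (hmem α hα) (hmem _ ⟨hab, le_rfl⟩) hα.2
    linarith
  have hMα0 : 0 < M + gM α - q ρ := lt_of_lt_of_le g4 hM1
  calc (V + gV α - r ρ) / (M + gM α - q ρ) ^ 3
      ≤ (V + gV (A₂ * ρ) - r ρ) / (M + gM α - q ρ) ^ 3 :=
        div_le_div_of_nonneg_right hV1 (by positivity)
    _ ≤ (V + gV (A₂ * ρ) - r ρ) / (M + gM (A₁ * ρ) - q ρ) ^ 3 :=
        div_le_div_of_nonneg_left g5.le (pow_pos g4 3) (pow_le_pow_left₀ g4.le hM1 3)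
    _ < V / M ^ 3 := g3

end Pool.Agent.Lib.MP_dabcc9_gtW
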