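import Pool.Agent.Lib.MP_dabcc9_gtW.WA
import Pool.Agent.Lib.MP_dabcc9_gtW.WC
import Pool.Agent.Lib.MP_dabcc9_gtW.WG1
import Pool.Agent.Lib.MP_dabcc9_gtW.WH
import Pool.Agent.Lib.MP_dabcc9_gtW.WI

/-!
LEAF WK (the modified body). First cut: `K₁ = K ∩ hm v₁ (cos T)`: `replace` with `B = closedBall 0 1`, `B' = cap1 v₁ (cos T) = B ∩ hm v₁ (cos T)`, `c = cos T`;
`h1` = `solid`; `h2` clear; `h3`: `K ⊆ closedBall 0 1`; the union `(K ∩ hm) ∪ (B' ∩ hp)` is `K₁` because `B' ∩ hp = B ∩ {<x, v₁> = cos T} ⊆ K` (`solid`).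
Then push: `replace` with `K₁`, `B`, `B' = bump v θ ε`, `c = cos θ`, `θ = τ/3`: `h1`: `K ∩ hp v (cos θ) = B ∩ hp v (cos θ)` (`solid`, as `SphCap K v τ` implies `SphCap K v θ`: `cos θ ≥ cos τ`)
and these points are in `hm v₁ (cos T)` by `two_caps`; `h2` = `bump_hm`; `h3`: `K₁ ⊆ closedBall 0 1 ⊆ bump`.
`K'` is the union; `FT t K' = FT t K + (FT t (cap1) - FT t B) + (FT t (bump) - FT t B)` for `t ≥ 0`; by `lin_rel` for all five bodies (`ball_vals`, `cap_vals`, `bump_body`):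
`sN K' = sN K - sA T + (sN (bump) - 1)` etc. (affine functions with the constants cancelling). `K'` is nontrivial: it contains `B ∩ {<x, v> = cos θ}` (two points), or
`K ∩ hp v (cos θ) ⊆ K'` contains the sphere points of the cap.
-/

open MeasureTheory Metric Set Pool.Agent.Lib.MP_dabcc9_gt Pool.Agent.Lib.MP_dabcc9_gtU

namespace Pool.Agent.Lib.MP_dabcc9_gtW

theorem modify {K : Set E3} (hK : IsBody K) (h : K ⊆ closedBall 0 1) {v v₁ : E3} (hv : ‖v‖ = 1) (hv₁ : ‖v₁‖ = 1)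
    {τ T ε : ℝ} (h0 : 0 < τ) (h1 : τ < Real.pi / 2) (hs : SphCap K v τ) (hT : 0 < T) (hT1 : T ≤ τ / 6)
    (hs1 : SphCap K v₁ T)
    (hsep : ∀ x : E3, ‖x‖ ≤ 1 → Real.cos (τ / 3) ≤ inner ℝ x v → inner ℝ x v₁ ≤ Real.cos T) (hε : 0 ≤ ε) :
    ∃ K' : Set E3, IsBody K' ∧
      sN K' = sN K + (sN (bump v (τ / 3) ε) - 1) - sA T ∧
      mN K' = mN K + (mN (bump v (τ / 3) ε) - 1) - mA T ∧
      vN K' = vN K + (vN (bump v (τ / 3) ε) - 1) - vA T := by
  obtain ⟨hKc, hKx, hKn⟩ := hK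
  obtain ⟨hBb, bv, bs, bm, -⟩ := ball_vals
  have hBc : IsCompact (closedBall (0 : E3) 1) := hBb.1
  have hBx : Convex ℝ (closedBall (0 : E3) 1) := hBb.2.1
  obtain ⟨hCb, cs, cm, cv⟩ := cap_vals hv₁ hT (by linarith [Real.pi_pos])
  have hcap : cap1 v₁ (Real.cos T) = closedBall (0 : E3) 1 ∩ hm v₁ (Real.cos T) := by
    ext x
    rw [mem_inter_iff, mem_closedBall_zero_iff]
    exact Iff.rfl
  -- first cut
  have hsol := solid hKx h hv₁ hs1
  have a1 := replace hKc hKx hBc hBx hCb.1 hCb.2.1 v₁ (Real.cos T) hsol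
    (by rw [hcap]; ext x; simp only [mem_inter_iff]; tauto)
    (fun x hx => ⟨mem_closedBall_zero_iff.1 (h hx.1), hx.2⟩)
  have e1 : K ∩ hm v₁ (Real.cos T) ∪ cap1 v₁ (Real.cos T) ∩ hp v₁ (Real.cos T) = K ∩ hm v₁ (Real.cos T) := by
    refine union_eq_self_of_subset_right ?_
    rintro x ⟨hx1, hx2⟩
    have hx3 : x ∈ closedBall (0 : E3) 1 ∩ hp v₁ (Real.cos T) := ⟨mem_closedBall_zero_iff.2 hx1.1, hx2⟩
    rw [← hsol] at hx3
    exact ⟨hx3.1, hx1.2⟩
  rw [e1] at a1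
  obtain ⟨hK1c, hK1x, hF1⟩ := a1
  -- push
  have hθ0 : 0 < τ / 3 := by linarith
  have hθ1 : τ / 3 < Real.pi / 2 := by linarith
  have hsθ : SphCap K v (τ / 3) := by
    intro y hy hy1
    refine hs y hy (le_trans ?_ hy1)
    exact Real.cos_le_cos_of_nonneg_of_le_pi (by linarith) (by linarith [Real.pi_pos]) (by linarith)
  have hsolθ := solid hKx h hv hsθ
  have hbb := bump_body hv (θ := τ / 3) hε
  have a2 := replace hK1c hK1x hBc hBx hbb.1 hbb.2.1 v (Real.cos (τ / 3))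
    (by
      ext x
      constructor
      · rintro ⟨hx1, hx2⟩
        exact ⟨h hx1.1, hx2⟩
      · rintro ⟨hx1, hx2⟩
        have hx3 : x ∈ K ∩ hp v (Real.cos (τ / 3)) := by
          rw [hsolθ]
          exact ⟨hx1, hx2⟩
        refine ⟨⟨hx3.1, ?_⟩, hx2⟩
        exact hsep x (by simpa using hx1) hx2)
    (bump_hm hv hθ0 hθ1 hε)
    (fun x hx => ball_sub_bump hε (h hx.1.1))
  obtain ⟨hK'c, hK'x, hF2⟩ := a2
  obtain ⟨K', hK'⟩ : ∃ K' : Set E3, K' = K ∩ hm v₁ (Real.cos T) ∩ hm v (Real.cos (τ / 3)) ∪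
      bump v (τ / 3) ε ∩ hp v (Real.cos (τ / 3)) := ⟨_, rfl⟩
  rw [← hK'] at hK'c hK'x hF2
  -- nontrivial
  have hn : K'.Nontrivial := by
    have hvK : v ∈ K' := by
      rw [hK']
      refine Or.inr ⟨ball_sub_bump hε (by simp [hv]), ?_⟩
      show Real.cos (τ / 3) ≤ inner ℝ v v
      rw [real_inner_self_eq_norm_sq, hv]
      linarith [Real.cos_le_one (τ / 3)]
    have hcv : Real.cos (τ / 3) • v ∈ K' := by
      rw [hK']
      refine Or.inr ⟨ball_sub_bump hε ?_, ?_⟩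
      · rw [mem_closedBall_zero_iff, norm_smul, hv, mul_one, Real.norm_eq_abs]
        exact Real.abs_cos_le_one _
      · show Real.cos (τ / 3) ≤ inner ℝ (Real.cos (τ / 3) • v) v
        rw [real_inner_smul_left, real_inner_self_eq_norm_sq, hv]
        linarith
    refine ⟨v, hvK, Real.cos (τ / 3) • v, hcv, fun heq => ?_⟩
    have h2 : inner ℝ v v = inner ℝ (Real.cos (τ / 3) • v) v := by rw [← heq]
    rw [real_inner_smul_left, real_inner_self_eq_norm_sq, hv] at h2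
    have h3 : Real.cos (τ / 3) < Real.cos 0 :=
      Real.cos_lt_cos_of_nonneg_of_le_pi le_rfl (by linarith [Real.pi_pos]) hθ0
    rw [Real.cos_zero] at h3
    linarith
  have hK'b : IsBody K' := ⟨hK'c, hK'x, hn⟩
  have hF : ∀ t : ℝ, 0 ≤ t → FT t K' = FT t K + (FT t (cap1 v₁ (Real.cos T)) - FT t (closedBall 0 1)) +
      (FT t (bump v (τ / 3) ε) - FT t (closedBall 0 1)) := by
    intro t ht
    rw [hF2 t ht, hF1 t ht]
    ring
  obtain ⟨l1, l2, l3, -⟩ := lin_rel hK'b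
  obtain ⟨k1, k2, k3, -⟩ := lin_rel (⟨hKc, hKx, hKn⟩ : IsBody K)
  obtain ⟨b1, b2, b3, -⟩ := lin_rel hBb
  obtain ⟨c1, c2, c3, -⟩ := lin_rel hCb
  obtain ⟨p1, p2, p3, -⟩ := lin_rel hbb
  have f0 := hF 0 le_rfl
  have f1 := hF 1 zero_le_one
  have f2 := hF 2 zero_le_two
  have hm' : mN K' = mN K + (mN (bump v (τ / 3) ε) - 1) - mA T := by
    have : mN K' = mN K + (mN (cap1 v₁ (Real.cos T)) - mN (closedBall 0 1)) + (mN (bump v (τ / 3) ε) - mN (closedBall 0 1)) := by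
      rw [l2, k2, c2, b2, p2, f0, f1, f2]
      ring
    rw [this, cm, bm]
    ring
  have hv' : vN K' = vN K + (vN (bump v (τ / 3) ε) - 1) - vA T := by
    have : vN K' = vN K + (vN (cap1 v₁ (Real.cos T)) - vN (closedBall 0 1)) + (vN (bump v (τ / 3) ε) - vN (closedBall 0 1)) := by
      rw [l1, k1, c1, b1, p1, f0]
      ring
    rw [this, cv, bv]
    ring
  have hs' : sN K' = sN K + (sN (bump v (τ / 3) ε) - 1) - sA T := by
    have : sN K' + mN K' = (sN K + mN K) + ((sN (cap1 v₁ (Real.cos T)) + mN (cap1 v₁ (Real.cos T))) -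
        (sN (closedBall 0 1) + mN (closedBall 0 1))) +
        ((sN (bump v (τ / 3) ε) + mN (bump v (τ / 3) ε)) - (sN (closedBall 0 1) + mN (closedBall 0 1))) := by
      rw [l3, k3, c3, b3, p3, f0, f1]
      ring
    rw [hm', cs, cm, bs, bm] at this
    linarith
  exact ⟨K', hK'b, hs', hm', hv'⟩

end Pool.Agent.Lib.MP_dabcc9_gtW
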