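import Pool.Agent.Lib.MP_dabcc9_gtW.WF3
import Pool.Agent.Lib.MP_dabcc9_gtW.WG6
import Pool.Agent.Lib.MP_dabcc9_gtW.WJ
import Pool.Agent.Lib.MP_dabcc9_gtW.WK
import Pool.Agent.Lib.MP_dabcc9_gtU.UI2

/-!
LEAF WL (assembly in the unit ball). `exists_cap`, `two_caps`; `w = (1 - cos (τ/3))/2 > 0`; `perturb2` with `gS ε = sN (bump v (τ/3) ε) - 1` etc. (`bump_deriv`, `bump_cont`,
`bump_zero`, `ball_vals`), `p = sA ∘ capT`, `q = mA ∘ capT`, `r = vA ∘ capT` (`deriv_capT`, `lim_sA`, `lim_mA`, `lim_vA`, see `UK`), `δ` from `capT_small` with `T₀ = τ/6`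
(and `≤ 1`). Conditions with `s' = 2 w, m' = w, v' = 3 w`: `h1`: `2 w (M - S) > 0`; `h2`: `-3M + 2S < 0` by `S < M`, `M > 0`; `h3`: equals `3 w M (4 S - V - 3 M) < 0`
(`strict`). `V > 0`: `K` contains a solid cap, or: `vN K > 4 sN K - 3 mN K` is not enough; use that `K` has interior points: `volume` of `closedBall 0 1 ∩ hp v (cos τ)` is
positive (contains a small ball; it is `⊆ K` by `solid`). Then `modify` and `lin_rel`.
-/

open MeasureTheory Metric Set Pool.Agent.Lib.MP_dabcc9_gt Pool.Agent.Lib.MP_dabcc9_gtU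

namespace Pool.Agent.Lib.MP_dabcc9_gtW

theorem vol_pos_of_cap {K : Set E3} (hK : IsBody K) (h : K ⊆ closedBall 0 1) {v : E3} (hv : ‖v‖ = 1) {τ : ℝ}
    (h0 : 0 < τ) (h1 : τ < Real.pi / 2) (hs : SphCap K v τ) : 0 < vN K := by
  have hc1 : Real.cos τ < 1 := by
    have := Real.cos_lt_cos_of_nonneg_of_le_pi (x := 0) (y := τ) le_rfl (by linarith) h0
    rwa [Real.cos_zero] at this
  have hc0 : 0 < Real.cos τ := Real.cos_pos_of_mem_Ioo ⟨by linarith, h1⟩
  have hsub : ball (((1 + Real.cos τ) / 2) • v) ((1 - Real.cos τ) / 2) ⊆ K := by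
    intro x hx
    rw [mem_ball, dist_eq_norm] at hx
    have e : x = (x - ((1 + Real.cos τ) / 2) • v) + ((1 + Real.cos τ) / 2) • v := by abel
    have hcn : ‖((1 + Real.cos τ) / 2) • v‖ = (1 + Real.cos τ) / 2 := by
      rw [norm_smul, hv, mul_one, Real.norm_of_nonneg (by linarith)]
    have hx1 : ‖x‖ ≤ 1 := by
      calc ‖x‖ = ‖(x - ((1 + Real.cos τ) / 2) • v) + ((1 + Real.cos τ) / 2) • v‖ := by rw [← e]
        _ ≤ ‖x - ((1 + Real.cos τ) / 2) • v‖ + ‖((1 + Real.cos τ) / 2) • v‖ := norm_add_le _ _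
        _ ≤ 1 := by rw [hcn]; linarith
    have hx2 : Real.cos τ ≤ inner ℝ x v := by
      have e1 : inner ℝ x v = inner ℝ (x - ((1 + Real.cos τ) / 2) • v) v + (1 + Real.cos τ) / 2 := by
        rw [inner_sub_left, real_inner_smul_left, real_inner_self_eq_norm_sq, hv]
        ring
      have e2 := abs_real_inner_le_norm (x - ((1 + Real.cos τ) / 2) • v) v
      rw [hv, mul_one] at e2
      have e3 := (abs_le.1 e2).1
      rw [e1]
      linarith
    have hmem : x ∈ closedBall (0 : E3) 1 ∩ hp v (Real.cos τ) :=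
      ⟨by rw [mem_closedBall, dist_zero_right]; exact hx1, hx2⟩
    rw [← solid hK.2.1 h hv hs] at hmem
    exact hmem.1
  have hpos : 0 < volume (ball (((1 + Real.cos τ) / 2) • v) ((1 - Real.cos τ) / 2)) :=
    measure_ball_pos volume _ (by linarith)
  have hv2 : 0 < vol K := by
    unfold vol
    exact ENNReal.toReal_pos (lt_of_lt_of_le hpos (measure_mono hsub)).ne' hK.1.measure_lt_top.ne
  unfold vN
  have := Real.pi_pos
  positivity

theorem unit_case {K U : Set E3} (hK : IsBody K) (h : K ⊆ closedBall 0 1) (hne : K ≠ closedBall 0 1)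
    (hU : IsOpen U) (h1 : (U ∩ sphere 0 1).Nonempty) (h2 : U ∩ sphere 0 1 ⊆ K) :
    ∃ K' : Set E3, IsBody K' ∧ bX K' = bX K ∧ bY K' < bY K := by
  obtain ⟨v, τ, hv, hτ0, hτ1, hs⟩ := exists_cap hU h1 h2
  obtain ⟨v₁, hv₁, hcap⟩ := two_caps hv hτ0 hτ1 hs
  obtain ⟨δ, hδ, hsmall⟩ := capT_small (T₀ := τ / 6) (by linarith)
  obtain ⟨-, -, -, hM, hX, hY⟩ := lin_rel hK
  obtain ⟨hst1, hst2⟩ := strict hK h hne
  have hV := vol_pos_of_cap hK h hv hτ0 hτ1 hs
  have ht0 : 0 < τ / 3 := by linarith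
  have ht1 : τ / 3 < Real.pi / 2 := by linarith
  have hw : 0 < (1 - Real.cos (τ / 3)) / 2 := by
    have := Real.cos_lt_cos_of_nonneg_of_le_pi (x := 0) (y := τ / 3) le_rfl (by linarith) ht0
    rw [Real.cos_zero] at this
    linarith
  obtain ⟨ds, dm, dv⟩ := bump_deriv hv ht0 ht1
  obtain ⟨cs, cm, mm, mv⟩ := bump_cont (θ := τ / 3) hv
  obtain ⟨-, bv, bs, bm, -⟩ := ball_vals
  have hp : HasDerivWithinAt (fun ρ => sA (capT ρ)) 3 (Ici 0) 0 := by
    have e := deriv_capT (f := sA) (by unfold sA; rw [Real.cos_zero]; norm_num) lim_sA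
    have e2 : (48 : ℝ) * (1 / 16) = 3 := by norm_num
    rwa [e2] at e
  have hq : HasDerivWithinAt (fun ρ => mA (capT ρ)) 1 (Ici 0) 0 := by
    have e := deriv_capT (f := mA) (by unfold mA; rw [Real.cos_zero, Real.sin_zero]; norm_num) lim_mA
    have e2 : (48 : ℝ) * (1 / 48) = 1 := by norm_num
    rwa [e2] at e
  have hr : HasDerivWithinAt (fun ρ => vA (capT ρ)) 9 (Ici 0) 0 := by
    have e := deriv_capT (f := vA) (by unfold vA; rw [Real.cos_zero]; norm_num) lim_vA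
    have e2 : (48 : ℝ) * (3 / 16) = 9 := by norm_num
    rwa [e2] at e
  obtain ⟨α, ρ, hα0, hα1, hα2, hρ0, hρ1, e1, e2⟩ := perturb2 (S := sN K) (M := mN K) (V := vN K)
    (gS := fun ε => sN (bump v (τ / 3) ε) - 1) (gM := fun ε => mN (bump v (τ / 3) ε) - 1)
    (gV := fun ε => vN (bump v (τ / 3) ε) - 1) (p := fun ρ => sA (capT ρ))
    (q := fun ρ => mA (capT ρ)) (r := fun ρ => vA (capT ρ)) hM hV (ds.sub_const 1) (dm.sub_const 1)
    (dv.sub_const 1) (by simp only [bump_zero]; rw [bs]; norm_num) (by simp only [bump_zero]; rw [bm]; norm_num)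
    (by simp only [bump_zero]; rw [bv]; norm_num) (cs.sub continuousOn_const) (cm.sub continuousOn_const)
    (fun a ha b hb hab => sub_le_sub_right (mm ha hb hab) 1)
    (fun a ha b hb hab => sub_le_sub_right (mv ha hb hab) 1)
    (by simp only [capT_zero]; unfold sA; rw [Real.cos_zero]; norm_num)
    (by simp only [capT_zero]; unfold mA; rw [Real.cos_zero, Real.sin_zero]; norm_num)
    (by simp only [capT_zero]; unfold vA; rw [Real.cos_zero]; norm_num)
    hp hq hr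
    (by
      have e : 2 * ((1 - Real.cos (τ / 3)) / 2) * mN K - 2 * sN K * ((1 - Real.cos (τ / 3)) / 2) =
          2 * (((1 - Real.cos (τ / 3)) / 2) * (mN K - sN K)) := by ring
      rw [e]
      have := mul_pos hw (sub_pos.2 hst2)
      linarith)
    (by linarith)
    (by
      have e : (-9 * mN K + 3 * vN K) * (2 * ((1 - Real.cos (τ / 3)) / 2) * mN K -
          2 * sN K * ((1 - Real.cos (τ / 3)) / 2)) - (-3 * mN K + 2 * sN K) *
          (3 * ((1 - Real.cos (τ / 3)) / 2) * mN K - 3 * vN K * ((1 - Real.cos (τ / 3)) / 2)) =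
          -(3 * (((1 - Real.cos (τ / 3)) / 2) * (mN K * (vN K + 3 * mN K - 4 * sN K)))) := by ring
      rw [e]
      have := mul_pos hw (mul_pos hM (sub_pos.2 hst1))
      linarith)
    hδ
  have hT0 : 0 < capT ρ := capT_pos hρ0
  have hT1 : capT ρ ≤ τ / 6 := (hsmall ρ hρ0 hρ1).le
  obtain ⟨hs1, hsep⟩ := hcap (capT ρ) hT0 hT1
  obtain ⟨K', hK', es, em, ev⟩ := modify hK h hv hv₁ hτ0 hτ1 hs hT0 hT1 hs1 hsep hα0.le
  obtain ⟨-, -, -, -, hX', hY'⟩ := lin_rel hK'
  refine ⟨K', hK', ?_, ?_⟩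
  · rw [hX', hX, es, em]
    exact e1
  · rw [hY', hY, ev, em]
    exact e2

end Pool.Agent.Lib.MP_dabcc9_gtW
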