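import Pool.Agent.Lib.MP_dabcc9_gtW.WF2

/-!
LEAF WM (similarities). `scale`: for `r > 0` the set `r • K` has `vN = r³ vN K`, `mN = r mN K`, `sN = r² sN K`: volume `Measure.addHaar_smul`, `supp (r • K) = r supp K`,
`cthickening t (r • K) = r • cthickening (t/r) K` (or by `lin_rel` only: avoid derivatives: `FT t (r • K) = r³ FT (t/r) K` and the Steiner polynomial
`steiner_limit'` for `K` and `r • K`: compare coefficients at `t = 1, 2, ...`). Then `bX`, `bY` are unchanged (`body_values`, `lin_rel`).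
`normal`: `K₀ = R⁻¹ • (K + {-a})`.
-/

open MeasureTheory Metric Set Pool.Agent.Lib.MP_dabcc9_gt
open scoped Pointwise

namespace Pool.Agent.Lib.MP_dabcc9_gtW

private lemma WM_supp {K : Set E3} (hK : IsCompact K) (hne : K.Nonempty) {r : ℝ} (hr : 0 < r) (x : E3) :
    supp (r • K) x = r * supp K x := by
  obtain ⟨s1, s2, -⟩ := supp_props hK hne
  obtain ⟨t1, t2, -⟩ := supp_props (hK.smul r) hne.smul_set
  apply le_antisymm
  · obtain ⟨z, hz, h⟩ := t2 x
    rw [h]
    obtain ⟨y, hy, rfl⟩ := Set.mem_smul_set.1 hz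
    rw [real_inner_smul_left]
    exact mul_le_mul_of_nonneg_left (s1 y hy x) hr.le
  · obtain ⟨y, hy, h⟩ := s2 x
    rw [h, ← real_inner_smul_left]
    exact t1 _ (Set.smul_mem_smul_set hy) x

private lemma WM_vol (K : Set E3) {r : ℝ} (hr : 0 < r) : vol (r • K) = r ^ 3 * vol K := by
  unfold vol
  rw [Measure.addHaar_smul, finrank_euclideanSpace_fin, ENNReal.toReal_mul,
    ENNReal.toReal_ofReal (abs_nonneg _), abs_of_pos (pow_pos hr 3)]

private lemma WM_thick {K : Set E3} (hK : IsCompact K) {r t : ℝ} (hr : 0 < r) (ht : 0 ≤ t) :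
    vol (cthickening t (r • K)) = r ^ 3 * vol (cthickening (t / r) K) := by
  rw [← WM_vol _ hr]
  have h1 : cthickening t (r • K) = r • cthickening (t / r) K := by
    rw [← (hK.smul r).add_closedBall_zero ht, ← hK.add_closedBall_zero (div_nonneg ht hr.le), smul_add,
      smul_closedBall _ _ (div_nonneg ht hr.le), smul_zero, Real.norm_of_nonneg hr.le, mul_div_cancel₀ t hr.ne']
  rw [h1]

private lemma WM_bX {K : Set E3} (hK : IsBody K) : bX K = sN K / mN K ^ 2 ∧ bY K = vN K / mN K ^ 3 := by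
  obtain ⟨-, -, h1, h2⟩ := body_values hK
  have hpi := Real.pi_pos
  constructor
  · rw [h1]
    unfold sN mN
    field_simp
  · rw [h2]
    unfold vN mN
    field_simp

theorem scale {K : Set E3} (hK : IsBody K) {r : ℝ} (hr : 0 < r) :
    IsBody (r • K) ∧ bX (r • K) = bX K ∧ bY (r • K) = bY K := by
  have hb : IsBody (r • K) := by
    refine ⟨hK.1.smul r, hK.2.1.smul r, ?_⟩
    obtain ⟨x, hx, y, hy, hxy⟩ := hK.2.2
    refine ⟨r • x, Set.smul_mem_smul_set hx, r • y, Set.smul_mem_smul_set hy, fun h => hxy ?_⟩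
    exact smul_right_injective E3 hr.ne' h
  have hne := hK.2.2.nonempty
  have hm : mN (r • K) = r * mN K := by
    unfold mN
    have h1 : supp (r • K) = fun x => r * supp K x := by
      funext x
      exact WM_supp hK.1 hne hr x
    rw [h1, av_const_mul]
  have hv : vN (r • K) = r ^ 3 * vN K := by
    unfold vN
    rw [WM_vol K hr]
    ring
  have hs : sN (r • K) = r ^ 2 * sN K := by
    unfold sN
    have h1 : HasDerivWithinAt (fun t => vol (cthickening t K)) (surf K) (Ici 0) ((0 : ℝ) / r) := by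
      rw [zero_div]
      exact (body_values hK).1.hasDerivWithinAt
    have h2 : HasDerivWithinAt (fun t : ℝ => t / r) (1 / r) (Ici 0) 0 :=
      ((hasDerivAt_id (0 : ℝ)).div_const r).hasDerivWithinAt
    have h3 : MapsTo (fun t : ℝ => t / r) (Ici 0) (Ici 0) := fun t ht =>
      mem_Ici.mpr (div_nonneg (mem_Ici.mp ht) hr.le)
    have h4 := (HasDerivWithinAt.comp (0 : ℝ) h1 h2 h3).const_mul (r ^ 3)
    have h5 : HasDerivWithinAt (fun t => vol (cthickening t (r • K))) (r ^ 3 * (surf K * (1 / r))) (Ici 0) 0 := by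
      refine h4.congr (fun t ht => ?_) ?_
      · exact WM_thick hK.1 hr (mem_Ici.mp ht)
      · exact WM_thick hK.1 hr le_rfl
    have h6 : surf (r • K) = r ^ 3 * (surf K * (1 / r)) := h5.derivWithin (uniqueDiffWithinAt_Ici 0)
    rw [h6]
    have hpi := Real.pi_pos
    field_simp
  have h1 := WM_bX hK
  have h2 := WM_bX hb
  have hmp : 0 < mN K := av_supp_pos hK.1 hK.2.2
  refine ⟨hb, ?_, ?_⟩
  · rw [h1.1, h2.1, hm, hs]
    field_simp
  · rw [h1.2, h2.2, hm, hv]
    field_simp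

theorem normal {K : Set E3} (hK : IsBody K) (a : E3) {R : ℝ} (hR : 0 < R) (h : K ⊆ closedBall a R)
    (hne : K ≠ closedBall a R) {U : Set E3} (hU : IsOpen U) (h1 : (U ∩ sphere a R).Nonempty)
    (h2 : U ∩ sphere a R ⊆ K) : ∃ K₀ U₀ : Set E3, IsBody K₀ ∧ K₀ ⊆ closedBall 0 1 ∧ K₀ ≠ closedBall 0 1 ∧
      IsOpen U₀ ∧ (U₀ ∩ sphere 0 1).Nonempty ∧ U₀ ∩ sphere 0 1 ⊆ K₀ ∧ bX K₀ = bX K ∧ bY K₀ = bY K := by
  obtain ⟨t1, t2, t3, t4⟩ := transl hK (-a)
  obtain ⟨s1, s2, s3⟩ := scale t1 (inv_pos.mpr hR)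
  have hmem : ∀ x : E3, x ∈ R⁻¹ • (K + ({-a} : Set E3)) ↔ R • x + a ∈ K := by
    intro x
    rw [Set.mem_inv_smul_set_iff₀ hR.ne', Set.add_singleton]
    constructor
    · rintro ⟨y, hy, hyx⟩
      have hyx' : y + -a = R • x := hyx
      rw [← hyx', neg_add_cancel_right]
      exact hy
    · intro hx
      exact ⟨R • x + a, hx, add_neg_cancel_right _ _⟩
  have hback : ∀ y : E3, R • (R⁻¹ • (y - a)) + a = y := by
    intro y
    rw [smul_inv_smul₀ hR.ne', sub_add_cancel]
  have hn : ∀ x : E3, dist (R • x + a) a = R * ‖x‖ := by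
    intro x
    rw [dist_eq_norm, add_sub_cancel_right, norm_smul, Real.norm_of_nonneg hR.le]
  have hn' : ∀ y : E3, ‖R⁻¹ • (y - a)‖ = R⁻¹ * dist y a := by
    intro y
    rw [norm_smul, Real.norm_of_nonneg (inv_pos.mpr hR).le, dist_eq_norm]
  refine ⟨R⁻¹ • (K + ({-a} : Set E3)), (fun x : E3 => R • x + a) ⁻¹' U, s1, ?_, ?_, ?_, ?_, ?_, ?_, ?_⟩
  · intro x hx
    have h3 := h ((hmem x).1 hx)
    rw [mem_closedBall, hn] at h3
    rw [mem_closedBall, dist_zero_right]
    nlinarith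
  · intro h3
    apply hne
    apply Set.Subset.antisymm h
    intro y hy
    rw [← hback y]
    apply (hmem _).1
    rw [h3, mem_closedBall, dist_zero_right, hn']
    rw [mem_closedBall] at hy
    rw [inv_mul_le_iff₀ hR, mul_one]
    exact hy
  · exact hU.preimage ((continuous_const_smul R).add continuous_const)
  · obtain ⟨y, hyU, hyS⟩ := h1
    refine ⟨R⁻¹ • (y - a), ?_, ?_⟩
    · show R • (R⁻¹ • (y - a)) + a ∈ U
      rw [hback]
      exact hyU
    · rw [mem_sphere] at hyS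
      rw [mem_sphere, dist_zero_right, hn', hyS, inv_mul_cancel₀ hR.ne']
  · rintro x ⟨hxU, hxS⟩
    rw [mem_sphere, dist_zero_right] at hxS
    apply (hmem x).2
    apply h2
    refine ⟨hxU, ?_⟩
    rw [mem_sphere, hn, hxS, mul_one]
  · rw [s2, (WM_bX t1).1, (WM_bX hK).1, t3, t4]
  · rw [s3, (WM_bX t1).2, (WM_bX hK).2, t2, t4]

end Pool.Agent.Lib.MP_dabcc9_gtW
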