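import Pool.Agent.Lib.MP_dabcc9_gtW.WL
import Pool.Agent.Lib.MP_dabcc9_gtW.WM

/-! No extremal body has a spherical part. -/

open MeasureTheory Metric Set Pool.Agent.Lib.MP_dabcc9_gt

namespace Pool.Agent.Lib.MP_dabcc9_gtW

theorem main (K : Set E3) (hK : IsBody K) (a : E3) (R : ℝ) (h : K ⊆ closedBall a R)
    (hne : K ≠ closedBall a R) (U : Set E3) (hU : IsOpen U) (h1 : (U ∩ sphere a R).Nonempty)
    (h2 : U ∩ sphere a R ⊆ K) :
    ∃ K' : Set E3, IsBody K' ∧ bX K' = bX K ∧ bY K' < bY K := by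
  have hR : 0 < R := by
    obtain ⟨x, hx, y, hy, hxy⟩ := hK.2.2
    have hx1 := h hx
    have hy1 := h hy
    rw [mem_closedBall] at hx1 hy1
    have h3 : 0 < dist x y := dist_pos.2 hxy
    have h4 : dist x y ≤ dist x a + dist y a := by
      rw [dist_comm y a]
      exact dist_triangle x a y
    linarith
  obtain ⟨K₀, U₀, g1, g2, g3, g4, g5, g6, g7, g8⟩ := normal hK a hR h hne hU h1 h2
  obtain ⟨K', k1, k2, k3⟩ := unit_case g1 g2 g3 g4 g5 g6
  exact ⟨K', k1, k2.trans g7, by rw [← g8]; exact k3⟩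

end Pool.Agent.Lib.MP_dabcc9_gtW
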